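import Pool.Agent.Work.MP_0e2194_an.Params

/-!
# The vertical profile
-/

open MeasureTheory Filter Topology Real

namespace Pool.Agent.Work.MP_0e2194_an

/-- the argument of the arc tangent -/
noncomputable def arg0 (r y : ℝ) : ℝ := r * sin (2 * π * y) / (1 - r * cos (2 * π * y))

/-- smoothed sawtooth -/
noncomputable def sr (r y : ℝ) : ℝ := 1 / π * arctan (arg0 r y)

lemma den_pos {r : ℝ} (h0 : 0 ≤ r) (h1 : r < 1) (θ : ℝ) : 0 < 1 - r * cos θ := by
  have := cos_le_one θ
  nlinarith

lemma sr_per (r y : ℝ) : sr r (y + 1) = sr r y := by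
  unfold sr arg0
  have h1 : 2 * π * (y + 1) = 2 * π * y + 2 * π := by ring
  rw [h1, sin_add_two_pi, cos_add_two_pi]

lemma arg0_smooth {r : ℝ} (h0 : 0 ≤ r) (h1 : r < 1) : ContDiff ℝ (⊤ : ℕ∞) (arg0 r) := by
  unfold arg0
  refine ContDiff.div ?_ ?_ fun y => (den_pos h0 h1 _).ne'
  · exact contDiff_const.mul (contDiff_sin.comp (contDiff_const.mul contDiff_id))
  · exact contDiff_const.sub (contDiff_const.mul (contDiff_cos.comp (contDiff_const.mul contDiff_id)))

lemma sr_smooth {r : ℝ} (h0 : 0 ≤ r) (h1 : r < 1) : ContDiff ℝ (⊤ : ℕ∞) (sr r) :=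
  contDiff_const.mul (contDiff_arctan.comp (arg0_smooth h0 h1))

lemma sr_cont {r : ℝ} (h0 : 0 ≤ r) (h1 : r < 1) : Continuous (sr r) := (sr_smooth h0 h1).continuous

lemma hasDerivAt_sr {r : ℝ} (h0 : 0 ≤ r) (h1 : r < 1) (y : ℝ) :
    HasDerivAt (sr r) ((1 - r ^ 2) / (1 - 2 * r * cos (2 * π * y) + r ^ 2) - 1) y := by
  set θ := 2 * π * y with hθ
  have hd := den_pos h0 h1 θ
  have hin : HasDerivAt (fun y : ℝ => 2 * π * y) (2 * π) y := by
    simpa using (hasDerivAt_id' y).const_mul (2 * π)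
  have hs : HasDerivAt (fun y : ℝ => r * sin (2 * π * y)) (r * (cos θ * (2 * π))) y :=
    (hin.sin).const_mul r
  have hc : HasDerivAt (fun y : ℝ => 1 - r * cos (2 * π * y)) (- (r * (-sin θ * (2 * π)))) y := by
    simpa using ((hin.cos).const_mul r).const_sub 1
  have ha : HasDerivAt (arg0 r) ((r * (cos θ * (2 * π)) * (1 - r * cos θ)
      - r * sin θ * (- (r * (-sin θ * (2 * π))))) / (1 - r * cos θ) ^ 2) y := hs.div hc hd.ne'
  have hat := (ha.arctan).const_mul (1 / π)
  have hsq : sin θ ^ 2 + cos θ ^ 2 = 1 := sin_sq_add_cos_sq θ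
  have hden : 0 < 1 - 2 * r * cos θ + r ^ 2 := by
    have : 1 - 2 * r * cos θ + r ^ 2 = (1 - r * cos θ) ^ 2 + r ^ 2 * (1 - cos θ ^ 2) := by ring
    rw [this]
    have h2 : 0 ≤ 1 - cos θ ^ 2 := by nlinarith [sq_nonneg (sin θ)]
    positivity
  have hval : 1 / π * (1 / (1 + arg0 r y ^ 2) * ((r * (cos θ * (2 * π)) * (1 - r * cos θ)
      - r * sin θ * (- (r * (-sin θ * (2 * π))))) / (1 - r * cos θ) ^ 2))
      = (1 - r ^ 2) / (1 - 2 * r * cos θ + r ^ 2) - 1 := by
    unfold arg0
    rw [← hθ]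
    have h3 : 1 + (r * sin θ / (1 - r * cos θ)) ^ 2
        = (1 - 2 * r * cos θ + r ^ 2) / (1 - r * cos θ) ^ 2 := by
      field_simp
      linear_combination (r ^ 2) * hsq
    rw [h3]
    have hpi := pi_pos.ne'
    field_simp
    linear_combination (-2 * r ^ 2) * hsq
  rw [← hval]
  exact hat

lemma S_strictMono {r : ℝ} (h0 : 0 ≤ r) (h1 : r < 1) : StrictMono (fun y => y + sr r y) := by
  apply strictMono_of_deriv_pos
  intro y
  have h2 : HasDerivAt (fun y => y + sr r y)
      (1 + ((1 - r ^ 2) / (1 - 2 * r * cos (2 * π * y) + r ^ 2) - 1)) y :=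
    (hasDerivAt_id' y).add (hasDerivAt_sr h0 h1 y)
  rw [h2.deriv]
  have hden : 0 < 1 - 2 * r * cos (2 * π * y) + r ^ 2 := by
    have hd := den_pos h0 h1 (2 * π * y)
    have hsq : sin (2 * π * y) ^ 2 + cos (2 * π * y) ^ 2 = 1 := sin_sq_add_cos_sq _
    have : 1 - 2 * r * cos (2 * π * y) + r ^ 2
        = (1 - r * cos (2 * π * y)) ^ 2 + r ^ 2 * (1 - cos (2 * π * y) ^ 2) := by ring
    rw [this]
    have h2 : 0 ≤ 1 - cos (2 * π * y) ^ 2 := by nlinarith [sq_nonneg (sin (2 * π * y))]
    positivity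
  have : 0 < (1 - r ^ 2) / (1 - 2 * r * cos (2 * π * y) + r ^ 2) := by
    apply div_pos _ hden
    nlinarith
  linarith

/-- the window function -/
noncomputable def rho (r q y : ℝ) : ℝ := q + sr r (y + q / 2) - sr r (y - q / 2)

lemma rho_mem {r q : ℝ} (h0 : 0 ≤ r) (h1 : r < 1) (hq0 : 0 ≤ q) (hq1 : q ≤ 1) (y : ℝ) :
    0 ≤ rho r q y ∧ rho r q y ≤ 1 := by
  have hS := S_strictMono h0 h1
  have e1 := hS.monotone (show y - q / 2 ≤ y + q / 2 by linarith)
  have e2 := hS.monotone (show y + q / 2 ≤ y - q / 2 + 1 by linarith)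
  simp only [sr_per] at e1 e2
  unfold rho
  constructor <;> linarith

/-- the shift making the primitive positive -/
noncomputable def th (r q : ℝ) : ℝ := arccos (r * cos (π * q)) / (2 * π)

lemma th_pos {r q : ℝ} (h0 : 0 ≤ r) (h1 : r < 1) (hq0 : 0 ≤ q) (hq1 : q ≤ 1 / 2) :
    0 < th r q ∧ th r q ≤ 1 / 4 := by
  have hc : 0 ≤ cos (π * q) := by
    apply cos_nonneg_of_neg_pi_div_two_le_of_le
    · have := pi_pos; nlinarith
    · have := pi_pos; nlinarith
  have hc1 := cos_le_one (π * q)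
  have h2 : r * cos (π * q) < 1 := by nlinarith
  have h3 : 0 < arccos (r * cos (π * q)) := arccos_pos.2 h2
  have h4 : arccos (r * cos (π * q)) ≤ π / 2 := arccos_le_pi_div_two.2 (by positivity)
  unfold th
  refine ⟨by positivity, ?_⟩
  rw [div_le_iff₀ (by positivity)]
  linarith

lemma cos_th {r q : ℝ} (h0 : 0 ≤ r) (h1 : r < 1) (hq0 : 0 ≤ q) (hq1 : q ≤ 1 / 2) :
    cos (2 * π * th r q) = r * cos (π * q) := by
  have hc : 0 ≤ cos (π * q) := by
    apply cos_nonneg_of_neg_pi_div_two_le_of_le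
    · have := pi_pos; nlinarith
    · have := pi_pos; nlinarith
  have hc1 := cos_le_one (π * q)
  have h2 : 2 * π * th r q = arccos (r * cos (π * q)) := by
    unfold th; field_simp
  rw [h2, cos_arccos]
  · have := mul_nonneg h0 hc; linarith
  · nlinarith

/-- the vertical profile -/
noncomputable def sg (r q y : ℝ) : ℝ := 1 - 2 * rho r q (y + th r q)

lemma arg_diff {r q : ℝ} (h0 : 0 ≤ r) (h1 : r < 1) (hq0 : 0 ≤ q) (hq1 : q ≤ 1 / 2) (y : ℝ) :
    arg0 r (y + th r q - q / 2) - arg0 r (y + th r q + q / 2)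
      = r * (4 * sin (π * q) * sin (π * (y + 2 * th r q)) * sin (π * y))
        / ((1 - r * cos (2 * π * (y + th r q - q / 2)))
          * (1 - r * cos (2 * π * (y + th r q + q / 2)))) := by
  have e1 : 2 * π * (y + th r q - q / 2) = 2 * π * (y + th r q) - π * q := by ring
  have e2 : 2 * π * (y + th r q + q / 2) = 2 * π * (y + th r q) + π * q := by ring
  have hd1 := den_pos h0 h1 (2 * π * (y + th r q) - π * q)
  have hd2 := den_pos h0 h1 (2 * π * (y + th r q) + π * q)
  have hct := cos_th h0 h1 hq0 hq1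
  have hdiff : cos (2 * π * (y + th r q)) - r * cos (π * q)
      = - (2 * sin (π * (y + 2 * th r q)) * sin (π * y)) := by
    rw [← hct, cos_sub_cos]
    have e3 : (2 * π * (y + th r q) + 2 * π * th r q) / 2 = π * (y + 2 * th r q) := by ring
    have e4 : (2 * π * (y + th r q) - 2 * π * th r q) / 2 = π * y := by ring
    rw [e3, e4]; ring
  unfold arg0
  rw [e1, e2]
  rw [div_sub_div _ _ hd1.ne' hd2.ne']
  congr 1
  set X := 2 * π * (y + th r q)
  have h3 : r * sin (X - π * q) * (1 - r * cos (X + π * q))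
      - (1 - r * cos (X - π * q)) * (r * sin (X + π * q))
      = r * (sin (X - π * q) - sin (X + π * q) + r * (sin (X + π * q) * cos (X - π * q)
        - cos (X + π * q) * sin (X - π * q))) := by ring
  have h4 : sin (X + π * q) * cos (X - π * q) - cos (X + π * q) * sin (X - π * q)
      = sin (2 * (π * q)) := by
    rw [← sin_sub]; congr 1; ring
  have h5 : sin (X - π * q) - sin (X + π * q) = - (2 * cos X * sin (π * q)) := by
    rw [sin_sub, sin_add]; ring
  rw [h3, h4, h5, sin_two_mul]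
  linear_combination (-2 * r * sin (π * q)) * hdiff

lemma sg_sub (r q y : ℝ) : sg r q y - (1 - 2 * q)
    = 2 / π * (arctan (arg0 r (y + th r q - q / 2)) - arctan (arg0 r (y + th r q + q / 2))) := by
  unfold sg rho sr
  ring

lemma sg_pos {r q : ℝ} (h0 : 0 < r) (h1 : r < 1) (hq0 : 0 < q) (hq1 : q ≤ 1 / 2) {y : ℝ}
    (hy0 : 0 < y) (hy1 : y < 1 - 2 * th r q) : 0 < sg r q y - (1 - 2 * q) := by
  obtain ⟨t0, t1⟩ := th_pos h0.le h1 hq0.le hq1
  rw [sg_sub]
  have hd := arg_diff h0.le h1 hq0.le hq1 y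
  have s1 : 0 < sin (π * q) := sin_pos_of_pos_of_lt_pi (by positivity) (by nlinarith [pi_pos])
  have s2 : 0 < sin (π * (y + 2 * th r q)) :=
    sin_pos_of_pos_of_lt_pi (by positivity) (by nlinarith [pi_pos])
  have s3 : 0 < sin (π * y) := sin_pos_of_pos_of_lt_pi (by positivity) (by nlinarith [pi_pos])
  have d1 := den_pos h0.le h1 (2 * π * (y + th r q - q / 2))
  have d2 := den_pos h0.le h1 (2 * π * (y + th r q + q / 2))
  have h3 : arg0 r (y + th r q + q / 2) < arg0 r (y + th r q - q / 2) := by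
    have : 0 < arg0 r (y + th r q - q / 2) - arg0 r (y + th r q + q / 2) := by
      rw [hd]; positivity
    linarith
  have h4 := arctan_strictMono h3
  have h5 : 0 < arctan (arg0 r (y + th r q - q / 2)) - arctan (arg0 r (y + th r q + q / 2)) := by
    linarith
  positivity

lemma sg_neg {r q : ℝ} (h0 : 0 < r) (h1 : r < 1) (hq0 : 0 < q) (hq1 : q ≤ 1 / 2) {y : ℝ}
    (hy0 : 1 - 2 * th r q < y) (hy1 : y < 1) : sg r q y - (1 - 2 * q) < 0 := by
  obtain ⟨t0, t1⟩ := th_pos h0.le h1 hq0.le hq1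
  rw [sg_sub]
  have hd := arg_diff h0.le h1 hq0.le hq1 y
  have s1 : 0 < sin (π * q) := sin_pos_of_pos_of_lt_pi (by positivity) (by nlinarith [pi_pos])
  have s2 : sin (π * (y + 2 * th r q)) < 0 := by
    have h2 : sin (π * (y + 2 * th r q)) = - sin (π * (y + 2 * th r q) - π) := by
      rw [sin_sub_pi]; ring
    rw [h2]
    have h3 : 0 < sin (π * (y + 2 * th r q) - π) :=
      sin_pos_of_pos_of_lt_pi (by nlinarith [pi_pos]) (by nlinarith [pi_pos])
    linarith
  have s3 : 0 < sin (π * y) := sin_pos_of_pos_of_lt_pi (by nlinarith [pi_pos]) (by nlinarith [pi_pos])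
  have d1 := den_pos h0.le h1 (2 * π * (y + th r q - q / 2))
  have d2 := den_pos h0.le h1 (2 * π * (y + th r q + q / 2))
  have h3 : arg0 r (y + th r q - q / 2) < arg0 r (y + th r q + q / 2) := by
    have : arg0 r (y + th r q - q / 2) - arg0 r (y + th r q + q / 2) < 0 := by
      rw [hd]
      apply div_neg_of_neg_of_pos _ (mul_pos d1 d2)
      have : 0 < r * (4 * sin (π * q)) := by positivity
      have h6 : r * (4 * sin (π * q) * sin (π * (y + 2 * th r q)) * sin (π * y))
        = (r * (4 * sin (π * q))) * sin (π * y) * sin (π * (y + 2 * th r q)) := by ring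
      rw [h6]
      exact mul_neg_of_pos_of_neg (mul_pos this s3) s2
    linarith
  have h4 := arctan_strictMono h3
  have h5 : arctan (arg0 r (y + th r q - q / 2)) - arctan (arg0 r (y + th r q + q / 2)) < 0 := by
    linarith
  exact mul_neg_of_pos_of_neg (by positivity) h5

lemma sg_per (r q y : ℝ) : sg r q (y + 1) = sg r q y := by
  unfold sg rho
  have e1 : y + 1 + th r q + q / 2 = y + th r q + q / 2 + 1 := by ring
  have e2 : y + 1 + th r q - q / 2 = y + th r q - q / 2 + 1 := by ring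
  rw [e1, e2, sr_per, sr_per]

lemma sg_smooth {r : ℝ} (q : ℝ) (h0 : 0 ≤ r) (h1 : r < 1) : ContDiff ℝ (⊤ : ℕ∞) (sg r q) := by
  have h2 := sr_smooth h0 h1
  unfold sg rho
  refine contDiff_const.sub (contDiff_const.mul ((contDiff_const.add (h2.comp ?_)).sub (h2.comp ?_)))
  · exact (contDiff_id.add contDiff_const).add contDiff_const
  · exact (contDiff_id.add contDiff_const).sub contDiff_const

lemma sg_abs {r q : ℝ} (h0 : 0 ≤ r) (h1 : r < 1) (hq0 : 0 ≤ q) (hq1 : q ≤ 1) (y : ℝ) :
    |sg r q y| ≤ 1 := by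
  obtain ⟨h2, h3⟩ := rho_mem h0 h1 hq0 hq1 (y + th r q)
  unfold sg
  rw [abs_le]
  constructor <;> linarith

lemma integral_shift {h : ℝ → ℝ} (hp : ∀ x, h (x + 1) = h x) (u : ℝ) :
    ∫ y in (0 : ℝ)..1, h (y + u) = ∫ y in (0 : ℝ)..1, h y := by
  rw [intervalIntegral.integral_comp_add_right]
  have := (show Function.Periodic h 1 from hp).intervalIntegral_add_eq u 0
  have e1 : (0 : ℝ) + u = u := by ring
  have e2 : (1 : ℝ) + u = u + 1 := by ring
  rw [e1, e2, this, zero_add]

lemma integral_sg {r : ℝ} (q : ℝ) (h0 : 0 ≤ r) (h1 : r < 1) :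
    ∫ y in (0 : ℝ)..1, (sg r q y - (1 - 2 * q)) = 0 := by
  have hc := sr_cont h0 h1
  have e : ∀ y, sg r q y - (1 - 2 * q)
      = 2 * (sr r (y + (th r q - q / 2)) - sr r (y + (th r q + q / 2))) := by
    intro y
    unfold sg rho
    have e1 : y + (th r q - q / 2) = y + th r q - q / 2 := by ring
    have e2 : y + (th r q + q / 2) = y + th r q + q / 2 := by ring
    rw [e1, e2]; ring
  have c1 : Continuous (fun y => sr r (y + (th r q - q / 2))) := hc.comp (by fun_prop)
  have c2 : Continuous (fun y => sr r (y + (th r q + q / 2))) := hc.comp (by fun_prop)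
  simp_rw [e]
  rw [intervalIntegral.integral_const_mul, intervalIntegral.integral_sub
    (c1.intervalIntegrable _ _) (c2.intervalIntegrable _ _),
    integral_shift (sr_per r), integral_shift (sr_per r)]
  ring

/-- primitive of the centred vertical profile -/
noncomputable def bt (r q y : ℝ) : ℝ := ∫ t in (0 : ℝ)..y, (sg r q t - (1 - 2 * q))

lemma sg_sub_cont {r : ℝ} (q : ℝ) (h0 : 0 ≤ r) (h1 : r < 1) :
    Continuous (fun t => sg r q t - (1 - 2 * q)) :=
  (sg_smooth q h0 h1).continuous.sub continuous_const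

lemma hasDerivAt_bt {r : ℝ} (q : ℝ) (h0 : 0 ≤ r) (h1 : r < 1) (y : ℝ) :
    HasDerivAt (bt r q) (sg r q y - (1 - 2 * q)) y := by
  have hc := sg_sub_cont q h0 h1
  exact intervalIntegral.integral_hasDerivAt_right (hc.intervalIntegrable _ _)
    (hc.stronglyMeasurableAtFilter _ _) hc.continuousAt

lemma bt_one {r : ℝ} (q : ℝ) (h0 : 0 ≤ r) (h1 : r < 1) : bt r q 1 = 0 := integral_sg q h0 h1

lemma bt_per {r : ℝ} (q : ℝ) (h0 : 0 ≤ r) (h1 : r < 1) (y : ℝ) : bt r q (y + 1) = bt r q y := by
  have hc := sg_sub_cont q h0 h1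
  unfold bt
  rw [← intervalIntegral.integral_add_adjacent_intervals (hc.intervalIntegrable 0 y)
    (hc.intervalIntegrable y (y + 1))]
  have h2 := (show Function.Periodic (fun t => sg r q t - (1 - 2 * q)) 1 from
    fun t => by simp only [sg_per]).intervalIntegral_add_eq y 0
  rw [h2, zero_add, integral_sg q h0 h1, add_zero]

lemma bt_pos {r q : ℝ} (h0 : 0 < r) (h1 : r < 1) (hq0 : 0 < q) (hq1 : q ≤ 1 / 2) {y : ℝ}
    (hy : y ∈ Set.Ioo (0 : ℝ) 1) : 0 < bt r q y := by
  have hc := sg_sub_cont q h0.le h1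
  rcases le_total y (1 - 2 * th r q) with h | h
  · apply intervalIntegral.intervalIntegral_pos_of_pos_on (hc.intervalIntegrable _ _) _ hy.1
    intro t ht
    exact sg_pos h0 h1 hq0 hq1 ht.1 (lt_of_lt_of_le ht.2 h)
  · have h2 : bt r q y = ∫ t in y..1, -(sg r q t - (1 - 2 * q)) := by
      have h3 := intervalIntegral.integral_add_adjacent_intervals (μ := volume)
        (hc.intervalIntegrable 0 y) (hc.intervalIntegrable y 1)
      rw [integral_sg q h0.le h1] at h3
      rw [intervalIntegral.integral_neg]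
      unfold bt
      linarith
    rw [h2]
    apply intervalIntegral.intervalIntegral_pos_of_pos_on (hc.neg.intervalIntegrable _ _) _ hy.2
    intro t ht
    have := sg_neg h0 h1 hq0 hq1 (lt_of_le_of_lt h ht.1) ht.2
    show 0 < -(sg r q t - (1 - 2 * q))
    linarith

/-! ### The limit `r → 1` -/

lemma sr_one {y : ℝ} (hy : y ∈ Set.Ioo (0 : ℝ) 1) : sr 1 y = 1 / 2 - y := by
  unfold sr arg0
  have hpi := pi_pos
  have hs : 0 < sin (π * y) := sin_pos_of_pos_of_lt_pi (by have := hy.1; positivity)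
    (by have := hy.2; nlinarith)
  have e1 : 2 * π * y = 2 * (π * y) := by ring
  have h1 : 1 * sin (2 * π * y) / (1 - 1 * cos (2 * π * y)) = tan (π / 2 - π * y) := by
    rw [e1, sin_two_mul, cos_two_mul, tan_eq_sin_div_cos, sin_pi_div_two_sub, cos_pi_div_two_sub]
    have h2 : 1 - 1 * (2 * cos (π * y) ^ 2 - 1) = 2 * sin (π * y) ^ 2 := by
      have := sin_sq_add_cos_sq (π * y)
      linarith
    rw [h2]
    field_simp
  rw [h1, arctan_tan]
  · field_simp
  · nlinarith [hy.2]
  · nlinarith [hy.1]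

lemma cos_ne_one {y : ℝ} (hy : y ∈ Set.Ioo (0 : ℝ) 1) : cos (2 * π * y) ≠ 1 := by
  intro h
  have hpi := pi_pos
  have hs : 0 < sin (π * y) := sin_pos_of_pos_of_lt_pi (by have := hy.1; positivity)
    (by have := hy.2; nlinarith)
  have e1 : 2 * π * y = 2 * (π * y) := by ring
  rw [e1, cos_two_mul] at h
  have := sin_sq_add_cos_sq (π * y)
  nlinarith [mul_pos hs hs]

lemma th_cont (q : ℝ) : Continuous (fun r => th r q) := by
  unfold th
  exact (continuous_arccos.comp (by fun_prop)).div_const _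

lemma th_one {q : ℝ} (hq0 : 0 ≤ q) (hq1 : q ≤ 1) : th 1 q = q / 2 := by
  unfold th
  rw [one_mul, arccos_cos (by positivity) (by nlinarith [pi_pos])]
  field_simp

lemma tendsto_sr {q u : ℝ} {y : ℝ} (hne : cos (2 * π * (y + th 1 q + u)) ≠ 1) :
    Tendsto (fun r => sr r (y + th r q + u)) (𝓝 1) (𝓝 (sr 1 (y + th 1 q + u))) := by
  have ht := th_cont q
  have h1 : ContinuousAt (fun r => sr r (y + th r q + u)) 1 := by
    unfold sr arg0
    refine continuousAt_const.mul (continuous_arctan.continuousAt.comp ?_)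
    refine ContinuousAt.div ?_ ?_ ?_
    · exact (by fun_prop : Continuous fun r => r * sin (2 * π * (y + th r q + u))).continuousAt
    · exact (by fun_prop : Continuous fun r => 1 - r * cos (2 * π * (y + th r q + u))).continuousAt
    · rw [one_mul]
      intro h
      exact hne (by linarith)
  exact h1

lemma tendsto_entropy {q k y : ℝ} (hq0 : 0 < q) (hq1 : q ≤ 1 / 2) (hy : y ∈ Set.Ioo (0 : ℝ) 1)
    (hyq : y ≠ 1 - q) :
    Tendsto (fun r => binEntropy ((1 + k * sg r q y) / 2)) (𝓝 1)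
      (𝓝 (binEntropy ((1 + k) / 2))) := by
  have hth := th_one hq0.le (by linarith : q ≤ 1)
  have e1 : y + th 1 q + q / 2 = y + q := by rw [hth]; ring
  have e2 : y + th 1 q + (- (q / 2)) = y := by rw [hth]; ring
  have hlim : ∀ v, 2 * (q + sr 1 (y + q) - sr 1 y) = 1 - v → cos (2 * π * (y + q)) ≠ 1 →
      Tendsto (fun r => binEntropy ((1 + k * sg r q y) / 2)) (𝓝 1)
        (𝓝 (binEntropy ((1 + k * v) / 2))) := by
    intro v hv hne
    have t1 := tendsto_sr (q := q) (u := q / 2) (y := y) (by rw [e1]; exact hne)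
    have t2 := tendsto_sr (q := q) (u := -(q / 2)) (y := y) (by rw [e2]; exact cos_ne_one hy)
    rw [e1] at t1
    rw [e2] at t2
    have t3 : Tendsto (fun r => sg r q y) (𝓝 1) (𝓝 v) := by
      have t4 := (((t1.const_add q).sub t2).const_mul 2).const_sub 1
      rw [hv] at t4
      have e3 : 1 - (1 - v) = v := by ring
      rw [e3] at t4
      refine t4.congr fun r => ?_
      unfold sg rho
      have e4 : y + th r q + -(q / 2) = y + th r q - q / 2 := by ring
      rw [e4]
    exact (binEntropy_continuous.tendsto _).comp (((t3.const_mul k).const_add 1).div_const 2)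
  rcases lt_or_gt_of_ne hyq with h | h
  · have hm : y + q ∈ Set.Ioo (0 : ℝ) 1 := ⟨by linarith [hy.1], by linarith⟩
    have := hlim 1 (by rw [sr_one hm, sr_one hy]; ring) (cos_ne_one hm)
    rwa [mul_one] at this
  · have hm : y + q - 1 ∈ Set.Ioo (0 : ℝ) 1 := ⟨by linarith, by linarith [hy.2]⟩
    have e3 : y + q = (y + q - 1) + 1 := by ring
    have hne : cos (2 * π * (y + q)) ≠ 1 := by
      have e4 : 2 * π * (y + q) = 2 * π * (y + q - 1) + 2 * π := by ring
      rw [e4, cos_add_two_pi]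
      exact cos_ne_one hm
    have := hlim (-1) (by rw [e3, sr_per, sr_one hm, sr_one hy]; ring) hne
    have e5 : (1 + k * -1) / 2 = 1 - (1 + k) / 2 := by ring
    rwa [e5, binEntropy_one_sub] at this

/-- the two dimensional entropy functional -/
noncomputable def EE (M : ℝ) (σ : ℝ → ℝ) : ℝ :=
  ∫ x in (0 : ℝ)..1, ∫ y in (0 : ℝ)..1, binEntropy ((1 + KM M (x / 2) * σ y) / 2)

lemma abs_KM_mul_le (M x : ℝ) {v : ℝ} (hv : |v| ≤ 1) : |KM M x * v| ≤ 1 := by
  rw [abs_mul]
  exact mul_le_one₀ (KM_lt M x).le (abs_nonneg _) hv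

lemma tendsto_EE {M q : ℝ} (hq0 : 0 < q) (hq1 : q ≤ 1 / 2) :
    Tendsto (fun r => EE M (sg r q)) (𝓝[<] 1) (𝓝 (lmin M)) := by
  have hev : ∀ᶠ r : ℝ in 𝓝[<] 1, 0 ≤ r ∧ r < 1 := by
    have h1 : ∀ᶠ r : ℝ in 𝓝[<] 1, 0 ≤ r :=
      (eventually_ge_nhds (zero_lt_one)).filter_mono nhdsWithin_le_nhds
    exact h1.and self_mem_nhdsWithin
  have hK := KM_cont M
  have hbd : ∀ᶠ r : ℝ in 𝓝[<] 1, ∀ x y, |binEntropy ((1 + KM M (x / 2) * sg r q y) / 2)| ≤ log 2 := by
    filter_upwards [hev] with r hr x y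
    obtain ⟨h1, h2⟩ := unit_of_abs (abs_KM_mul_le M (x / 2) (sg_abs hr.1 hr.2 hq0.le (by linarith) y))
    exact abs_binEntropy_le h1 h2
  have hcont : ∀ᶠ r : ℝ in 𝓝[<] 1,
      Continuous (fun p : ℝ × ℝ => binEntropy ((1 + KM M (p.1 / 2) * sg r q p.2) / 2)) := by
    filter_upwards [hev] with r hr
    have h1 := (sg_smooth q hr.1 hr.2).continuous
    exact binEntropy_continuous.comp (by fun_prop)
  have hinner : ∀ x : ℝ, Tendsto (fun r => ∫ y in (0 : ℝ)..1,
      binEntropy ((1 + KM M (x / 2) * sg r q y) / 2)) (𝓝[<] 1)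
      (𝓝 (∫ y in (0 : ℝ)..1, binEntropy ((1 + KM M (x / 2)) / 2))) := by
    intro x
    refine intervalIntegral.tendsto_integral_filter_of_dominated_convergence (fun _ => log 2)
      ?_ ?_ (by simp) ?_
    · filter_upwards [hcont] with r hr
      exact (hr.comp (by fun_prop : Continuous fun y : ℝ => (x, y))).aestronglyMeasurable
    · filter_upwards [hbd] with r hr
      exact Eventually.of_forall fun y _ => hr x y
    · have hne : ∀ᵐ y : ℝ, y ≠ 1 := by simp [ae_iff]
      have hne2 : ∀ᵐ y : ℝ, y ≠ 1 - q := by simp [ae_iff]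
      filter_upwards [hne, hne2] with y hy1 hy2 hy
      rw [Set.uIoc_of_le zero_le_one] at hy
      exact (tendsto_entropy hq0 hq1 ⟨hy.1, lt_of_le_of_ne hy.2 hy1⟩ hy2).mono_left
        nhdsWithin_le_nhds
  unfold EE lmin
  have h := intervalIntegral.tendsto_integral_filter_of_dominated_convergence
    (μ := volume) (a := 0) (b := 1) (l := 𝓝[<] (1 : ℝ))
    (F := fun r x => ∫ y in (0 : ℝ)..1, binEntropy ((1 + KM M (x / 2) * sg r q y) / 2))
    (f := fun x => ∫ y in (0 : ℝ)..1, binEntropy ((1 + KM M (x / 2)) / 2)) (fun _ => log 2)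
    (by
      filter_upwards [hcont] with r hr
      exact (intervalIntegral.continuous_parametric_intervalIntegral_of_continuous'
        hr 0 1).aestronglyMeasurable)
    (by
      filter_upwards [hbd] with r hr
      refine Eventually.of_forall fun x _ => ?_
      have := intervalIntegral.norm_integral_le_of_norm_le_const (a := 0) (b := 1) (C := log 2)
        (f := fun y => binEntropy ((1 + KM M (x / 2) * sg r q y) / 2)) (fun y _ => hr x y)
      simpa using this)
    (by simp) (Eventually.of_forall fun x _ => hinner x)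
  simpa using h

/-- existence of the parameters of the skew product -/
theorem exists_skew {a b : ℝ} (ha : a < 0) (hab : 0 < a + b) (hb : b < log 2) :
    ∃ s : Skew, ∫ x in (0 : ℝ)..1, binEntropy (s.base.w (x / 2) / 2) = b ∧
      ∫ x in (0 : ℝ)..1, ∫ y in (0 : ℝ)..1, binEntropy (s.W (x / 2) y / 2) = a + b := by
  obtain ⟨M, hM0, hM⟩ := exists_lmin_lt hab
  obtain ⟨c, hc0, hc1, hc⟩ := exists_c (show lmin M < b by linarith) hb
  set q : ℝ := (1 - c) / 2 with hq
  have hq0 : 0 < q := by rw [hq]; linarith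
  have hq1 : q ≤ 1 / 2 := by rw [hq]; linarith
  have hcq : 1 - 2 * q = c := by rw [hq]; ring
  obtain ⟨r, hr, hr0, hr1⟩ : ∃ r, EE M (sg r q) < a + b ∧ 0 < r ∧ r < 1 := by
    have h1 := (tendsto_EE (M := M) hq0 hq1).eventually_lt_const hM
    have h2 : ∀ᶠ r : ℝ in 𝓝[<] 1, 0 < r :=
      (eventually_gt_nhds (zero_lt_one)).filter_mono nhdsWithin_le_nhds
    obtain ⟨r, ⟨h3, h4⟩, h5⟩ := ((h1.and h2).and self_mem_nhdsWithin).exists
    exact ⟨r, h3, h4, h5⟩
  have hK := KM_cont M
  have hsg := (sg_smooth q hr0.le hr1).continuous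
  set E : ℝ → ℝ := fun τ => EE M (fun y => c + τ * (sg r q y - c)) with hE
  have hEc : Continuous E := by
    simp only [hE, EE]
    refine intervalIntegral.continuous_parametric_intervalIntegral_of_continuous' ?_ 0 1
    refine intervalIntegral.continuous_parametric_intervalIntegral_of_continuous' ?_ 0 1
    exact binEntropy_continuous.comp (by fun_prop)
  have hE0 : E 0 = b := by
    simp only [hE, EE, zero_mul, add_zero]
    rw [← hc]
    refine intervalIntegral.integral_congr fun x _ => ?_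
    simp [mul_comm]
  have hE1 : E 1 = EE M (sg r q) := by
    simp only [hE, one_mul, add_sub_cancel]
  obtain ⟨τ, ⟨hτ0, hτ1⟩, hτ⟩ := intermediate_value_Icc' zero_le_one hEc.continuousOn
    (show a + b ∈ Set.Icc (E 1) (E 0) by rw [hE0, hE1]; exact ⟨hr.le, by linarith⟩)
  have hτpos : 0 < τ := lt_of_le_of_ne hτ0 (by
    rintro rfl
    rw [hE0] at hτ; linarith)
  refine ⟨{ K := KM M
            K_smooth := KM_smooth M
            K_half := KM_half M
            K_lt := KM_lt M
            K_ne := KM_ne hM0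
            c := c
            c_lt := by rw [abs_of_pos hc0]; exact hc1
            σ := fun y => c + τ * (sg r q y - c)
            σ_smooth := contDiff_const.add (contDiff_const.mul
              ((sg_smooth q hr0.le hr1).sub contDiff_const))
            σ_per := fun y => by rw [sg_per]
            σ_le := fun y => by
              have h1 := abs_le.1 (sg_abs hr0.le hr1 hq0.le (by linarith : q ≤ 1) y)
              rw [abs_le]
              constructor
              · nlinarith [h1.1, h1.2]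
              · nlinarith [h1.1, h1.2]
            β := fun y => τ * bt r q y
            β_deriv := fun y => by
              have h1 := (hasDerivAt_bt q hr0.le hr1 y).const_mul τ
              rw [hcq] at h1
              have h2 : c + τ * (sg r q y - c) - c = τ * (sg r q y - c) := by ring
              rw [h2]
              exact h1
            β_zero := by simp [bt]
            β_per := fun y => by rw [bt_per q hr0.le hr1]
            β_pos := fun y hy => mul_pos hτpos (bt_pos hr0 hr1 hq0 hq1 hy) }, ?_, ?_⟩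
  · exact hc
  · exact hτ

end Pool.Agent.Work.MP_0e2194_an
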