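import Pool.Agent.Work.MP_0e2194_an.Skew

/-!
# Smoothness of the fiber maps
-/

open MeasureTheory Filter Topology

namespace Pool.Agent.Work.MP_0e2194_an

/-- a smooth bijection with invertible derivative has a smooth inverse -/
lemma smooth_inverse {E : Type*} [NormedAddCommGroup E] [NormedSpace ℝ E] [CompleteSpace E]
    {Φ : E → E} (hbij : Function.Bijective Φ) (hsm : ContDiff ℝ (⊤ : ℕ∞) Φ)
    (hd : ∀ a, ∃ L : E ≃L[ℝ] E, HasFDerivAt Φ (L : E →L[ℝ] E) a) :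
    ∃ Ψ : E → E, ContDiff ℝ (⊤ : ℕ∞) Ψ ∧ ∀ x, Φ (Ψ x) = x := by
  choose L hL using hd
  have hs : ∀ a, HasStrictFDerivAt Φ (L a : E →L[ℝ] E) a := fun a =>
    (hsm.contDiffAt).hasStrictFDerivAt' (hL a) (by simp)
  have hopen : IsOpenMap Φ := isOpenMap_of_hasStrictFDerivAt_equiv hs
  let e : E ≃ₜ E := (Equiv.ofBijective Φ hbij).toHomeomorphOfContinuousOpen hsm.continuous hopen
  refine ⟨e.symm, e.contDiff_symm (f₀' := L) hL hsm, fun x => e.apply_symm_apply x⟩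

/-- triangular linear maps are invertible -/
lemma triangular_equiv (w : ℝ) (hw : w ≠ 0) (L₂ : ℝ × ℝ →L[ℝ] ℝ) (hL : L₂ (0, 1) ≠ 0) :
    ∃ L : (ℝ × ℝ) ≃L[ℝ] (ℝ × ℝ), (L : (ℝ × ℝ) →L[ℝ] (ℝ × ℝ))
      = (w • ContinuousLinearMap.fst ℝ ℝ ℝ).prod L₂ := by
  set M : (ℝ × ℝ) →L[ℝ] (ℝ × ℝ) := (w • ContinuousLinearMap.fst ℝ ℝ ℝ).prod L₂ with hM
  have hinj : Function.Injective (M : (ℝ × ℝ) →ₗ[ℝ] (ℝ × ℝ)) := by
    rw [← LinearMap.ker_eq_bot, LinearMap.ker_eq_bot']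
    rintro ⟨x, y⟩ h
    have h1 : (w * x, L₂ (x, y)) = ((0, 0) : ℝ × ℝ) := h
    rw [Prod.mk.injEq] at h1
    obtain ⟨h2, h3⟩ := h1
    have hx : x = 0 := by
      rcases mul_eq_zero.1 h2 with h | h
      · exact absurd h hw
      · exact h
    subst hx
    have h4 : ((0 : ℝ), y) = y • ((0 : ℝ), (1 : ℝ)) := by simp
    rw [h4, map_smul, smul_eq_mul] at h3
    have hy : y = 0 := by
      rcases mul_eq_zero.1 h3 with h | h
      · exact h
      · exact absurd h hL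
    rw [hy]; rfl
  refine ⟨(LinearEquiv.ofInjectiveEndo (M : (ℝ × ℝ) →ₗ[ℝ] (ℝ × ℝ)) hinj).toContinuousLinearEquiv, ?_⟩
  ext <;> rfl

namespace Skew

variable (s : Skew)

lemma β_smooth : ContDiff ℝ (⊤ : ℕ∞) s.β := by
  rw [contDiff_infty_iff_deriv]
  refine ⟨fun y => (s.β_deriv y).differentiableAt, ?_⟩
  have : deriv s.β = fun y => s.σ y - s.c := funext fun y => (s.β_deriv y).deriv
  rw [this]
  exact s.σ_smooth.sub contDiff_const

lemma B_smooth : ContDiff ℝ (⊤ : ℕ∞) (fun p : ℝ × ℝ => s.B p.1 p.2) := by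
  unfold B
  refine contDiff_snd.add (ContDiff.div ?_ ?_ fun p => (s.base.pos _).ne')
  · exact (s.K_smooth.comp contDiff_fst).mul (s.β_smooth.comp contDiff_snd)
  · exact s.base.smooth.comp contDiff_fst

/-- the diffeomorphism of the plane -/
noncomputable def Φ (p : ℝ × ℝ) : ℝ × ℝ := (s.base.A p.1, s.B p.1 p.2)

lemma Φ_smooth : ContDiff ℝ (⊤ : ℕ∞) s.Φ := (s.base.A_smooth.comp contDiff_fst).prodMk s.B_smooth

lemma Φ_bij : Function.Bijective s.Φ := by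
  constructor
  · rintro ⟨t, y⟩ ⟨t', y'⟩ h
    have h1 : (s.base.A t, s.B t y) = (s.base.A t', s.B t' y') := h
    rw [Prod.mk.injEq] at h1
    obtain ⟨h2, h3⟩ := h1
    have h4 := s.base.A_strictMono.injective h2
    subst h4
    have h5 := (s.B_strictMono t).injective h3
    rw [h5]
  · rintro ⟨x, y⟩
    refine ⟨(s.base.α x, s.γ x y), ?_⟩
    show (s.base.A (s.base.α x), s.B (s.base.α x) (s.γ x y)) = (x, y)
    rw [Base.A_α, B_γ]

lemma Φ_deriv (p : ℝ × ℝ) : ∃ L : (ℝ × ℝ) ≃L[ℝ] (ℝ × ℝ),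
    HasFDerivAt s.Φ (L : (ℝ × ℝ) →L[ℝ] (ℝ × ℝ)) p := by
  obtain ⟨t, y⟩ := p
  have hB : HasFDerivAt (fun p : ℝ × ℝ => s.B p.1 p.2)
      (fderiv ℝ (fun p : ℝ × ℝ => s.B p.1 p.2) (t, y)) (t, y) :=
    ((s.B_smooth.differentiable (by simp)) (t, y)).hasFDerivAt
  set L₂ := fderiv ℝ (fun p : ℝ × ℝ => s.B p.1 p.2) (t, y) with hL₂
  have h1 : L₂ (0, 1) = s.W t y / s.base.w t := by
    have h2 : HasDerivAt (fun r : ℝ => ((t, r) : ℝ × ℝ)) ((0 : ℝ), (1 : ℝ)) y :=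
      (hasDerivAt_const y t).prodMk (hasDerivAt_id' y)
    have h3 : HasDerivAt (s.B t) (L₂ (0, 1)) y := hB.comp_hasDerivAt y h2
    exact h3.unique (s.hasDerivAt_B t y)
  have hA : HasFDerivAt (fun p : ℝ × ℝ => s.base.A p.1)
      (s.base.w t • ContinuousLinearMap.fst ℝ ℝ ℝ) (t, y) := by
    have h2 : HasFDerivAt (fun p : ℝ × ℝ => p.1) (ContinuousLinearMap.fst ℝ ℝ ℝ) (t, y) := hasFDerivAt_fst
    exact (s.base.hasDerivAt_A t).comp_hasFDerivAt (t, y) h2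
  obtain ⟨L, hL⟩ := triangular_equiv (s.base.w t) (s.base.pos t).ne' L₂
    (by rw [h1]; exact (s.B_deriv_pos t y).ne')
  refine ⟨L, ?_⟩
  rw [hL]
  exact hA.prodMk hB

lemma γ_smooth : ContDiff ℝ (⊤ : ℕ∞) (fun p : ℝ × ℝ => s.γ p.1 p.2) := by
  obtain ⟨Ψ, hΨ, hΨ'⟩ := smooth_inverse s.Φ_bij s.Φ_smooth s.Φ_deriv
  have h1 : (fun p : ℝ × ℝ => s.γ p.1 p.2) = fun p => (Ψ p).2 := by
    funext p
    have h2 : (s.base.A (Ψ p).1, s.B (Ψ p).1 (Ψ p).2) = (p.1, p.2) := hΨ' p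
    rw [Prod.mk.injEq] at h2
    obtain ⟨h3, h4⟩ := h2
    have h5 : (Ψ p).1 = s.base.α p.1 := by
      rw [← h3, Base.α_A]
    rw [h5] at h4
    apply (s.B_strictMono (s.base.α p.1)).injective
    rw [B_γ, h4]
  rw [h1]
  exact contDiff_snd.comp hΨ

lemma γ_measurable : Measurable (fun p : ℝ × ℝ => s.γ p.1 p.2) := s.γ_smooth.continuous.measurable

lemma hasDerivAt_γ (x y : ℝ) :
    HasDerivAt (s.γ x) (s.base.w (s.base.α x) / s.W (s.base.α x) (s.γ x y)) y := by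
  have hc : ContinuousAt (s.γ x) y :=
    (s.γ_smooth.continuous.comp (continuous_const.prodMk continuous_id)).continuousAt
  have h := HasDerivAt.of_local_left_inverse hc (s.hasDerivAt_B (s.base.α x) (s.γ x y))
    (s.B_deriv_pos _ _).ne' (Eventually.of_forall fun y => s.B_γ x y)
  rwa [inv_div] at h

end Skew

end Pool.Agent.Work.MP_0e2194_an
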