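import Pool.Agent.Work.MP_0e2194_an.Assemble
import Pool.Agent.Work.MP_0e2194_an.ParamsV
import Pool.Agent.Work.MP_0e2194_an.Smooth

/-!
# Construction of the systems
-/

open MeasureTheory Filter Topology Real

namespace Pool.Agent.Work.MP_0e2194_an

lemma entropy_identity {u v : ℝ} (huv : u + v = 2) :
    (u * log (2 / u) + v * log (2 / v)) / 2 = binEntropy (u / 2) := by
  have h1 : 1 - u / 2 = v / 2 := by linarith
  unfold binEntropy
  rw [h1, inv_div, inv_div]
  ring

namespace Base

variable (b : Base)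

lemma int_log : ∫ x in (0 : ℝ)..1, log (2 / b.w (b.α x))
    = ∫ x in (0 : ℝ)..1, binEntropy (b.w (x / 2) / 2) := by
  have hc : Continuous (fun x => log (2 / b.w (b.α x))) :=
    Continuous.log (continuous_const.div (b.w_cont.comp b.α_cont) fun x => (b.pos _).ne')
      fun x => (div_pos two_pos (b.pos _)).ne'
  have hbm : BM (fun x => log (2 / b.w (b.α x))) := by
    obtain ⟨C, -, hC⟩ := periodic_bdd hc (fun x => by rw [α_add_one, w_per])
    exact ⟨hc.measurable, C, hC⟩
  rw [← b.integral_P hbm]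
  refine intervalIntegral.integral_congr fun x _ => ?_
  simp only [P, α_A]
  exact entropy_identity (b.sum _)

end Base

lemma triT_prod (φ ψ : ℝ → ℝ) : triT φ (fun _ y => ψ y) = prodMap (circ φ) (circ ψ) := rfl

/-- product of two base maps -/
noncomputable def sysProd (B₁ B₂ : Base) : TriSys
    (∫ x in (0 : ℝ)..1, binEntropy (B₂.w (x / 2) / 2))
    (∫ x in (0 : ℝ)..1, binEntropy (B₁.w (x / 2) / 2)) where
  φ := B₁.φ
  p := fun x => 2 / B₁.w (B₁.α x)
  g := fun _ y => B₂.φ y
  q := fun _ y => 2 / B₂.w (B₂.α y)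
  φ_smooth := B₁.φ_smooth
  g_smooth := B₂.φ_smooth.comp contDiff_snd
  hp := B₁.hasDerivAt_φ
  hq := fun _ y => B₂.hasDerivAt_φ y
  p_pos := fun x => div_pos two_pos (B₁.pos _)
  q_pos := fun _ y => div_pos two_pos (B₂.pos _)
  k := 2
  φ_per := B₁.φ_add_one
  g_per1 := fun _ _ => rfl
  g_per2 := fun _ y => by rw [B₂.φ_add_one]; norm_num
  erg := fun m hm => by
    rw [triT_prod, prodMap_iterate]
    exact ergodic_prod (B₁.T_measurePreserving.iterate m) (B₁.T_iterate_umix hm)
      (B₂.T_iterate_ergodic hm)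
  int_p := B₁.int_log
  int_q := by
    rw [← B₂.int_log]
    simp

lemma circ_add (θ : ℝ) : circ (fun y => y + θ) = fun z : UnitAddCircle => z + (θ : UnitAddCircle) := by
  funext z
  unfold circ
  rw [AddCircle.coe_add, coe_rep]

lemma rot_iterate (a : UnitAddCircle) (m : ℕ) :
    (fun z : UnitAddCircle => z + a)^[m] = fun z => z + m • a := by
  induction m with
  | zero => funext z; simp
  | succ m ih =>
    rw [Function.iterate_succ, ih]
    funext z
    simp only [Function.comp, succ_nsmul]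
    abel

lemma exists_irrational_rotation : ∃ θ : ℝ, ∀ m : ℕ, 1 ≤ m →
    Ergodic ((fun z : UnitAddCircle => z + (θ : UnitAddCircle))^[m]) volume := by
  refine ⟨√2, fun m hm => ?_⟩
  rw [rot_iterate, AddCircle.ergodic_add_right]
  rw [addOrderOf_eq_zero_iff']
  intro n hn h
  rw [← mul_nsmul', ← AddCircle.coe_nsmul, AddCircle.coe_eq_zero_iff] at h
  obtain ⟨k, hk⟩ := h
  simp only [zsmul_eq_mul, mul_one, nsmul_eq_mul] at hk
  have h2 : Irrational (((n * m : ℕ) : ℝ) * √2) := by
    have := irrational_sqrt_two.natCast_mul (m := n * m) (by positivity)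
    exact this
  exact h2 ⟨k, by rw [← hk]; simp⟩

/-- product of a base map and an irrational rotation -/
noncomputable def sysRot (B₁ : Base) (θ : ℝ) (hθ : ∀ m : ℕ, 1 ≤ m →
    Ergodic ((fun z : UnitAddCircle => z + (θ : UnitAddCircle))^[m]) volume) : TriSys 0
    (∫ x in (0 : ℝ)..1, binEntropy (B₁.w (x / 2) / 2)) where
  φ := B₁.φ
  p := fun x => 2 / B₁.w (B₁.α x)
  g := fun _ y => y + θ
  q := fun _ _ => 1
  φ_smooth := B₁.φ_smooth
  g_smooth := contDiff_snd.add contDiff_const
  hp := B₁.hasDerivAt_φ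
  hq := fun _ y => (hasDerivAt_id' y).add_const θ
  p_pos := fun x => div_pos two_pos (B₁.pos _)
  q_pos := fun _ _ => one_pos
  k := 1
  φ_per := B₁.φ_add_one
  g_per1 := fun _ _ => rfl
  g_per2 := fun _ y => by push_cast; ring
  erg := fun m hm => by
    rw [triT_prod B₁.φ (fun y => y + θ), prodMap_iterate, circ_add]
    exact ergodic_prod (B₁.T_measurePreserving.iterate m) (B₁.T_iterate_umix hm) (hθ m hm)
  int_p := B₁.int_log
  int_q := by simp

namespace Skew

variable (s : Skew)

lemma int_logW : ∫ x in (0 : ℝ)..1, ∫ y in (0 : ℝ)..1, log (2 / s.W (s.base.α x) (s.γ x y))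
    = ∫ x in (0 : ℝ)..1, ∫ y in (0 : ℝ)..1, binEntropy (s.W (x / 2) y / 2) := by
  have hc : Continuous (fun z : ℝ × ℝ => log (2 / s.W (s.base.α z.1) (s.γ z.1 z.2))) := by
    have h1 : Continuous (fun z : ℝ × ℝ => s.W (s.base.α z.1) (s.γ z.1 z.2)) :=
      s.W_cont.comp ((s.base.α_cont.comp continuous_fst).prodMk s.γ_smooth.continuous)
    exact Continuous.log (continuous_const.div h1 fun z => (s.W_pos _ _).ne')
      fun z => (div_pos two_pos (s.W_pos _ _)).ne'
  have hbm : BM2 (fun x y => log (2 / s.W (s.base.α x) (s.γ x y))) := by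
    obtain ⟨C, hC⟩ := periodic_bdd2 hc
      (fun x y => by
        show log (2 / s.W (s.base.α (x + 1)) (s.γ (x + 1) y)) = log (2 / s.W (s.base.α x) (s.γ x y))
        rw [s.γ_add_one_left, Base.α_add_one]
        unfold W
        rw [K_one])
      (fun x y => by
        show log (2 / s.W (s.base.α x) (s.γ x (y + 1))) = log (2 / s.W (s.base.α x) (s.γ x y))
        rw [s.γ_add_one_right]
        unfold W
        rw [s.σ_per])
    exact ⟨hc.measurable, C, fun x y => hC (x, y)⟩
  rw [← s.integral_PP hbm]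
  refine intervalIntegral.integral_congr fun x _ => ?_
  refine intervalIntegral.integral_congr fun y _ => ?_
  simp only [PP, Base.α_A, γ_B]
  exact entropy_identity (s.W_sum _ _)

end Skew

/-- the skew product system -/
noncomputable def sysSkew (s : Skew) : TriSys
    ((∫ x in (0 : ℝ)..1, ∫ y in (0 : ℝ)..1, binEntropy (s.W (x / 2) y / 2))
      - ∫ x in (0 : ℝ)..1, binEntropy (s.base.w (x / 2) / 2))
    (∫ x in (0 : ℝ)..1, binEntropy (s.base.w (x / 2) / 2)) where
  φ := s.base.φ
  p := fun x => 2 / s.base.w (s.base.α x)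
  g := s.γ
  q := fun x y => s.base.w (s.base.α x) / s.W (s.base.α x) (s.γ x y)
  φ_smooth := s.base.φ_smooth
  g_smooth := s.γ_smooth
  hp := s.base.hasDerivAt_φ
  hq := s.hasDerivAt_γ
  p_pos := fun x => div_pos two_pos (s.base.pos _)
  q_pos := fun _ _ => div_pos (s.base.pos _) (s.W_pos _ _)
  k := 1
  φ_per := s.base.φ_add_one
  g_per1 := s.γ_add_one_left
  g_per2 := fun x y => by rw [s.γ_add_one_right]; simp
  erg := fun m hm => s.f_iterate_ergodic s.γ_measurable hm
  int_p := s.base.int_log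
  int_q := by
    rw [← s.int_logW, ← s.base.int_log]
    have hc1 : Continuous (fun z : ℝ × ℝ => log (2 / s.W (s.base.α z.1) (s.γ z.1 z.2))) := by
      have h1 : Continuous (fun z : ℝ × ℝ => s.W (s.base.α z.1) (s.γ z.1 z.2)) :=
        s.W_cont.comp ((s.base.α_cont.comp continuous_fst).prodMk s.γ_smooth.continuous)
      exact Continuous.log (continuous_const.div h1 fun z => (s.W_pos _ _).ne')
        fun z => (div_pos two_pos (s.W_pos _ _)).ne'
    have hc2 : Continuous (fun x => log (2 / s.base.w (s.base.α x))) :=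
      Continuous.log (continuous_const.div (s.base.w_cont.comp s.base.α_cont) fun x => (s.base.pos _).ne')
        fun x => (div_pos two_pos (s.base.pos _)).ne'
    have e1 : ∀ x y, log (s.base.w (s.base.α x) / s.W (s.base.α x) (s.γ x y))
        = log (2 / s.W (s.base.α x) (s.γ x y)) - log (2 / s.base.w (s.base.α x)) := by
      intro x y
      rw [log_div (s.base.pos _).ne' (s.W_pos _ _).ne', log_div two_ne_zero (s.W_pos _ _).ne',
        log_div two_ne_zero (s.base.pos _).ne']
      ring
    simp_rw [e1]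
    have e2 : ∀ x, ∫ y in (0 : ℝ)..1, (log (2 / s.W (s.base.α x) (s.γ x y))
        - log (2 / s.base.w (s.base.α x)))
        = (∫ y in (0 : ℝ)..1, log (2 / s.W (s.base.α x) (s.γ x y)))
          - log (2 / s.base.w (s.base.α x)) := by
      intro x
      have h2 : Continuous (fun y => log (2 / s.W (s.base.α x) (s.γ x y))) :=
        hc1.comp (by fun_prop : Continuous fun y : ℝ => (x, y))
      rw [intervalIntegral.integral_sub (h2.intervalIntegrable _ _) (by simp)]
      simp
    simp_rw [e2]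
    rw [intervalIntegral.integral_sub _ (hc2.intervalIntegrable _ _)]
    exact (intervalIntegral.continuous_parametric_intervalIntegral_of_continuous'
      hc1 0 1).intervalIntegrable _ _

theorem exists_system {a b : ℝ} (hab : a ≤ b) (hpos : 0 < a + b) (hb : b < log 2) :
    Nonempty (TriSys a b) := by
  have hb0 : 0 < b := by linarith
  obtain ⟨B₁, hB₁⟩ := exists_base hb0 hb
  rcases lt_trichotomy a 0 with ha | ha | ha
  · obtain ⟨s, hs1, hs2⟩ := exists_skew ha hpos hb
    have h := sysSkew s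
    rw [hs1, hs2] at h
    have e : a + b - b = a := by ring
    rw [e] at h
    exact ⟨h⟩
  · subst ha
    obtain ⟨θ, hθ⟩ := exists_irrational_rotation
    have h := sysRot B₁ θ hθ
    rw [hB₁] at h
    exact ⟨h⟩
  · obtain ⟨B₂, hB₂⟩ := exists_base ha (lt_of_le_of_lt hab hb)
    have h := sysProd B₁ B₂
    rw [hB₁, hB₂] at h
    exact ⟨h⟩

theorem final {a b : ℝ} (hab : a ≤ b) (hpos : 0 < a + b) :
    ∃ (f : (Fin 2 → UnitAddCircle) → (Fin 2 → UnitAddCircle)) (F : (Fin 2 → ℝ) → (Fin 2 → ℝ)),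
      ContDiff ℝ (⊤ : ℕ∞) F ∧
      (∀ x : Fin 2 → ℝ,
        f (fun i => ((x i : ℝ) : UnitAddCircle)) = fun i => ((F x i : ℝ) : UnitAddCircle)) ∧
      MeasurePreserving f volume volume ∧
      Ergodic f volume ∧
      ∀ᵐ x ∂(volume : Measure (Fin 2 → ℝ)),
        Tendsto (fun n : ℕ => (1 / (n : ℝ)) * Real.log ‖fderiv ℝ (F^[n]) x‖) atTop (𝓝 b) ∧
        Tendsto (fun n : ℕ => (1 / (n : ℝ)) * Real.log |(fderiv ℝ (F^[n]) x).det|) atTop
          (𝓝 (a + b)) := by
  have hl2 : 0 < log 2 := log_pos one_lt_two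
  obtain ⟨m, hm⟩ := exists_nat_gt (b / log 2)
  have hb0 : 0 < b := by linarith
  have hm0 : (0 : ℝ) < m := lt_trans (by positivity) hm
  have hm1 : 1 ≤ m := by exact_mod_cast (show 0 < m by exact_mod_cast hm0)
  have hbm : b / m < log 2 := by
    rw [div_lt_iff₀ hm0]
    rw [div_lt_iff₀ hl2] at hm
    linarith
  obtain ⟨S⟩ := exists_system (a := a / m) (b := b / m) (div_le_div_of_nonneg_right hab hm0.le)
    (by rw [← add_div]; positivity) hbm
  obtain ⟨f, F, h1, h2, h3, h4, h5⟩ := TriSys.main S (div_le_div_of_nonneg_right hab hm0.le) hm1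
  refine ⟨f, F, h1, h2, h3, h4, ?_⟩
  have e1 : (m : ℝ) * (a / m) = a := by field_simp
  have e2 : (m : ℝ) * (b / m) = b := by field_simp
  rw [e1, e2] at h5
  exact h5

end Pool.Agent.Work.MP_0e2194_an
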