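import Mathlib

/-!
# Growth of products of triangular derivatives
-/

open MeasureTheory Filter Topology

namespace Pool.Agent.Work.MP_0e2194_an

lemma uniform_bound {x : ℕ → ℝ} {b : ℝ} (hx : Tendsto (fun n : ℕ => x n / n) atTop (𝓝 b))
    {ε : ℝ} (hε : 0 < ε) : ∃ K, 0 ≤ K ∧ ∀ n : ℕ, |x n - b * n| ≤ ε * n + K := by
  obtain ⟨N, hN⟩ := Metric.tendsto_atTop.1 hx ε hε
  refine ⟨∑ k ∈ Finset.range (N + 1), |x k - b * k|, Finset.sum_nonneg fun k _ => abs_nonneg _,
    fun n => ?_⟩
  rcases lt_or_ge n (N + 1) with h | h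
  · have h1 : |x n - b * n| ≤ ∑ k ∈ Finset.range (N + 1), |x k - b * k| :=
      Finset.single_le_sum (f := fun k : ℕ => |x k - b * k|) (fun k _ => abs_nonneg _)
        (Finset.mem_range.2 h)
    have h2 : 0 ≤ ε * n := by positivity
    linarith
  · have hn : (0 : ℝ) < n := by exact_mod_cast (show 0 < n by omega)
    have h1 := (hN n (by omega)).le
    rw [Real.dist_eq] at h1
    have h2 : |x n - b * n| = |x n / n - b| * n := by
      rw [← abs_of_pos hn, ← abs_mul, abs_of_pos hn]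
      congr 1
      field_simp
    have h3 : 0 ≤ ∑ k ∈ Finset.range (N + 1), |x k - b * k| :=
      Finset.sum_nonneg fun k _ => abs_nonneg _
    rw [h2]
    nlinarith

/-- growth of the off diagonal entry -/
lemma offdiag_bound {a b R : ℝ} (hab : a ≤ b) (hR : 0 ≤ R) {P V q c : ℕ → ℝ}
    (hP : ∀ n, 0 < P n) (hV : ∀ n, 0 < V n) (hq : ∀ n, 0 < q n)
    (hVq : ∀ n, V (n + 1) = q n * V n) (hc0 : c 0 = 0)
    (hc : ∀ n, |c (n + 1)| ≤ R * P n + q n * |c n|)
    (hPl : Tendsto (fun n : ℕ => Real.log (P n) / n) atTop (𝓝 b))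
    (hVl : Tendsto (fun n : ℕ => Real.log (V n) / n) atTop (𝓝 a))
    {ε : ℝ} (hε : 0 < ε) :
    ∃ K, 0 ≤ K ∧ ∀ n : ℕ, P n + |c n| + V n ≤ Real.exp ((b + 4 * ε) * n + K) := by
  obtain ⟨K1, hK1, h1⟩ := uniform_bound hPl hε
  obtain ⟨K2, hK2, h2⟩ := uniform_bound hVl hε
  have hPu : ∀ n : ℕ, P n ≤ Real.exp ((b + ε) * n + K1) := by
    intro n
    rw [← Real.log_le_iff_le_exp (hP n)]
    have := (abs_le.1 (h1 n)).2
    linarith
  have hVu : ∀ n : ℕ, V n ≤ Real.exp ((a + ε) * n + K2) := by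
    intro n
    rw [← Real.log_le_iff_le_exp (hV n)]
    have := (abs_le.1 (h2 n)).2
    linarith
  have hVl' : ∀ n : ℕ, Real.exp ((a - ε) * n - K2) ≤ V n := by
    intro n
    rw [← Real.le_log_iff_exp_le (hV n)]
    have := (abs_le.1 (h2 n)).1
    linarith
  set K3 : ℝ := K1 + K2 + |a| + ε with hK3
  have hd : ∀ n : ℕ, |c n| ≤ V n * (n * (R * Real.exp ((b - a + 2 * ε) * n + K3))) := by
    intro n
    induction n with
    | zero => simp [hc0]
    | succ n ih =>
      have e1 : q n * |c n| ≤ V (n + 1) * (n * (R * Real.exp ((b - a + 2 * ε) * n + K3))) := by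
        rw [hVq]
        calc q n * |c n| ≤ q n * (V n * (n * (R * Real.exp ((b - a + 2 * ε) * n + K3)))) :=
              mul_le_mul_of_nonneg_left ih (hq n).le
          _ = _ := by ring
      have e2 : P n ≤ V (n + 1) * Real.exp ((b - a + 2 * ε) * n + K3) := by
        calc P n ≤ Real.exp ((b + ε) * n + K1) := hPu n
          _ ≤ Real.exp (((a - ε) * ((n + 1 : ℕ) : ℝ) - K2) + ((b - a + 2 * ε) * n + K3)) := by
              apply Real.exp_le_exp.2
              rw [hK3]
              push_cast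
              have := neg_abs_le a
              nlinarith [le_abs_self a]
          _ = Real.exp ((a - ε) * ((n + 1 : ℕ) : ℝ) - K2) * Real.exp ((b - a + 2 * ε) * n + K3) :=
              Real.exp_add _ _
          _ ≤ _ := mul_le_mul_of_nonneg_right (hVl' (n + 1)) (Real.exp_pos _).le
      have e3 : Real.exp ((b - a + 2 * ε) * n + K3) ≤ Real.exp ((b - a + 2 * ε) * ((n + 1 : ℕ) : ℝ) + K3) := by
        apply Real.exp_le_exp.2
        push_cast
        nlinarith
      have hVn := (hV (n + 1)).le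
      have hn0 : (0 : ℝ) ≤ n := Nat.cast_nonneg n
      calc |c (n + 1)| ≤ R * P n + q n * |c n| := hc n
        _ ≤ R * (V (n + 1) * Real.exp ((b - a + 2 * ε) * n + K3))
            + V (n + 1) * (n * (R * Real.exp ((b - a + 2 * ε) * n + K3))) :=
            add_le_add (mul_le_mul_of_nonneg_left e2 hR) e1
        _ = V (n + 1) * ((n + 1) * (R * Real.exp ((b - a + 2 * ε) * n + K3))) := by ring
        _ ≤ V (n + 1) * (((n + 1 : ℕ) : ℝ) * (R * Real.exp ((b - a + 2 * ε) * ((n + 1 : ℕ) : ℝ) + K3))) := by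
            apply mul_le_mul_of_nonneg_left _ hVn
            push_cast
            push_cast at e3
            apply mul_le_mul_of_nonneg_left _ (by linarith)
            exact mul_le_mul_of_nonneg_left e3 hR
  set K4 : ℝ := K2 + K3 with hK4
  have hK3' : 0 ≤ K3 := by rw [hK3]; positivity
  have hC : 0 < 2 + R / ε := by positivity
  refine ⟨|Real.log (2 + R / ε)| + K1 + K4, by positivity, fun n => ?_⟩
  have hn0 : (0 : ℝ) ≤ n := Nat.cast_nonneg n
  have f1 : P n ≤ Real.exp ((b + 3 * ε) * n + (K1 + K4)) :=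
    (hPu n).trans (Real.exp_le_exp.2 (by nlinarith))
  have f2 : V n ≤ Real.exp ((b + 3 * ε) * n + (K1 + K4)) :=
    (hVu n).trans (Real.exp_le_exp.2 (by nlinarith))
  have f3 : |c n| ≤ (n * R) * Real.exp ((b + 3 * ε) * n + (K1 + K4)) := by
    calc |c n| ≤ V n * (n * (R * Real.exp ((b - a + 2 * ε) * n + K3))) := hd n
      _ ≤ Real.exp ((a + ε) * n + K2) * (n * (R * Real.exp ((b - a + 2 * ε) * n + K3))) :=
          mul_le_mul_of_nonneg_right (hVu n) (by positivity)
      _ = (n * R) * (Real.exp ((a + ε) * n + K2) * Real.exp ((b - a + 2 * ε) * n + K3)) := by ring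
      _ = (n * R) * Real.exp ((b + 3 * ε) * n + K4) := by
          rw [← Real.exp_add]; congr 2; rw [hK4]; ring
      _ ≤ _ := by
          apply mul_le_mul_of_nonneg_left _ (by positivity)
          exact Real.exp_le_exp.2 (by linarith)
  have f4 : 2 + n * R ≤ (2 + R / ε) * Real.exp (ε * n) := by
    have g1 := Real.add_one_le_exp (ε * n)
    have g2 : (n : ℝ) * R = R / ε * (ε * n) := by field_simp
    have g3 : 0 ≤ R / ε := by positivity
    have g4 : 0 ≤ ε * n := by positivity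
    rw [g2]
    nlinarith
  calc P n + |c n| + V n
      ≤ (2 + n * R) * Real.exp ((b + 3 * ε) * n + (K1 + K4)) := by linarith
    _ ≤ ((2 + R / ε) * Real.exp (ε * n)) * Real.exp ((b + 3 * ε) * n + (K1 + K4)) :=
        mul_le_mul_of_nonneg_right f4 (Real.exp_pos _).le
    _ ≤ (Real.exp |Real.log (2 + R / ε)| * Real.exp (ε * n)) * Real.exp ((b + 3 * ε) * n + (K1 + K4)) := by
        apply mul_le_mul_of_nonneg_right _ (Real.exp_pos _).le
        apply mul_le_mul_of_nonneg_right _ (Real.exp_pos _).le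
        calc 2 + R / ε = Real.exp (Real.log (2 + R / ε)) := (Real.exp_log hC).symm
          _ ≤ _ := Real.exp_le_exp.2 (le_abs_self _)
    _ = _ := by
        rw [← Real.exp_add, ← Real.exp_add]
        congr 1; ring

/-- exponential growth rate of a squeezed sequence -/
lemma tendsto_of_squeeze {a b R : ℝ} (hab : a ≤ b) (hR : 0 ≤ R) {P V q c S : ℕ → ℝ}
    (hP : ∀ n, 0 < P n) (hV : ∀ n, 0 < V n) (hq : ∀ n, 0 < q n)
    (hVq : ∀ n, V (n + 1) = q n * V n) (hc0 : c 0 = 0)
    (hc : ∀ n, |c (n + 1)| ≤ R * P n + q n * |c n|)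
    (hPl : Tendsto (fun n : ℕ => Real.log (P n) / n) atTop (𝓝 b))
    (hVl : Tendsto (fun n : ℕ => Real.log (V n) / n) atTop (𝓝 a))
    (hS1 : ∀ n, P n ≤ S n) (hS2 : ∀ n, S n ≤ P n + |c n| + V n) :
    Tendsto (fun n : ℕ => 1 / (n : ℝ) * Real.log (S n)) atTop (𝓝 b) := by
  rw [tendsto_order]
  constructor
  · intro b' hb'
    filter_upwards [(tendsto_order.1 hPl).1 b' hb', eventually_gt_atTop 0] with n hn hn0
    have h0 : (0 : ℝ) < n := by exact_mod_cast hn0
    have h1 : Real.log (P n) ≤ Real.log (S n) := Real.log_le_log (hP n) (hS1 n)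
    have h2 : Real.log (P n) / n ≤ Real.log (S n) / n := div_le_div_of_nonneg_right h1 h0.le
    have h3 : 1 / (n : ℝ) * Real.log (S n) = Real.log (S n) / n := by ring
    rw [h3]
    linarith
  · intro b' hb'
    set ε : ℝ := (b' - b) / 8 with hε
    have hε0 : 0 < ε := by rw [hε]; linarith
    obtain ⟨K, hK, hKn⟩ := offdiag_bound hab hR hP hV hq hVq hc0 hc hPl hVl hε0
    obtain ⟨N, hN⟩ := exists_nat_gt (K / (4 * ε))
    filter_upwards [eventually_gt_atTop N, eventually_gt_atTop 0] with n hn hn0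
    have h0 : (0 : ℝ) < n := by exact_mod_cast hn0
    have hSn : 0 < S n := (hP n).trans_le (hS1 n)
    have h1 : Real.log (S n) ≤ (b + 4 * ε) * n + K := by
      rw [Real.log_le_iff_le_exp hSn]
      exact (hS2 n).trans (hKn n)
    have h2 : K < 4 * ε * n := by
      rw [div_lt_iff₀ (by positivity)] at hN
      have : (N : ℝ) < n := by exact_mod_cast hn
      nlinarith
    have h3 : 1 / (n : ℝ) * Real.log (S n) = Real.log (S n) / n := by ring
    rw [h3, div_lt_iff₀ h0]
    have h4 : b' = b + 8 * ε := by rw [hε]; ring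
    rw [h4]
    nlinarith

/-- determinant of a lower triangular map of the plane -/
lemma det_tri {D : (Fin 2 → ℝ) →L[ℝ] (Fin 2 → ℝ)} {P c V : ℝ}
    (h0 : ∀ v, D v 0 = P * v 0) (h1 : ∀ v, D v 1 = c * v 0 + V * v 1) : D.det = P * V := by
  have h : D.det = LinearMap.det (D : (Fin 2 → ℝ) →ₗ[ℝ] (Fin 2 → ℝ)) := rfl
  rw [h, ← LinearMap.det_toMatrix', Matrix.det_fin_two]
  simp only [LinearMap.toMatrix'_apply]
  simp [h0, h1]

/-- norm of a lower triangular map -/
lemma norm_tri {D : (Fin 2 → ℝ) →L[ℝ] (Fin 2 → ℝ)} {P c V : ℝ} (hP : 0 < P) (hV : 0 < V)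
    (h0 : ∀ v, D v 0 = P * v 0) (h1 : ∀ v, D v 1 = c * v 0 + V * v 1) :
    P ≤ ‖D‖ ∧ ‖D‖ ≤ P + |c| + V := by
  constructor
  · have h2 := D.le_opNorm (fun _ => 1)
    have h3 : ‖(fun _ : Fin 2 => (1 : ℝ))‖ = 1 := by simp
    rw [h3, mul_one] at h2
    have h4 := norm_le_pi_norm (D fun _ => 1) 0
    rw [h0, mul_one, Real.norm_eq_abs, abs_of_pos hP] at h4
    exact h4.trans h2
  · refine D.opNorm_le_bound (by positivity) fun v => ?_
    rw [pi_norm_le_iff_of_nonneg (by positivity)]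
    have hv0 : |v 0| ≤ ‖v‖ := norm_le_pi_norm v 0
    have hv1 : |v 1| ≤ ‖v‖ := norm_le_pi_norm v 1
    have hn := norm_nonneg v
    have hc := abs_nonneg c
    intro i
    fin_cases i
    · show ‖D v 0‖ ≤ _
      rw [h0, Real.norm_eq_abs, abs_mul, abs_of_pos hP]
      nlinarith
    · show ‖D v 1‖ ≤ _
      rw [h1, Real.norm_eq_abs]
      refine (abs_add_le _ _).trans ?_
      rw [abs_mul, abs_mul, abs_of_pos hV]
      nlinarith [mul_le_mul_of_nonneg_left hv0 hc, mul_le_mul_of_nonneg_left hv1 hV.le]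

/-- off-diagonal entry of the product -/
noncomputable def offd (F : (Fin 2 → ℝ) → (Fin 2 → ℝ)) (p r q : (Fin 2 → ℝ) → ℝ) (z : Fin 2 → ℝ) :
    ℕ → ℝ
  | 0 => 0
  | n + 1 => r (F^[n] z) * (∏ k ∈ Finset.range n, p (F^[k] z)) + q (F^[n] z) * offd F p r q z n

/-- **Growth of triangular derivative cocycles.** -/
theorem growth {F : (Fin 2 → ℝ) → (Fin 2 → ℝ)} (hF : Differentiable ℝ F)
    {p r q : (Fin 2 → ℝ) → ℝ} (hp : ∀ z, 0 < p z) (hq : ∀ z, 0 < q z) {R : ℝ} (hR : ∀ z, |r z| ≤ R)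
    (h0 : ∀ z v, fderiv ℝ F z v 0 = p z * v 0)
    (h1 : ∀ z v, fderiv ℝ F z v 1 = r z * v 0 + q z * v 1) {a b : ℝ} (hab : a ≤ b)
    {z : Fin 2 → ℝ}
    (hb : Tendsto (fun n : ℕ => birkhoffSum F (fun z => Real.log (p z)) n z / n) atTop (𝓝 b))
    (ha : Tendsto (fun n : ℕ => birkhoffSum F (fun z => Real.log (q z)) n z / n) atTop (𝓝 a)) :
    Tendsto (fun n : ℕ => 1 / (n : ℝ) * Real.log ‖fderiv ℝ (F^[n]) z‖) atTop (𝓝 b) ∧
    Tendsto (fun n : ℕ => 1 / (n : ℝ) * Real.log |(fderiv ℝ (F^[n]) z).det|) atTop (𝓝 (a + b)) := by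
  set P : ℕ → ℝ := fun n => ∏ k ∈ Finset.range n, p (F^[k] z) with hPdef
  set V : ℕ → ℝ := fun n => ∏ k ∈ Finset.range n, q (F^[k] z) with hVdef
  set c : ℕ → ℝ := offd F p r q z with hcdef
  have hPpos : ∀ n, 0 < P n := fun n => Finset.prod_pos fun k _ => hp _
  have hVpos : ∀ n, 0 < V n := fun n => Finset.prod_pos fun k _ => hq _
  have hPlog : ∀ n, Real.log (P n) = birkhoffSum F (fun z => Real.log (p z)) n z := by
    intro n
    simp only [hPdef, birkhoffSum]
    exact Real.log_prod fun k _ => (hp _).ne'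
  have hVlog : ∀ n, Real.log (V n) = birkhoffSum F (fun z => Real.log (q z)) n z := by
    intro n
    simp only [hVdef, birkhoffSum]
    exact Real.log_prod fun k _ => (hq _).ne'
  have hD : ∀ n, (∀ v, fderiv ℝ (F^[n]) z v 0 = P n * v 0) ∧
      ∀ v, fderiv ℝ (F^[n]) z v 1 = c n * v 0 + V n * v 1 := by
    intro n
    induction n with
    | zero =>
      have : fderiv ℝ (F^[0]) z = ContinuousLinearMap.id ℝ _ := by
        rw [Function.iterate_zero]; exact fderiv_id
      rw [this]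
      exact ⟨fun v => by simp [hPdef], fun v => by simp [hVdef, hcdef, offd]⟩
    | succ n ih =>
      have hFn : Differentiable ℝ (F^[n]) := hF.iterate n
      have hchain : fderiv ℝ (F^[n + 1]) z = (fderiv ℝ F (F^[n] z)).comp (fderiv ℝ (F^[n]) z) := by
        rw [Function.iterate_succ']
        exact fderiv_comp z (hF _) (hFn z)
      rw [hchain]
      refine ⟨fun v => ?_, fun v => ?_⟩
      · rw [ContinuousLinearMap.comp_apply, h0, ih.1]
        simp only [hPdef, Finset.prod_range_succ]; ring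
      · rw [ContinuousLinearMap.comp_apply, h1, ih.1, ih.2]
        simp only [hVdef, hPdef, hcdef, offd, Finset.prod_range_succ]; ring
  have hR0 : 0 ≤ R := (abs_nonneg _).trans (hR z)
  refine ⟨?_, ?_⟩
  · refine tendsto_of_squeeze (P := P) (V := V) (q := fun n => q (F^[n] z)) (c := c) hab hR0
      hPpos hVpos (fun n => hq _) (fun n => by simp only [hVdef, Finset.prod_range_succ]; ring)
      rfl ?_ ?_ ?_ (fun n => (norm_tri (hPpos n) (hVpos n) (hD n).1 (hD n).2).1)
      (fun n => (norm_tri (hPpos n) (hVpos n) (hD n).1 (hD n).2).2)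
    · intro n
      have e1 : c (n + 1) = r (F^[n] z) * P n + q (F^[n] z) * c n := rfl
      rw [e1]
      refine (abs_add_le _ _).trans ?_
      rw [abs_mul, abs_mul, abs_of_pos (hPpos n), abs_of_pos (hq _)]
      exact add_le_add (mul_le_mul_of_nonneg_right (hR _) (hPpos n).le) le_rfl
    · simp_rw [hPlog]; exact hb
    · simp_rw [hVlog]; exact ha
  · have hdet : ∀ n, Real.log |(fderiv ℝ (F^[n]) z).det| = Real.log (V n) + Real.log (P n) := by
      intro n
      rw [det_tri (hD n).1 (hD n).2, abs_of_pos (mul_pos (hPpos n) (hVpos n)),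
        Real.log_mul (hPpos n).ne' (hVpos n).ne', add_comm]
    have h2 := ha.add hb
    refine h2.congr fun n => ?_
    rw [hdet, hPlog, hVlog]
    ring

end Pool.Agent.Work.MP_0e2194_an
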