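import Pool.Agent.Work.MP_0e2194_an.SkewDecay

/-!
# Ergodicity of the powers of the skew product
-/

open MeasureTheory Filter Topology

namespace Pool.Agent.Work.MP_0e2194_an

/-- triangular torus map from two lifts -/
noncomputable def triT (φ : ℝ → ℝ) (g : ℝ → ℝ → ℝ) (z : T2) : T2 :=
  pt ((φ (rep (z 0)) : ℝ) : UnitAddCircle) ((g (rep (z 0)) (rep (z 1)) : ℝ) : UnitAddCircle)

/-- compatibility of triangular lifts with integer translations -/
structure TriLift (φ : ℝ → ℝ) (g : ℝ → ℝ → ℝ) : Prop where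
  h0 : ∀ x, ∃ k : ℤ, φ (x + 1) = φ x + k
  h1 : ∀ x y, ∃ k : ℤ, g (x + 1) y = g x y + k
  h2 : ∀ x y, ∃ k : ℤ, g x (y + 1) = g x y + k

lemma triT_coe {φ : ℝ → ℝ} {g : ℝ → ℝ → ℝ} (h : TriLift φ g) (x y : ℝ) :
    triT φ g (pt (x : UnitAddCircle) (y : UnitAddCircle))
      = pt ((φ x : ℝ) : UnitAddCircle) ((g x y : ℝ) : UnitAddCircle) := by
  obtain ⟨k, hk⟩ := rep_coe x
  obtain ⟨l, hl⟩ := rep_coe y
  unfold triT
  simp only [pt_zero, pt_one, hk, hl]
  obtain ⟨a, ha⟩ := lift_int h.h0 x k
  obtain ⟨b, hb⟩ := lift_int (F := fun y => g (x + k) y) (fun y => h.h2 _ _) y l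
  obtain ⟨c, hc⟩ := lift_int (F := fun x => g x y) (fun x => h.h1 _ _) x k
  congr 1
  · rw [coe_eq_iff]; exact ⟨a, ha⟩
  · rw [coe_eq_iff]; exact ⟨b + c, by rw [hb, hc]; push_cast; ring⟩

lemma triT_measurable {φ : ℝ → ℝ} {g : ℝ → ℝ → ℝ} (hφ : Measurable φ)
    (hg : Measurable (fun p : ℝ × ℝ => g p.1 p.2)) : Measurable (triT φ g) := by
  have h0 : Measurable (fun z : T2 => rep (z 0)) := measurable_rep.comp (measurable_pi_apply 0)
  have h1 : Measurable (fun z : T2 => rep (z 1)) := measurable_rep.comp (measurable_pi_apply 1)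
  exact measurable_pt.comp ((measurable_coe.comp (hφ.comp h0)).prodMk
    (measurable_coe.comp (hg.comp (h0.prodMk h1))))

/-- pull back to a function of two real variables -/
def lift2 (v : T2 → ℝ) (x y : ℝ) : ℝ := v (pt (x : UnitAddCircle) (y : UnitAddCircle))

lemma lift2_bm {v : T2 → ℝ} (hm : Measurable v) (hb : ∃ C, ∀ z, |v z| ≤ C) : BM2 (lift2 v) := by
  obtain ⟨C, hC⟩ := hb
  refine ⟨?_, C, fun x y => hC _⟩
  exact hm.comp (measurable_pt.comp ((measurable_coe.comp measurable_fst).prodMk
    (measurable_coe.comp measurable_snd)))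

lemma lift2_add_one (v : T2 → ℝ) (x y : ℝ) : lift2 v (x + 1) y = lift2 v x y := by
  unfold lift2; rw [Base.coe_add_one]

lemma indicator_abs_le (A : Set T2) (z : T2) : |A.indicator (fun _ => (1 : ℝ)) z| ≤ 1 := by
  by_cases hz : z ∈ A
  · simp [hz]
  · simp [hz]

lemma real_T2 {A : Set T2} (hA : MeasurableSet A) :
    volume.real A = ∫ x in (0 : ℝ)..1, ∫ y in (0 : ℝ)..1, lift2 (A.indicator fun _ => (1 : ℝ)) x y := by
  have h := integral_T2 (h := A.indicator fun _ => (1 : ℝ)) (measurable_const.indicator hA)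
    ⟨1, indicator_abs_le A⟩
  rw [integral_indicator hA] at h
  simpa [lift2] using h

instance : IsProbabilityMeasure (volume : Measure UnitAddCircle) := ⟨by simp⟩

instance : IsProbabilityMeasure (volume : Measure T2) := by
  rw [volume_pi]; infer_instance

namespace Skew

variable (s : Skew)

lemma γ_lift : TriLift s.base.φ s.γ where
  h0 := s.base.φ_lift
  h1 x y := ⟨0, by rw [γ_add_one_left]; simp⟩
  h2 x y := ⟨1, by rw [γ_add_one_right]; simp⟩

/-- the torus map -/
noncomputable def f : T2 → T2 := triT s.base.φ s.γ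

lemma f_coe (x y : ℝ) : s.f (pt (x : UnitAddCircle) (y : UnitAddCircle))
    = pt ((s.base.φ x : ℝ) : UnitAddCircle) ((s.γ x y : ℝ) : UnitAddCircle) :=
  triT_coe s.γ_lift x y

lemma PP_lift (v : T2 → ℝ) : s.PP (lift2 (fun z => v (s.f z))) = lift2 v := by
  have h := s.PP_comp (v := lift2 v) (lift2_add_one v)
  have h1 : lift2 (fun z => v (s.f z)) = fun x y => lift2 v (s.base.φ x) (s.γ x y) := by
    funext x y
    show v (s.f (pt (x : UnitAddCircle) (y : UnitAddCircle))) = _
    rw [f_coe]
    rfl
  rw [h1, h]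

lemma PPn_lift (n : ℕ) (v : T2 → ℝ) : s.PP^[n] (lift2 (fun z => v (s.f^[n] z))) = lift2 v := by
  induction n generalizing v with
  | zero => rfl
  | succ n ih =>
    rw [Function.iterate_succ_apply]
    have h1 : (fun z => v (s.f^[n + 1] z)) = fun z => (fun w => v (s.f^[n] w)) (s.f z) := by
      funext z; rw [Function.iterate_succ_apply]
    have h2 := s.PP_lift (fun w => v (s.f^[n] w))
    rw [h1, h2]
    exact ih v

lemma PPn_bm (n : ℕ) {v : ℝ → ℝ → ℝ} (hv : BM2 v) : BM2 (s.PP^[n] v) := by
  induction n with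
  | zero => exact hv
  | succ n ih => rw [Function.iterate_succ_apply']; exact s.PP_bm ih

lemma J_PPn (n : ℕ) {v : ℝ → ℝ → ℝ} (hv : BM2 v) : J (s.PP^[n] v) = s.Q^[n] (J v) := by
  induction n with
  | zero => rfl
  | succ n ih =>
    rw [Function.iterate_succ_apply', J_PP s (s.PPn_bm n hv), ih, Function.iterate_succ_apply']

lemma Qn_one (n : ℕ) (V : ℝ → ℝ → ℝ) : (fun x => s.Q^[n] V x 1) = s.base.P^[n] (fun x => V x 1) := by
  induction n with
  | zero => rfl
  | succ n ih =>
    funext x
    rw [Function.iterate_succ_apply', Q_one, ih, Function.iterate_succ_apply']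

lemma f_measurable (hγ : Measurable (fun p : ℝ × ℝ => s.γ p.1 p.2)) : Measurable s.f :=
  triT_measurable s.base.φ_cont.measurable hγ

lemma f_measurePreserving (hγ : Measurable (fun p : ℝ × ℝ => s.γ p.1 p.2)) :
    MeasurePreserving s.f volume volume := by
  refine ⟨s.f_measurable hγ, ?_⟩
  ext E hE
  rw [Measure.map_apply (s.f_measurable hγ) hE]
  refine (measureReal_eq_measureReal_iff).1 ?_
  rw [real_T2 (s.f_measurable hγ hE), real_T2 hE, ← s.PP_lift (E.indicator fun _ => (1 : ℝ))]
  rw [← s.integral_PP (lift2_bm (measurable_const.indicator (s.f_measurable hγ hE))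
    ⟨1, indicator_abs_le _⟩)]
  rfl

lemma abs_Qn (n : ℕ) (G : ℝ → ℝ → ℝ) : ∀ x, ∀ y ∈ Set.Icc (0 : ℝ) 1,
    |s.Q^[n] G x y| ≤ s.Q^[n] (fun x y => |G x y|) x y := by
  induction n with
  | zero => intro x y _; exact le_rfl
  | succ n ih =>
    intro x y hy
    rw [Function.iterate_succ_apply', Function.iterate_succ_apply']
    refine le_trans ?_ (s.Q_mono ih x y hy)
    unfold Q
    rw [abs_div, abs_two]
    refine div_le_div_of_nonneg_right ((abs_add_le _ _).trans ?_) two_pos.le
    rw [abs_mul, abs_mul, abs_of_pos (s.base.pos _), abs_of_pos (s.base.pos _)]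

/-- L2 argument: functions invariant under the transfer operator are invariant -/
lemma sq_zero {m : ℕ} {ub : ℝ → ℝ} (hu : BM ub) (hper : ∀ x, ub (x + 1) = ub x)
    (hP : s.base.P^[m] ub = ub) :
    ∫ x in (0 : ℝ)..1, (ub (s.base.φ^[m] x) - ub x) ^ 2 = 0 := by
  have hφm : Measurable (s.base.φ^[m]) := s.base.φ_cont.measurable.iterate m
  have h1 : ∫ x in (0 : ℝ)..1, ub (s.base.φ^[m] x) * ub x = ∫ x in (0 : ℝ)..1, ub x * ub x := by
    rw [← s.base.integral_iterate_P ((hu.comp hφm).mul hu) m]
    refine intervalIntegral.integral_congr fun x _ => ?_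
    have := s.base.iterate_P_mul_comp hper ub m x
    rw [hP] at this
    exact this
  have h2 : ∫ x in (0 : ℝ)..1, ub (s.base.φ^[m] x) * ub (s.base.φ^[m] x)
      = ∫ x in (0 : ℝ)..1, ub x * ub x := by
    have hc : ∀ n : ℕ, s.base.P^[n] (fun _ => (1 : ℝ)) = fun _ => 1 := by
      intro n
      induction n with
      | zero => rfl
      | succ n ih => rw [Function.iterate_succ_apply', ih]; funext x; exact s.base.P_const 1 x
    have hbm : BM (fun x => (fun x => ub x * ub x) (s.base.φ^[m] x) * (1 : ℝ)) :=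
      ((hu.mul hu).comp hφm).mul (BM.const 1)
    have h3 := s.base.integral_iterate_P hbm m
    have h4 : ∀ x, s.base.P^[m] (fun x => (fun x => ub x * ub x) (s.base.φ^[m] x) * (1 : ℝ)) x
        = ub x * ub x := by
      intro x
      have := s.base.iterate_P_mul_comp (h := fun x => ub x * ub x) (fun x => by simp only [hper])
        (fun _ => (1 : ℝ)) m x
      rw [hc] at this
      rw [this]
      ring
    have h5 : ∫ x in (0 : ℝ)..1, s.base.P^[m] (fun x => (fun x => ub x * ub x) (s.base.φ^[m] x)
        * (1 : ℝ)) x = ∫ x in (0 : ℝ)..1, ub x * ub x :=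
      intervalIntegral.integral_congr fun x _ => h4 x
    rw [h5] at h3
    simpa using h3.symm
  have i1 := ((hu.comp hφm).mul (hu.comp hφm)).intervalIntegrable 0 1
  have i2 := (((hu.comp hφm).mul hu).smul 2).intervalIntegrable 0 1
  have i3 := (hu.mul hu).intervalIntegrable 0 1
  have h5 : ∀ x, (ub (s.base.φ^[m] x) - ub x) ^ 2
      = ub (s.base.φ^[m] x) * ub (s.base.φ^[m] x) - 2 * (ub (s.base.φ^[m] x) * ub x)
        + ub x * ub x := fun x => by ring
  simp_rw [h5]
  rw [intervalIntegral.integral_add (i1.sub i2) i3, intervalIntegral.integral_sub i1 i2,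
    intervalIntegral.integral_const_mul, h1, h2]
  ring

theorem f_iterate_ergodic (hγ : Measurable (fun p : ℝ × ℝ => s.γ p.1 p.2)) {m : ℕ} (hm : 1 ≤ m) :
    Ergodic (s.f^[m]) volume := by
  refine ⟨(s.f_measurePreserving hγ).iterate m, ⟨?_⟩⟩
  intro A hA hinv
  set a : T2 → ℝ := A.indicator (fun _ => (1 : ℝ)) with ha
  have ham : Measurable a := measurable_const.indicator hA
  have hab : ∀ z, |a z| ≤ 1 := indicator_abs_le A
  have ha01 : ∀ z, a z = 0 ∨ a z = 1 := by
    intro z
    by_cases hz : z ∈ A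
    · right; simp [ha, hz]
    · left; simp [ha, hz]
  have hainv : ∀ z, a (s.f^[m] z) = a z := by
    intro z
    have h1 : z ∈ (s.f^[m]) ⁻¹' A ↔ z ∈ A := by rw [hinv]
    by_cases hz : z ∈ A
    · have hz' : s.f^[m] z ∈ A := h1.2 hz
      simp [ha, hz, hz']
    · have hz' : s.f^[m] z ∉ A := fun h => hz (h1.1 h)
      simp [ha, hz, hz']
  set u : ℝ → ℝ → ℝ := lift2 a with hu
  have hubm : BM2 u := lift2_bm ham ⟨1, hab⟩
  have hPPu : s.PP^[m] u = u := by
    have := s.PPn_lift m a
    have h1 : (fun z => a (s.f^[m] z)) = a := funext hainv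
    rwa [h1] at this
  set V : ℝ → ℝ → ℝ := J u with hV
  have hQV : s.Q^[m] V = V := by
    rw [hV, ← s.J_PPn m hubm, hPPu]
  set ub : ℝ → ℝ := fun x => V x 1 with hub
  have hPub : s.base.P^[m] ub = ub := by
    rw [hub, ← s.Qn_one m V, hQV]
  have hubBM : BM ub := J_one_bm hubm 1
  have hubper : ∀ x, ub (x + 1) = ub x := by
    intro x
    simp only [hub, hV, J, hu]
    refine intervalIntegral.integral_congr fun y _ => ?_
    exact lift2_add_one a x y
  -- the function on the circle
  set uh : UnitAddCircle → ℝ := fun z => ∫ w : UnitAddCircle, a (pt z w) with huh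
  have huh_coe : ∀ x : ℝ, uh (x : UnitAddCircle) = ub x := by
    intro x
    simp only [huh, hub, hV, J, hu, lift2]
    have := UnitAddCircle.intervalIntegral_preimage 0 (fun w => a (pt (x : UnitAddCircle) w))
    rw [zero_add] at this
    exact this.symm
  have huhm : Measurable uh := by
    have h1 : StronglyMeasurable (fun p : UnitAddCircle × UnitAddCircle => a (pt p.1 p.2)) :=
      (ham.comp measurable_pt).stronglyMeasurable
    exact h1.integral_prod_right.measurable
  have huhb : ∀ z, |uh z| ≤ 1 := by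
    intro z
    have h1 : ‖∫ w : UnitAddCircle, a (pt z w)‖ ≤ 1 * volume.real (Set.univ : Set UnitAddCircle) :=
      norm_integral_le_of_norm_le_const (Eventually.of_forall fun w => hab _)
    rw [probReal_univ, mul_one] at h1
    exact h1
  have hsq : ∫ z : UnitAddCircle, (uh (s.base.T^[m] z) - uh z) ^ 2 = 0 := by
    rw [← UnitAddCircle.intervalIntegral_preimage 0, zero_add]
    refine Eq.trans ?_ (s.sq_zero hubBM hubper hPub)
    refine intervalIntegral.integral_congr fun x _ => ?_
    rw [s.base.T_iterate_coe, huh_coe, huh_coe]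
  have hTm : Measurable (s.base.T^[m]) := s.base.T_measurable.iterate m
  have hint : Integrable (fun z : UnitAddCircle => (uh (s.base.T^[m] z) - uh z) ^ 2) := by
    refine Integrable.of_bound (((huhm.comp hTm).sub huhm).pow_const 2).aestronglyMeasurable 4
      (Eventually.of_forall fun z => ?_)
    rw [Real.norm_eq_abs, abs_pow]
    have h1 : |uh (s.base.T^[m] z) - uh z| ≤ 2 := (abs_sub _ _).trans (by linarith [huhb (s.base.T^[m] z), huhb z])
    calc |uh (s.base.T^[m] z) - uh z| ^ 2 ≤ 2 ^ 2 := pow_le_pow_left₀ (abs_nonneg _) h1 2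
      _ = 4 := by norm_num
  have hae : (fun z => uh (s.base.T^[m] z)) =ᵐ[volume] uh := by
    have h1 := (integral_eq_zero_iff_of_nonneg (fun z => sq_nonneg _) hint).1 hsq
    filter_upwards [h1] with z hz
    have : uh (s.base.T^[m] z) - uh z = 0 := by
      have h2 : (uh (s.base.T^[m] z) - uh z) ^ 2 = 0 := hz
      exact pow_eq_zero_iff (two_ne_zero) |>.1 h2
    linarith
  obtain ⟨c, hc⟩ := (s.base.T_iterate_ergodic hm).ae_eq_const_of_ae_eq_comp_ae
    huhm.aestronglyMeasurable hae
  have hcint : ∫ x in (0 : ℝ)..1, |ub x - c| = 0 := by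
    have h1 : ∫ z : UnitAddCircle, |uh z - c| = 0 := by
      rw [integral_eq_zero_of_ae]
      filter_upwards [hc] with z hz
      rw [hz]; simp
    rw [← UnitAddCircle.intervalIntegral_preimage 0, zero_add] at h1
    simp_rw [huh_coe] at h1
    exact h1
  have hubcBM : BM (fun x => |ub x - c|) := (hubBM.sub (BM.const c)).abs
  -- the defect function
  set G : ℝ → ℝ → ℝ := fun x y => V x y - c * y with hG
  have hQG : ∀ N : ℕ, s.Q^[m * N] G = G := by
    intro N
    have h1 : s.Q^[m * N] V = V := by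
      rw [Function.iterate_mul]
      exact Function.iterate_fixed hQV N
    rw [hG, s.Qn_sub (m * N) V (fun _ y => c * y), h1, s.Qn_lin]
  have hui : ∀ x p q, IntervalIntegrable (u x) volume p q :=
    fun x p q => (hubm.section x).intervalIntegrable p q
  have huc : ∀ x t, |u x t - c| ≤ 1 + |c| := by
    intro x t
    have h1 : |u x t| ≤ 1 := hab _
    exact (abs_sub _ _).trans (by linarith)
  have hGbd : ∀ x, ∀ y ∈ Set.Icc (0 : ℝ) 1,
      |G x y| ≤ 0 + (2 * (1 + |c|)) * D x y + |ub x - c| := by
    intro x y hy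
    have hC : 0 < 1 + |c| := by positivity
    have h1 : G x y = ∫ t in (0 : ℝ)..y, (u x t - c) := by
      rw [intervalIntegral.integral_sub (hui x 0 y) (by simp)]
      simp [hG, hV, J, mul_comm]
    have h2 : G x y = (ub x - c) - ∫ t in y..1, (u x t - c) := by
      have h3 : (∫ t in (0 : ℝ)..y, (u x t - c)) + ∫ t in y..1, (u x t - c)
          = ∫ t in (0 : ℝ)..1, (u x t - c) :=
        intervalIntegral.integral_add_adjacent_intervals ((hui x 0 y).sub (by simp))
          ((hui x y 1).sub (by simp))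
      have h4 : ∫ t in (0 : ℝ)..1, (u x t - c) = ub x - c := by
        rw [intervalIntegral.integral_sub (hui x 0 1) (by simp)]
        simp [hub, hV, J]
      rw [h1]
      linarith
    have b1 : |G x y| ≤ (1 + |c|) * y := by
      rw [h1]
      have := intervalIntegral.norm_integral_le_of_norm_le_const (a := 0) (b := y)
        (f := fun t => u x t - c) (C := 1 + |c|) (fun t _ => huc x t)
      rw [sub_zero, abs_of_nonneg hy.1] at this
      exact this
    have b2 : |G x y| ≤ |ub x - c| + (1 + |c|) * (1 - y) := by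
      rw [h2]
      have := intervalIntegral.norm_integral_le_of_norm_le_const (a := y) (b := 1)
        (f := fun t => u x t - c) (C := 1 + |c|) (fun t _ => huc x t)
      rw [abs_of_nonneg (by linarith [hy.2] : (0 : ℝ) ≤ 1 - y)] at this
      exact (abs_sub _ _).trans (add_le_add le_rfl this)
    have b3 := abs_nonneg (ub x - c)
    unfold D
    rcases le_total y (1 / 2) with h | h
    · have : y ≤ 2 * (y * (1 - y)) := by nlinarith [hy.1]
      nlinarith
    · have : 1 - y ≤ 2 * (y * (1 - y)) := by nlinarith [hy.2]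
      nlinarith
  have hGm : ∀ y, BM (fun x => |G x y|) := fun y => ((J_one_bm hubm y).sub (BM.const (c * y))).abs
  have hGzero : ∀ y ∈ Set.Icc (0 : ℝ) 1, ∫ x in (0 : ℝ)..1, |G x y| = 0 := by
    intro y hy
    have hle : ∀ N : ℕ, ∫ x in (0 : ℝ)..1, |G x y|
        ≤ (2 * (1 + |c|)) * ∫ x in (0 : ℝ)..1, s.Q^[m * N] D x y := by
      intro N
      have h1 : ∀ x, |G x y| ≤ 0 + (2 * (1 + |c|)) * s.Q^[m * N] D x y
          + s.base.P^[m * N] (fun x => |ub x - c|) x := by
        intro x
        have h2 := s.abs_Qn (m * N) G x y hy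
        rw [hQG] at h2
        have h3 := s.Qn_mono (m * N) hGbd x y hy
        rw [Qn_affine] at h3
        exact h2.trans h3
      have h2 : ∫ x in (0 : ℝ)..1, |G x y| ≤ ∫ x in (0 : ℝ)..1, (0 + (2 * (1 + |c|)) * s.Q^[m * N] D x y
          + s.base.P^[m * N] (fun x => |ub x - c|) x) := by
        refine intervalIntegral.integral_mono_on zero_le_one ((hGm y).intervalIntegrable _ _) ?_
          fun x _ => h1 x
        refine IntervalIntegrable.add (IntervalIntegrable.add (by simp) ?_) ?_
        · exact ((s.Qn_cont' _ D_cont y).intervalIntegrable _ _).const_mul _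
        · exact (s.base.iterate_P_bm hubcBM _).intervalIntegrable _ _
      rw [intervalIntegral.integral_add, intervalIntegral.integral_add,
        intervalIntegral.integral_const_mul, s.base.integral_iterate_P hubcBM, hcint] at h2
      · simpa using h2
      · simp
      · exact ((s.Qn_cont' _ D_cont y).intervalIntegrable _ _).const_mul _
      · exact IntervalIntegrable.add (by simp)
          (((s.Qn_cont' _ D_cont y).intervalIntegrable _ _).const_mul _)
      · exact (s.base.iterate_P_bm hubcBM _).intervalIntegrable _ _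
    have hlim : Tendsto (fun N : ℕ => (2 * (1 + |c|)) * ∫ x in (0 : ℝ)..1, s.Q^[m * N] D x y)
        atTop (𝓝 0) := by
      have h1 : Tendsto (fun N : ℕ => m * N) atTop atTop :=
        tendsto_id.const_mul_atTop' (by omega)
      have h2 := ((s.decay hy).comp h1).const_mul (2 * (1 + |c|))
      simpa using h2
    have h3 : ∫ x in (0 : ℝ)..1, |G x y| ≤ 0 := ge_of_tendsto' hlim hle
    exact le_antisymm h3 (intervalIntegral.integral_nonneg zero_le_one fun x _ => abs_nonneg _)
  -- conclude
  have hGae : ∀ᵐ x ∂(volume.restrict (Set.Ioc (0 : ℝ) 1)), ∀ q : ℚ, (q : ℝ) ∈ Set.Icc (0 : ℝ) 1 →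
      G x q = 0 := by
    rw [ae_all_iff]
    intro q
    by_cases hq : (q : ℝ) ∈ Set.Icc (0 : ℝ) 1
    · have h1 := hGzero q hq
      rw [intervalIntegral.integral_of_le zero_le_one] at h1
      have h2 := (integral_eq_zero_iff_of_nonneg (fun x => abs_nonneg _)
        (((hGm q).intervalIntegrable 0 1).1)).1 h1
      filter_upwards [h2] with x hx _
      exact abs_eq_zero.1 hx
    · exact Eventually.of_forall fun x h => absurd h hq
  have hux : ∀ᵐ x ∂(volume.restrict (Set.Ioc (0 : ℝ) 1)),
      (∀ᵐ y : ℝ, y ∈ Set.Ioo (0 : ℝ) 1 → u x y = c) ∧ V x 1 = c := by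
    filter_upwards [hGae] with x hx
    have hGc : Continuous (G x) := by
      have h1 : Continuous (fun y => ∫ t in (0 : ℝ)..y, u x t) :=
        intervalIntegral.continuous_primitive (fun p q => hui x p q) 0
      exact h1.sub (continuous_const.mul continuous_id)
    have hG0 : ∀ y ∈ Set.Icc (0 : ℝ) 1, G x y = 0 := by
      have hcl : IsClosed {y | G x y = 0} := isClosed_eq hGc continuous_const
      have hsub : Set.Icc (0 : ℝ) 1 ⊆ closure (Set.Ioo (0 : ℝ) 1 ∩ Set.range ((↑) : ℚ → ℝ)) := by
        have h1 := (Rat.denseRange_cast (𝕜 := ℝ)).open_subset_closure_inter (isOpen_Ioo (a := (0 : ℝ)) (b := 1))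
        rw [← closure_Ioo (zero_ne_one)]
        exact closure_minimal h1 isClosed_closure
      intro y hy
      have h2 := hsub hy
      have h3 : closure (Set.Ioo (0 : ℝ) 1 ∩ Set.range ((↑) : ℚ → ℝ)) ⊆ {y | G x y = 0} := by
        refine closure_minimal ?_ hcl
        rintro _ ⟨h4, ⟨q, rfl⟩⟩
        exact hx q ⟨h4.1.le, h4.2.le⟩
      exact h3 h2
    refine ⟨?_, ?_⟩
    · have hli : LocallyIntegrable (u x) volume := by
        have : LocallyIntegrable (fun _ : ℝ => (1 : ℝ)) volume := locallyIntegrable_const 1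
        refine this.mono (hubm.section x).meas.aestronglyMeasurable
          (Eventually.of_forall fun y => ?_)
        have h1 : |u x y| ≤ 1 := hab _
        simpa using h1
      filter_upwards [LocallyIntegrable.ae_hasDerivAt_integral hli] with y hy hy01
      have h1 := hy 0
      have h2 : HasDerivAt (fun y => ∫ t in (0 : ℝ)..y, u x t) c y := by
        have h3 : (fun y => ∫ t in (0 : ℝ)..y, u x t) =ᶠ[𝓝 y] fun y => c * y := by
          filter_upwards [Ioo_mem_nhds hy01.1 hy01.2] with z hz
          have h4 := hG0 z ⟨hz.1.le, hz.2.le⟩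
          simp only [hG, hV, J] at h4
          linarith
        have h5 : HasDerivAt (fun y => c * y) (c * 1) y := (hasDerivAt_id' y).const_mul c
        rw [mul_one] at h5
        exact h5.congr_of_eventuallyEq h3
      exact h1.unique h2
    · have := hG0 1 ⟨zero_le_one, le_rfl⟩
      simp only [hG] at this
      linarith
  have hvol : volume.real A = c := by
    rw [real_T2 hA]
    have h1 : ∫ x in (0 : ℝ)..1, ∫ y in (0 : ℝ)..1, lift2 (A.indicator fun _ => (1 : ℝ)) x y
        = ∫ x in (0 : ℝ)..1, c := by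
      rw [intervalIntegral.integral_of_le zero_le_one, intervalIntegral.integral_of_le zero_le_one]
      refine integral_congr_ae ?_
      filter_upwards [hux] with x hx
      exact hx.2
    rw [h1]; simp
  have hc01 : c = 0 ∨ c = 1 := by
    have hne : (volume.restrict (Set.Ioc (0 : ℝ) 1)) ≠ 0 := by
      intro h0
      have : (volume.restrict (Set.Ioc (0 : ℝ) 1)) Set.univ = 0 := by rw [h0]; simp
      simp at this
    have : (ae (volume.restrict (Set.Ioc (0 : ℝ) 1))).NeBot := ae_neBot.2 hne
    obtain ⟨x, hx, -⟩ := hux.exists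
    have h2 : ∃ y ∈ Set.Ioo (0 : ℝ) 1, u x y = c := by
      by_contra hcon
      push Not at hcon
      have h3 : ∀ᵐ y : ℝ, y ∉ Set.Ioo (0 : ℝ) 1 := by
        filter_upwards [hx] with y hy hy'
        exact hcon y hy' (hy hy')
      have h4 := measure_eq_zero_iff_ae_notMem.2 h3
      simp at h4
    obtain ⟨y, -, hy⟩ := h2
    rw [← hy]
    exact ha01 _
  rw [eventuallyConst_set']
  rcases hc01 with h | h
  · left
    rw [ae_eq_empty]
    rw [h] at hvol
    exact (measureReal_eq_zero_iff).1 hvol
  · right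
    rw [ae_eq_univ]
    rw [h] at hvol
    have h1 : volume A = 1 := by
      have h2 : (volume A).toReal = 1 := hvol
      rw [ENNReal.toReal_eq_one_iff] at h2
      exact h2
    exact (prob_compl_eq_zero_iff hA).2 h1

end Skew

end Pool.Agent.Work.MP_0e2194_an
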