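import Pool.Agent.Work.MP_0e2194_an.Birkhoff
import Pool.Agent.Work.MP_0e2194_an.SkewErg
import Pool.Agent.Work.MP_0e2194_an.Growth

/-!
# From triangular systems to the final statement
-/

open MeasureTheory Filter Topology

namespace Pool.Agent.Work.MP_0e2194_an

lemma qmp_coe : Measure.QuasiMeasurePreserving (fun x : ℝ => (x : UnitAddCircle)) volume volume := by
  refine ⟨measurable_coe, ?_⟩
  refine Measure.AbsolutelyContinuous.mk fun N hN hN0 => ?_
  rw [Measure.map_apply measurable_coe hN]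
  have h1 : ∀ᵐ x : ℝ ∂(volume.restrict (⋃ n : ℤ, Set.Ioc (n : ℝ) (n + 1))),
      (x : UnitAddCircle) ∉ N := by
    rw [ae_restrict_iUnion_iff]
    intro n
    have h2 := UnitAddCircle.measurePreserving_mk (n : ℝ)
    have h3 : ∀ᵐ z : UnitAddCircle, z ∉ N := measure_eq_zero_iff_ae_notMem.1 hN0
    exact h2.quasiMeasurePreserving.ae h3
  rw [iUnion_Ioc_intCast, Measure.restrict_univ] at h1
  exact measure_eq_zero_iff_ae_notMem.2 h1

lemma ae_lift {q : T2 → Prop} (h : ∀ᵐ z, q z) :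
    ∀ᵐ x : Fin 2 → ℝ, q (pt (x 0 : UnitAddCircle) (x 1 : UnitAddCircle)) := by
  have h1 : Measure.QuasiMeasurePreserving
      (Prod.map (fun x : ℝ => (x : UnitAddCircle)) (fun x : ℝ => (x : UnitAddCircle)))
      (volume.prod volume) (volume.prod volume) := MeasureTheory.QuasiMeasurePreserving.prodMap qmp_coe qmp_coe
  have h2 := mp_pt.quasiMeasurePreserving.comp
    (h1.comp (volume_preserving_finTwoArrow ℝ).quasiMeasurePreserving)
  exact h2.ae h

/-- bounded continuous functions on the plane, periodic -/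
lemma periodic_bdd2 {f : ℝ × ℝ → ℝ} (hf : Continuous f) (h1 : ∀ x y, f (x + 1, y) = f (x, y))
    (h2 : ∀ x y, f (x, y + 1) = f (x, y)) : ∃ C, ∀ p, |f p| ≤ C := by
  obtain ⟨C, hC⟩ := (isCompact_Icc (a := ((0 : ℝ), (0 : ℝ))) (b := ((1 : ℝ), (1 : ℝ)))).exists_bound_of_continuousOn
    hf.continuousOn
  refine ⟨C, fun p => ?_⟩
  obtain ⟨x, y⟩ := p
  have e1 : f (x, y) = f (Int.fract x, Int.fract y) := by
    have e2 : f (x, y) = f (Int.fract x, y) := by
      conv_lhs => rw [← Int.fract_add_floor x]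
      exact Base.per_int (h := fun x => f (x, y)) (fun x => h1 x y) _ _
    have e3 : f (Int.fract x, y) = f (Int.fract x, Int.fract y) := by
      conv_lhs => rw [← Int.fract_add_floor y]
      exact Base.per_int (h := fun y => f (Int.fract x, y)) (fun y => h2 _ y) _ _
    rw [e2, e3]
  rw [e1]
  exact hC _ ⟨⟨Int.fract_nonneg x, Int.fract_nonneg y⟩, ⟨(Int.fract_lt_one x).le, (Int.fract_lt_one y).le⟩⟩

/-- a triangular smooth system on the torus with prescribed exponents -/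
structure TriSys (a b : ℝ) where
  /-- base lift -/
  φ : ℝ → ℝ
  /-- base derivative -/
  p : ℝ → ℝ
  /-- fiber lift -/
  g : ℝ → ℝ → ℝ
  /-- fiber derivative -/
  q : ℝ → ℝ → ℝ
  φ_smooth : ContDiff ℝ (⊤ : ℕ∞) φ
  g_smooth : ContDiff ℝ (⊤ : ℕ∞) (fun z : ℝ × ℝ => g z.1 z.2)
  hp : ∀ x, HasDerivAt φ (p x) x
  hq : ∀ x y, HasDerivAt (g x) (q x y) y
  p_pos : ∀ x, 0 < p x
  q_pos : ∀ x y, 0 < q x y
  k : ℤ
  φ_per : ∀ x, φ (x + 1) = φ x + 2
  g_per1 : ∀ x y, g (x + 1) y = g x y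
  g_per2 : ∀ x y, g x (y + 1) = g x y + k
  erg : ∀ m : ℕ, 1 ≤ m → Ergodic ((triT φ g)^[m]) volume
  int_p : ∫ x in (0 : ℝ)..1, Real.log (p x) = b
  int_q : ∫ x in (0 : ℝ)..1, ∫ y in (0 : ℝ)..1, Real.log (q x y) = a

namespace TriSys

variable {a b : ℝ} (S : TriSys a b)

lemma triLift : TriLift S.φ S.g where
  h0 x := ⟨2, by rw [S.φ_per]; norm_num⟩
  h1 x y := ⟨0, by rw [S.g_per1]; simp⟩
  h2 x y := ⟨S.k, S.g_per2 x y⟩

/-- derivative of the fiber map, jointly -/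
noncomputable def G' (z : ℝ × ℝ) : ℝ × ℝ →L[ℝ] ℝ := fderiv ℝ (fun z : ℝ × ℝ => S.g z.1 z.2) z

lemma hasG' (z : ℝ × ℝ) : HasFDerivAt (fun z : ℝ × ℝ => S.g z.1 z.2) (S.G' z) z :=
  ((S.g_smooth.differentiable (by simp)) z).hasFDerivAt

lemma G'_cont : Continuous S.G' := S.g_smooth.continuous_fderiv (by simp)

lemma G'_per1 (x y : ℝ) : S.G' (x + 1, y) = S.G' (x, y) := by
  have h1 := fderiv_comp_add_right (𝕜 := ℝ) (f := fun z : ℝ × ℝ => S.g z.1 z.2) (x := (x, y)) (1, 0)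
  have h2 : (fun z : ℝ × ℝ => (fun z : ℝ × ℝ => S.g z.1 z.2) (z + (1, 0)))
      = fun z : ℝ × ℝ => S.g z.1 z.2 := by
    funext z
    simp [S.g_per1]
  rw [h2] at h1
  unfold G'
  rw [h1]
  simp

lemma G'_per2 (x y : ℝ) : S.G' (x, y + 1) = S.G' (x, y) := by
  have h1 := fderiv_comp_add_right (𝕜 := ℝ) (f := fun z : ℝ × ℝ => S.g z.1 z.2) (x := (x, y)) (0, 1)
  have h2 : (fun z : ℝ × ℝ => (fun z : ℝ × ℝ => S.g z.1 z.2) (z + (0, 1)))
      = fun z : ℝ × ℝ => (fun z : ℝ × ℝ => S.g z.1 z.2) z + (S.k : ℝ) := by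
    funext z
    simp [S.g_per2]
  rw [h2, fderiv_add_const] at h1
  unfold G'
  rw [h1]
  simp

lemma G'_q (x y : ℝ) : S.G' (x, y) (0, 1) = S.q x y := by
  have h2 : HasDerivAt (fun r : ℝ => ((x, r) : ℝ × ℝ)) ((0 : ℝ), (1 : ℝ)) y :=
    (hasDerivAt_const y x).prodMk (hasDerivAt_id' y)
  have h3 : HasDerivAt (S.g x) (S.G' (x, y) (0, 1)) y := (S.hasG' (x, y)).comp_hasDerivAt y h2
  exact h3.unique (S.hq x y)

/-- plane map -/
noncomputable def F : (Fin 2 → ℝ) → (Fin 2 → ℝ) := triF S.φ S.g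

lemma F_hasFDerivAt (z : Fin 2 → ℝ) : ∃ D : (Fin 2 → ℝ) →L[ℝ] (Fin 2 → ℝ), HasFDerivAt S.F D z ∧
    (∀ v, D v 0 = S.p (z 0) * v 0) ∧
    ∀ v, D v 1 = S.G' (z 0, z 1) (1, 0) * v 0 + S.q (z 0) (z 1) * v 1 := by
  have h0 : HasFDerivAt (fun z : Fin 2 → ℝ => z 0)
      (ContinuousLinearMap.proj (R := ℝ) (φ := fun _ : Fin 2 => ℝ) 0) z := hasFDerivAt_apply 0 z
  have h1 : HasFDerivAt (fun z : Fin 2 → ℝ => z 1)
      (ContinuousLinearMap.proj (R := ℝ) (φ := fun _ : Fin 2 => ℝ) 1) z := hasFDerivAt_apply 1 z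
  have e0 := (S.hp (z 0)).comp_hasFDerivAt z h0
  have e1 := (S.hasG' (z 0, z 1)).comp z (h0.prodMk h1)
  refine ⟨ContinuousLinearMap.pi ![S.p (z 0) • ContinuousLinearMap.proj (R := ℝ) (φ := fun _ : Fin 2 => ℝ) 0,
    (S.G' (z 0, z 1)).comp ((ContinuousLinearMap.proj (R := ℝ) (φ := fun _ : Fin 2 => ℝ) 0).prod
      (ContinuousLinearMap.proj (R := ℝ) (φ := fun _ : Fin 2 => ℝ) 1))], ?_, ?_, ?_⟩
  · rw [hasFDerivAt_pi']
    intro i
    fin_cases i
    · exact e0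
    · exact e1
  · intro v; rfl
  · intro v
    have h2 : (v 0, v 1) = v 0 • ((1 : ℝ), (0 : ℝ)) + v 1 • ((0 : ℝ), (1 : ℝ)) := by simp
    show S.G' (z 0, z 1) (v 0, v 1) = _
    rw [h2, map_add, map_smul, map_smul, G'_q, smul_eq_mul, smul_eq_mul]
    ring

lemma F_smooth : ContDiff ℝ (⊤ : ℕ∞) S.F := by
  rw [contDiff_pi]
  intro i
  have h0 : ContDiff ℝ (⊤ : ℕ∞) (fun z : Fin 2 → ℝ => z 0) := contDiff_apply ℝ ℝ 0
  have h1 : ContDiff ℝ (⊤ : ℕ∞) (fun z : Fin 2 → ℝ => z 1) := contDiff_apply ℝ ℝ 1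
  fin_cases i
  · exact S.φ_smooth.comp h0
  · exact S.g_smooth.comp (h0.prodMk h1)

lemma F_iterate_smooth (m : ℕ) : ContDiff ℝ (⊤ : ℕ∞) (S.F^[m]) := by
  induction m with
  | zero => exact contDiff_id
  | succ m ih => rw [Function.iterate_succ]; exact ih.comp S.F_smooth

lemma p_cont : Continuous S.p := by
  have h1 : S.p = deriv S.φ := funext fun x => (S.hp x).deriv.symm
  rw [h1]
  exact S.φ_smooth.continuous_deriv (by simp)

lemma q_cont : Continuous (fun z : ℝ × ℝ => S.q z.1 z.2) := by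
  have h1 : (fun z : ℝ × ℝ => S.q z.1 z.2) = fun z => S.G' z (0, 1) :=
    funext fun z => (S.G'_q z.1 z.2).symm
  rw [h1]
  exact S.G'_cont.clm_apply continuous_const

lemma p_per (x : ℝ) : S.p (x + 1) = S.p x := by
  have h1 : HasDerivAt (fun x => S.φ (x + 1)) (S.p (x + 1)) x :=
    HasDerivAt.comp_add_const x 1 (S.hp (x + 1))
  have h2 : (fun x => S.φ (x + 1)) = fun x => S.φ x + 2 := funext S.φ_per
  rw [h2] at h1
  exact h1.unique ((S.hp x).add_const 2)

lemma q_per1 (x y : ℝ) : S.q (x + 1) y = S.q x y := by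
  rw [← G'_q, ← G'_q, G'_per1]

lemma q_per2 (x y : ℝ) : S.q x (y + 1) = S.q x y := by
  rw [← G'_q, ← G'_q, G'_per2]

/-- torus observable for the base -/
noncomputable def op (z : T2) : ℝ := Real.log (S.p (rep (z 0)))

/-- torus observable for the fiber -/
noncomputable def oq (z : T2) : ℝ := Real.log (S.q (rep (z 0)) (rep (z 1)))

lemma op_pt (x y : ℝ) : S.op (pt (x : UnitAddCircle) (y : UnitAddCircle)) = Real.log (S.p x) := by
  obtain ⟨k, hk⟩ := rep_coe x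
  unfold op
  rw [pt_zero, hk, Base.per_int S.p_per]

lemma oq_pt (x y : ℝ) : S.oq (pt (x : UnitAddCircle) (y : UnitAddCircle)) = Real.log (S.q x y) := by
  obtain ⟨k, hk⟩ := rep_coe x
  obtain ⟨l, hl⟩ := rep_coe y
  unfold oq
  rw [pt_zero, pt_one, hk, hl, Base.per_int (h := fun x => S.q x (y + l)) (fun x => S.q_per1 x _),
    Base.per_int (h := fun y => S.q x y) (fun y => S.q_per2 x y)]

lemma logq_cont : Continuous (fun z : ℝ × ℝ => Real.log (S.q z.1 z.2)) :=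
  S.q_cont.log fun z => (S.q_pos _ _).ne'

lemma logp_cont : Continuous (fun x : ℝ => Real.log (S.p x)) := S.p_cont.log fun x => (S.p_pos x).ne'

lemma op_meas : Measurable S.op :=
  S.logp_cont.measurable.comp (measurable_rep.comp (measurable_pi_apply 0))

lemma oq_meas : Measurable S.oq := by
  have h0 : Measurable (fun z : T2 => rep (z 0)) := measurable_rep.comp (measurable_pi_apply 0)
  have h1 : Measurable (fun z : T2 => rep (z 1)) := measurable_rep.comp (measurable_pi_apply 1)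
  have h2 : Measurable (fun z : T2 => ((rep (z 0), rep (z 1)) : ℝ × ℝ)) := h0.prodMk h1
  exact S.logq_cont.measurable.comp h2

lemma op_bdd : ∃ C, ∀ z, |S.op z| ≤ C := by
  obtain ⟨C, -, hC⟩ := periodic_bdd S.logp_cont (fun x => by rw [S.p_per])
  exact ⟨C, fun _ => hC _⟩

lemma oq_bdd : ∃ C, ∀ z, |S.oq z| ≤ C := by
  obtain ⟨C, hC⟩ := periodic_bdd2 S.logq_cont (fun x y => by simp only [S.q_per1])
    (fun x y => by simp only [S.q_per2])
  exact ⟨C, fun _ => hC (_, _)⟩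

lemma int_op : ∫ z, S.op z = b := by
  rw [integral_T2 S.op_meas S.op_bdd]
  simp_rw [op_pt]
  simp [S.int_p]

lemma int_oq : ∫ z, S.oq z = a := by
  rw [integral_T2 S.oq_meas S.oq_bdd]
  simp_rw [oq_pt]
  exact S.int_q

/-- torus map -/
noncomputable def f : T2 → T2 := triT S.φ S.g

/-- projection -/
def proj (x : Fin 2 → ℝ) : T2 := fun i => ((x i : ℝ) : UnitAddCircle)

lemma proj_eq (x : Fin 2 → ℝ) : proj x = pt (x 0 : UnitAddCircle) (x 1 : UnitAddCircle) :=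
  (pt_eta (proj x)).symm

lemma f_proj (x : Fin 2 → ℝ) : S.f (proj x) = proj (S.F x) := by
  rw [proj_eq, proj_eq]
  exact triT_coe S.triLift (x 0) (x 1)

lemma f_iterate_proj (n : ℕ) (x : Fin 2 → ℝ) : S.f^[n] (proj x) = proj (S.F^[n] x) := by
  induction n generalizing x with
  | zero => rfl
  | succ n ih => rw [Function.iterate_succ_apply, f_proj, ih, Function.iterate_succ_apply]

lemma ergodic_f : Ergodic S.f volume := by
  have := S.erg 1 le_rfl
  rwa [Function.iterate_one] at this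

theorem ae_growth (hab : a ≤ b) : ∀ᵐ x : Fin 2 → ℝ,
    Tendsto (fun n : ℕ => 1 / (n : ℝ) * Real.log ‖fderiv ℝ (S.F^[n]) x‖) atTop (𝓝 b) ∧
    Tendsto (fun n : ℕ => 1 / (n : ℝ) * Real.log |(fderiv ℝ (S.F^[n]) x).det|) atTop
      (𝓝 (a + b)) := by
  obtain ⟨C1, hC1⟩ := S.op_bdd
  obtain ⟨C2, hC2⟩ := S.oq_bdd
  have h1 := birkhoff S.ergodic_f S.op_meas hC1
  have h2 := birkhoff S.ergodic_f S.oq_meas hC2
  rw [S.int_op] at h1
  rw [S.int_oq] at h2
  obtain ⟨R, hR⟩ := periodic_bdd2 (f := fun z => S.G' z (1, 0)) (S.G'_cont.clm_apply continuous_const)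
    (fun x y => by simp only [S.G'_per1]) (fun x y => by simp only [S.G'_per2])
  filter_upwards [ae_lift (h1.and h2)] with x hx
  rw [← proj_eq] at hx
  obtain ⟨hx1, hx2⟩ := hx
  have hd : Differentiable ℝ S.F := S.F_smooth.differentiable (by simp)
  have hfd : ∀ z, (∀ v, fderiv ℝ S.F z v 0 = S.p (z 0) * v 0) ∧
      ∀ v, fderiv ℝ S.F z v 1 = S.G' (z 0, z 1) (1, 0) * v 0 + S.q (z 0) (z 1) * v 1 := by
    intro z
    obtain ⟨D, hD, hD0, hD1⟩ := S.F_hasFDerivAt z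
    rw [hD.fderiv]
    exact ⟨hD0, hD1⟩
  refine growth hd (p := fun z => S.p (z 0)) (q := fun z => S.q (z 0) (z 1))
    (r := fun z => S.G' (z 0, z 1) (1, 0)) (fun z => S.p_pos _) (fun z => S.q_pos _ _)
    (R := R) (fun z => hR _) (fun z => (hfd z).1) (fun z => (hfd z).2) hab ?_ ?_
  · refine hx1.congr fun n => ?_
    congr 1
    unfold birkhoffSum
    refine Finset.sum_congr rfl fun k _ => ?_
    rw [f_iterate_proj, proj_eq, op_pt]
  · refine hx2.congr fun n => ?_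
    congr 1
    unfold birkhoffSum
    refine Finset.sum_congr rfl fun k _ => ?_
    rw [f_iterate_proj, proj_eq, oq_pt]

/-- the final statement for powers of a system -/
theorem main {a b : ℝ} (S : TriSys a b) (hab : a ≤ b) {m : ℕ} (hm : 1 ≤ m) :
    ∃ (f : (Fin 2 → UnitAddCircle) → (Fin 2 → UnitAddCircle)) (F : (Fin 2 → ℝ) → (Fin 2 → ℝ)),
      ContDiff ℝ (⊤ : ℕ∞) F ∧
      (∀ x : Fin 2 → ℝ,
        f (fun i => ((x i : ℝ) : UnitAddCircle)) = fun i => ((F x i : ℝ) : UnitAddCircle)) ∧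
      MeasurePreserving f volume volume ∧
      Ergodic f volume ∧
      ∀ᵐ x ∂(volume : Measure (Fin 2 → ℝ)),
        Tendsto (fun n : ℕ => (1 / (n : ℝ)) * Real.log ‖fderiv ℝ (F^[n]) x‖) atTop (𝓝 (m * b)) ∧
        Tendsto (fun n : ℕ => (1 / (n : ℝ)) * Real.log |(fderiv ℝ (F^[n]) x).det|) atTop
          (𝓝 (m * a + m * b)) := by
  have hm0 : (0 : ℝ) < m := by exact_mod_cast hm
  refine ⟨S.f^[m], S.F^[m], S.F_iterate_smooth m, fun x => S.f_iterate_proj m x,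
    (S.erg m hm).toMeasurePreserving, S.erg m hm, ?_⟩
  filter_upwards [S.ae_growth hab] with x hx
  have hsub : Tendsto (fun n : ℕ => m * n) atTop atTop := tendsto_id.const_mul_atTop' (by omega)
  have key : ∀ (u : ℕ → ℝ) (l : ℝ), Tendsto (fun n : ℕ => 1 / (n : ℝ) * u n) atTop (𝓝 l) →
      Tendsto (fun n : ℕ => 1 / (n : ℝ) * u (m * n)) atTop (𝓝 (m * l)) := by
    intro u l hu
    have h1 := (hu.comp hsub).const_mul (m : ℝ)
    refine h1.congr' ?_
    filter_upwards [eventually_gt_atTop 0] with n hn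
    have hn0 : (0 : ℝ) < n := by exact_mod_cast hn
    simp only [Function.comp]
    push_cast
    field_simp
  constructor
  · have h1 := key _ _ hx.1
    refine h1.congr fun n => ?_
    rw [Function.iterate_mul]
  · have h1 := key _ _ hx.2
    rw [mul_add] at h1
    refine h1.congr fun n => ?_
    rw [Function.iterate_mul]

end TriSys

end Pool.Agent.Work.MP_0e2194_an
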