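import Mathlib

/-!
# Birkhoff's pointwise ergodic theorem for bounded functions (ergodic case)
-/

open MeasureTheory Filter Topology

set_option linter.unusedSectionVars false

namespace Pool.Agent.Work.MP_0e2194_an

variable {α : Type*} [MeasurableSpace α] {μ : Measure α} [IsProbabilityMeasure μ] {f : α → α}

/-- running maximum of the Birkhoff sums (starting with `0`) -/
noncomputable def maxSum (f : α → α) (h : α → ℝ) : ℕ → α → ℝ
  | 0 => fun _ => 0
  | n + 1 => fun x => max (maxSum f h n x) (birkhoffSum f h (n + 1) x)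

lemma maxSum_nonneg (h : α → ℝ) (n : ℕ) (x : α) : 0 ≤ maxSum f h n x := by
  induction n with
  | zero => exact le_rfl
  | succ n ih => exact ih.trans (le_max_left _ _)

lemma maxSum_mono (h : α → ℝ) (x : α) : Monotone (fun n => maxSum f h n x) :=
  monotone_nat_of_le_succ fun _ => le_max_left _ _

lemma birkhoffSum_le_maxSum (h : α → ℝ) {k n : ℕ} (hk : k ≤ n) (x : α) :
    birkhoffSum f h k x ≤ maxSum f h n x := by
  refine le_trans ?_ (maxSum_mono h x hk)
  cases k with
  | zero => simp [maxSum]
  | succ k => exact le_max_right _ _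

lemma maxSum_le (h : α → ℝ) (n : ℕ) (x : α) (hpos : 0 < maxSum f h n x) :
    maxSum f h n x ≤ h x + maxSum f h n (f x) := by
  have key : ∀ n, maxSum f h n x ≤ 0 ∨ maxSum f h n x ≤ h x + maxSum f h n (f x) := by
    intro n
    induction n with
    | zero => left; exact le_rfl
    | succ n ih =>
      have h1 : birkhoffSum f h (n + 1) x ≤ h x + maxSum f h (n + 1) (f x) := by
        rw [birkhoffSum_succ']
        have := birkhoffSum_le_maxSum (f := f) h (Nat.le_succ n) (f x)
        linarith
      have h2 : maxSum f h n (f x) ≤ maxSum f h (n + 1) (f x) := maxSum_mono h (f x) (Nat.le_succ n)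
      rcases ih with ih | ih
      · rcases le_or_gt (birkhoffSum f h (n + 1) x) 0 with h3 | h3
        · left
          exact max_le ih h3
        · right
          exact max_le (ih.trans (h3.le.trans h1)) h1
      · right
        exact max_le (ih.trans (by linarith)) h1
  rcases key n with h1 | h1
  · exact absurd hpos (not_lt.2 h1)
  · exact h1

lemma measurable_birkhoffSum (hf : Measurable f) {h : α → ℝ} (hh : Measurable h) (n : ℕ) :
    Measurable (birkhoffSum f h n) := by
  unfold birkhoffSum
  exact Finset.measurable_sum _ fun k _ => hh.comp (hf.iterate k)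

lemma measurable_maxSum (hf : Measurable f) {h : α → ℝ} (hh : Measurable h) (n : ℕ) :
    Measurable (maxSum f h n) := by
  induction n with
  | zero => exact measurable_const
  | succ n ih => exact ih.max (measurable_birkhoffSum hf hh (n + 1))

lemma abs_birkhoffSum_le {h : α → ℝ} {C : ℝ} (hC : ∀ x, |h x| ≤ C) (n : ℕ) (x : α) :
    |birkhoffSum f h n x| ≤ n * C := by
  unfold birkhoffSum
  calc |∑ k ∈ Finset.range n, h (f^[k] x)| ≤ ∑ k ∈ Finset.range n, |h (f^[k] x)| :=
        Finset.abs_sum_le_sum_abs _ _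
    _ ≤ ∑ _k ∈ Finset.range n, C := Finset.sum_le_sum fun k _ => hC _
    _ = n * C := by simp

lemma maxSum_bdd {h : α → ℝ} {C : ℝ} (hC : ∀ x, |h x| ≤ C) (n : ℕ) (x : α) :
    |maxSum f h n x| ≤ n * C := by
  have hC0 : 0 ≤ C := (abs_nonneg _).trans (hC x)
  rw [abs_of_nonneg (maxSum_nonneg h n x)]
  induction n with
  | zero => simp [maxSum]
  | succ n ih =>
    refine max_le (ih.trans ?_) ((le_abs_self _).trans (abs_birkhoffSum_le hC (n + 1) x))
    push_cast
    nlinarith

/-- maximal ergodic inequality (finite time) -/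
lemma maximal_finite (hf : MeasurePreserving f μ μ) {h : α → ℝ} (hh : Measurable h) {C : ℝ}
    (hC : ∀ x, |h x| ≤ C) (n : ℕ) : 0 ≤ ∫ x in {x | 0 < maxSum f h n x}, h x ∂μ := by
  have hmM := measurable_maxSum hf.measurable hh n
  have hF : MeasurableSet {x | 0 < maxSum f h n x} := measurableSet_lt measurable_const hmM
  have hiM : Integrable (maxSum f h n) μ :=
    Integrable.of_bound hmM.aestronglyMeasurable (n * C)
      (Eventually.of_forall fun x => by simpa using maxSum_bdd hC n x)
  have hih : Integrable h μ :=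
    Integrable.of_bound hh.aestronglyMeasurable C (Eventually.of_forall fun x => by simpa using hC x)
  have hiMf : Integrable (fun x => maxSum f h n (f x)) μ := hf.integrable_comp_of_integrable hiM
  have h1 : ∫ x in {x | 0 < maxSum f h n x}, maxSum f h n x ∂μ
      ≤ ∫ x in {x | 0 < maxSum f h n x}, (h x + maxSum f h n (f x)) ∂μ := by
    refine setIntegral_mono_on hiM.integrableOn (hih.add hiMf).integrableOn hF ?_
    intro x hx
    exact maxSum_le h n x hx
  rw [integral_add hih.integrableOn hiMf.integrableOn] at h1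
  have h2 : ∫ x in {x | 0 < maxSum f h n x}, maxSum f h n (f x) ∂μ
      ≤ ∫ x, maxSum f h n (f x) ∂μ :=
    setIntegral_le_integral hiMf (Eventually.of_forall fun x => maxSum_nonneg h n (f x))
  have h3 : ∫ x, maxSum f h n (f x) ∂μ = ∫ x, maxSum f h n x ∂μ := by
    conv_rhs => rw [← hf.map_eq]
    rw [integral_map hf.measurable.aemeasurable hmM.aestronglyMeasurable]
  have h4 : ∫ x, maxSum f h n x ∂μ = ∫ x in {x | 0 < maxSum f h n x}, maxSum f h n x ∂μ := by
    symm
    refine setIntegral_eq_integral_of_forall_compl_eq_zero fun x hx => ?_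
    have hx' : ¬ (0 < maxSum f h n x) := hx
    exact le_antisymm (not_lt.1 hx') (maxSum_nonneg h n x)
  linarith

lemma maxSum_pos_iff (h : α → ℝ) (n : ℕ) (x : α) :
    0 < maxSum f h n x ↔ ∃ k ≤ n, 0 < birkhoffSum f h k x := by
  constructor
  · induction n with
    | zero => intro hx; exact absurd hx (lt_irrefl _)
    | succ n ih =>
      intro hx
      rcases lt_max_iff.1 (show 0 < max (maxSum f h n x) (birkhoffSum f h (n + 1) x) from hx)
        with h1 | h1
      · obtain ⟨k, hk, hk'⟩ := ih h1
        exact ⟨k, hk.trans (Nat.le_succ n), hk'⟩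
      · exact ⟨n + 1, le_rfl, h1⟩
  · rintro ⟨k, hk, hk'⟩
    exact hk'.trans_le (birkhoffSum_le_maxSum h hk x)

/-- maximal ergodic inequality (infinite time) -/
lemma maximal_infinite (hf : MeasurePreserving f μ μ) {h : α → ℝ} (hh : Measurable h) {C : ℝ}
    (hC : ∀ x, |h x| ≤ C) : 0 ≤ ∫ x in {x | ∃ k, 0 < birkhoffSum f h k x}, h x ∂μ := by
  have hih : Integrable h μ :=
    Integrable.of_bound hh.aestronglyMeasurable C (Eventually.of_forall fun x => by simpa using hC x)
  have hU : {x | ∃ k, 0 < birkhoffSum f h k x} = ⋃ n, {x | 0 < maxSum f h n x} := by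
    ext x
    simp only [Set.mem_iUnion]
    constructor
    · rintro ⟨k, hk⟩
      exact ⟨k, (maxSum_pos_iff h k x).2 ⟨k, le_rfl, hk⟩⟩
    · rintro ⟨n, hn⟩
      obtain ⟨k, -, hk⟩ := (maxSum_pos_iff h n x).1 hn
      exact ⟨k, hk⟩
  rw [hU]
  refine ge_of_tendsto' (tendsto_setIntegral_of_monotone (μ := μ) (f := h)
    (s := fun n => {x | 0 < maxSum f h n x}) ?_ ?_ hih.integrableOn) (fun n => maximal_finite hf hh hC n)
  · intro n
    exact measurableSet_lt measurable_const (measurable_maxSum hf.measurable hh n)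
  · intro m n hmn x hx
    exact lt_of_lt_of_le (show 0 < maxSum f h m x from hx) (maxSum_mono h x hmn)

/-- If the mean is negative then the Birkhoff sums are almost surely bounded above. -/
lemma ae_bddAbove (hf : Ergodic f μ) {h : α → ℝ} (hh : Measurable h) {C : ℝ}
    (hC : ∀ x, |h x| ≤ C) (hneg : ∫ x, h x ∂μ < 0) :
    ∀ᵐ x ∂μ, ∃ k : ℕ, ∀ n, birkhoffSum f h n x ≤ k := by
  set E : Set α := {x | ∀ k : ℕ, ∃ n, (k : ℝ) < birkhoffSum f h n x} with hE
  have hEm : MeasurableSet E := by
    have : E = ⋂ k : ℕ, ⋃ n, {x | (k : ℝ) < birkhoffSum f h n x} := by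
      ext x; simp [hE]
    rw [this]
    exact MeasurableSet.iInter fun k => MeasurableSet.iUnion fun n =>
      measurableSet_lt measurable_const (measurable_birkhoffSum hf.measurable hh n)
  have hinv : f ⁻¹' E = E := by
    ext x
    have hstep : ∀ n, birkhoffSum f h (n + 1) x = h x + birkhoffSum f h n (f x) :=
      fun n => birkhoffSum_succ' f h n x
    constructor
    · intro hx k
      obtain ⟨k', hk'⟩ := exists_nat_ge ((k : ℝ) + |h x|)
      obtain ⟨n, hn⟩ := hx k'
      refine ⟨n + 1, ?_⟩
      rw [hstep]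
      have := neg_abs_le (h x)
      linarith
    · intro hx k
      obtain ⟨k', hk'⟩ := exists_nat_ge ((k : ℝ) + |h x|)
      obtain ⟨n, hn⟩ := hx k'
      have h0 := abs_nonneg (h x)
      have h1 := le_abs_self (h x)
      cases n with
      | zero =>
        rw [birkhoffSum_zero'] at hn
        simp only [Pi.zero_apply] at hn
        have hk0 : (0 : ℝ) ≤ k := Nat.cast_nonneg k
        linarith
      | succ n =>
        refine ⟨n, ?_⟩
        rw [hstep] at hn
        linarith
  have hnull : μ E = 0 := by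
    rcases hf.measure_self_or_compl_eq_zero hEm hinv with h0 | h0
    · exact h0
    · exfalso
      have h1 := maximal_infinite hf.toMeasurePreserving hh hC
      have h2 : ∫ x in {x | ∃ k, 0 < birkhoffSum f h k x}, h x ∂μ = ∫ x, h x ∂μ := by
        have h3 : {x | ∃ k, 0 < birkhoffSum f h k x} =ᵐ[μ] Set.univ := by
          rw [eventuallyEq_univ]
          refine mem_of_superset (compl_mem_ae_iff.2 h0) ?_
          intro x hx
          rw [compl_compl] at hx
          obtain ⟨n, hn⟩ := hx 0
          exact ⟨n, by simpa using hn⟩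
        rw [setIntegral_congr_set h3, setIntegral_univ]
      rw [h2] at h1
      linarith
  rw [ae_iff]
  refine measure_mono_null ?_ hnull
  intro x hx k
  have hx' : ¬ ∃ k : ℕ, ∀ n, birkhoffSum f h n x ≤ k := hx
  push Not at hx'
  exact hx' k

lemma ae_limsup_bound (hf : Ergodic f μ) {h : α → ℝ} (hh : Measurable h) {C : ℝ}
    (hC : ∀ x, |h x| ≤ C) {ε : ℝ} (hε : 0 < ε) :
    ∀ᵐ x ∂μ, ∀ᶠ n : ℕ in atTop, birkhoffSum f h n x / n < ∫ x, h x ∂μ + ε := by
  set I := ∫ x, h x ∂μ with hI
  have hih : Integrable h μ :=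
    Integrable.of_bound hh.aestronglyMeasurable C (Eventually.of_forall fun x => by simpa using hC x)
  have hneg : ∫ x, (h x - (I + ε / 2)) ∂μ < 0 := by
    rw [integral_sub hih (integrable_const _), integral_const]
    simp
    linarith
  have hb : ∀ x, |h x - (I + ε / 2)| ≤ C + |I + ε / 2| := by
    intro x
    exact (abs_sub _ _).trans (by linarith [hC x])
  filter_upwards [ae_bddAbove hf (hh.sub_const (I + ε / 2)) hb hneg] with x hx
  obtain ⟨k, hk⟩ := hx
  have hsum : ∀ n, birkhoffSum f (fun x => h x - (I + ε / 2)) n x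
      = birkhoffSum f h n x - n * (I + ε / 2) := by
    intro n
    simp only [birkhoffSum, Finset.sum_sub_distrib, Finset.sum_const, Finset.card_range,
      nsmul_eq_mul]
  obtain ⟨N, hN⟩ := exists_nat_gt ((k : ℝ) / (ε / 2))
  filter_upwards [eventually_gt_atTop N] with n hn
  have hn0 : (0 : ℝ) < n := by
    have : 0 < n := lt_of_le_of_lt (Nat.zero_le N) hn
    exact_mod_cast this
  have h1 := hk n
  rw [hsum] at h1
  rw [div_lt_iff₀ hn0]
  have h2 : (k : ℝ) < n * (ε / 2) := by
    rw [div_lt_iff₀ (by linarith)] at hN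
    have : (N : ℝ) < n := by exact_mod_cast hn
    nlinarith
  nlinarith

/-- **Birkhoff's theorem** (ergodic map, bounded measurable observable). -/
theorem birkhoff (hf : Ergodic f μ) {h : α → ℝ} (hh : Measurable h) {C : ℝ}
    (hC : ∀ x, |h x| ≤ C) :
    ∀ᵐ x ∂μ, Tendsto (fun n : ℕ => birkhoffSum f h n x / n) atTop (𝓝 (∫ x, h x ∂μ)) := by
  have hih : Integrable h μ :=
    Integrable.of_bound hh.aestronglyMeasurable C (Eventually.of_forall fun x => by simpa using hC x)
  have hup : ∀ᵐ x ∂μ, ∀ k : ℕ, ∀ᶠ n : ℕ in atTop,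
      birkhoffSum f h n x / n < ∫ x, h x ∂μ + 1 / ((k : ℝ) + 1) :=
    ae_all_iff.2 fun k => ae_limsup_bound hf hh hC (by positivity)
  have hlo : ∀ᵐ x ∂μ, ∀ k : ℕ, ∀ᶠ n : ℕ in atTop,
      birkhoffSum f (fun x => - h x) n x / n < ∫ x, - h x ∂μ + 1 / ((k : ℝ) + 1) :=
    ae_all_iff.2 fun k => ae_limsup_bound hf hh.neg (C := C) (fun x => by simpa using hC x)
      (by positivity)
  filter_upwards [hup, hlo] with x hx1 hx2
  rw [Metric.tendsto_atTop']
  intro ε hε
  obtain ⟨k, hk⟩ := exists_nat_one_div_lt hε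
  obtain ⟨N, hN⟩ := eventually_atTop.1 ((hx1 k).and (hx2 k))
  refine ⟨N, fun n hn => ?_⟩
  obtain ⟨h1, h2⟩ := hN n hn.le
  rw [integral_neg] at h2
  have h3 : birkhoffSum f (fun x => - h x) n x = - birkhoffSum f h n x := by
    simp [birkhoffSum]
  rw [h3, neg_div] at h2
  rw [Real.dist_eq, abs_lt]
  constructor <;> linarith

end Pool.Agent.Work.MP_0e2194_an
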