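import Mathlib

/-!
# One dimensional base maps: degree two expanding maps of the circle
-/

open MeasureTheory Filter Topology

namespace Pool.Agent.Work.MP_0e2194_an

/-- bounded measurable functions -/
structure BM (v : ℝ → ℝ) : Prop where
  meas : Measurable v
  bdd : ∃ C, ∀ x, |v x| ≤ C

lemma BM.intervalIntegrable {v : ℝ → ℝ} (hv : BM v) (a b : ℝ) : IntervalIntegrable v volume a b := by
  obtain ⟨C, hC⟩ := hv.bdd
  rw [intervalIntegrable_iff]
  exact Measure.integrableOn_of_bounded (M := C) (by simp) hv.meas.aestronglyMeasurable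
    (Eventually.of_forall fun x => by simpa using hC x)

lemma BM.add {u v : ℝ → ℝ} (hu : BM u) (hv : BM v) : BM (fun x => u x + v x) := by
  obtain ⟨C, hC⟩ := hu.bdd
  obtain ⟨D, hD⟩ := hv.bdd
  exact ⟨hu.meas.add hv.meas, C + D, fun x => (abs_add_le _ _).trans (add_le_add (hC x) (hD x))⟩

lemma BM.sub {u v : ℝ → ℝ} (hu : BM u) (hv : BM v) : BM (fun x => u x - v x) := by
  obtain ⟨C, hC⟩ := hu.bdd
  obtain ⟨D, hD⟩ := hv.bdd
  exact ⟨hu.meas.sub hv.meas, C + D, fun x => (abs_sub _ _).trans (add_le_add (hC x) (hD x))⟩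

lemma BM.mul {u v : ℝ → ℝ} (hu : BM u) (hv : BM v) : BM (fun x => u x * v x) := by
  obtain ⟨C, hC⟩ := hu.bdd
  obtain ⟨D, hD⟩ := hv.bdd
  refine ⟨hu.meas.mul hv.meas, C * D, fun x => ?_⟩
  rw [abs_mul]
  exact mul_le_mul (hC x) (hD x) (abs_nonneg _) ((abs_nonneg _).trans (hC x))

lemma BM.const (c : ℝ) : BM (fun _ => c) := ⟨measurable_const, |c|, fun _ => le_rfl⟩

lemma BM.abs {u : ℝ → ℝ} (hu : BM u) : BM (fun x => |u x|) := by
  obtain ⟨C, hC⟩ := hu.bdd
  exact ⟨hu.meas.abs, C, fun x => by simpa using hC x⟩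

lemma BM.comp {u g : ℝ → ℝ} (hu : BM u) (hg : Measurable g) : BM (fun x => u (g x)) := by
  obtain ⟨C, hC⟩ := hu.bdd
  exact ⟨hu.meas.comp hg, C, fun x => hC _⟩

lemma BM.smul {u : ℝ → ℝ} (c : ℝ) (hu : BM u) : BM (fun x => c * u x) := (BM.const c).mul hu

/-- continuous periodic functions are bounded -/
lemma periodic_bdd {f : ℝ → ℝ} (hf : Continuous f) (hp : ∀ x, f (x + 1) = f x) :
    ∃ C, 0 < C ∧ ∀ x, |f x| ≤ C := by
  have hb := (show Function.Periodic f 1 from hp).isBounded_of_continuous one_ne_zero hf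
  obtain ⟨C, hC⟩ := hb.exists_norm_le
  refine ⟨max C 1, lt_max_of_lt_right one_pos, fun x => ?_⟩
  exact (hC (f x) ⟨x, rfl⟩).trans (le_max_left _ _)

lemma periodic_lower {f : ℝ → ℝ} (hf : Continuous f) (hp : ∀ x, f (x + 1) = f x)
    (hpos : ∀ x, 0 < f x) : ∃ m, 0 < m ∧ ∀ x, m ≤ f x := by
  obtain ⟨C, hC, hC'⟩ := periodic_bdd (f := fun x => (f x)⁻¹)
    (hf.inv₀ fun x => (hpos x).ne') (fun x => by simp [hp])
  refine ⟨C⁻¹, inv_pos.2 hC, fun x => ?_⟩
  have h1 := hC' x
  rw [abs_of_pos (inv_pos.2 (hpos x))] at h1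
  exact inv_le_of_inv_le₀ (hpos x) h1

/-- lifts of degree one maps are surjective -/
lemma surjective_of_deg_one {G : ℝ → ℝ} (hc : Continuous G) (hG : ∀ x, G (x + 1) = G x + 1) :
    Function.Surjective G := by
  have hint : ∀ n : ℤ, ∀ x, G (x + n) = G x + n := by
    intro n
    induction n using Int.induction_on with
    | zero => intro x; simp
    | succ n ih =>
      intro x
      have := hG (x + n)
      push_cast
      push_cast at ih
      rw [← add_assoc, this, ih x]; ring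
    | pred n ih =>
      intro x
      have h1 := hG (x + ((-(n : ℤ) - 1 : ℤ) : ℝ))
      have h2 : x + ((-(n : ℤ) - 1 : ℤ) : ℝ) + 1 = x + ((-(n : ℤ) : ℤ) : ℝ) := by
        push_cast; ring
      rw [h2, ih x] at h1
      push_cast at h1 ⊢
      linarith
  intro y
  have h1 : G (0 + (⌊y - G 0⌋ : ℝ)) ≤ y := by
    rw [hint]; have := Int.floor_le (y - G 0); linarith
  have h2 : y ≤ G (0 + (⌊y - G 0⌋ : ℝ) + 1) := by
    rw [hG, hint]; have := Int.lt_floor_add_one (y - G 0); linarith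
  obtain ⟨x, -, hx⟩ := intermediate_value_Icc (by linarith : (0 + (⌊y - G 0⌋ : ℝ)) ≤ 0 + (⌊y - G 0⌋ : ℝ) + 1)
    hc.continuousOn ⟨h1, h2⟩
  exact ⟨x, hx⟩

/-- change of variables on intervals, with no assumption on the integrand -/
lemma cov {e : ℝ → ℝ} {e' : ℝ → ℝ} (he : StrictMono e) (hs : Function.Surjective e)
    (hd : ∀ t, HasDerivAt e (e' t) t) (hpos : ∀ t, 0 ≤ e' t) {a b : ℝ} (hab : a ≤ b) (v : ℝ → ℝ) :
    ∫ y in (e a)..(e b), v y = ∫ t in a..b, e' t * v (e t) := by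
  rw [intervalIntegral.integral_of_le (he.monotone hab), intervalIntegral.integral_of_le hab]
  have himg : e '' Set.Ioc a b = Set.Ioc (e a) (e b) := by
    have := (StrictMono.orderIsoOfSurjective e he hs).image_Ioc a b
    simpa using this
  rw [← himg, integral_image_eq_integral_abs_deriv_smul measurableSet_Ioc
    (fun x _ => (hd x).hasDerivWithinAt) he.injective.injOn]
  refine setIntegral_congr_fun measurableSet_Ioc fun t _ => ?_
  simp [abs_of_nonneg (hpos t)]

/-- data for a base map: the density `w` -/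
structure Base where
  /-- density -/
  w : ℝ → ℝ
  smooth : ContDiff ℝ (⊤ : ℕ∞) w
  pos : ∀ t, 0 < w t
  sum : ∀ t, w t + w (t + 1 / 2) = 2

namespace Base

variable (b : Base)

lemma w_per (t : ℝ) : b.w (t + 1) = b.w t := by
  have h1 := b.sum t
  have h2 := b.sum (t + 1 / 2)
  have h3 : t + 1 / 2 + 1 / 2 = t + 1 := by ring
  rw [h3] at h2
  linarith

lemma w_cont : Continuous b.w := b.smooth.continuous

lemma w_lt (t : ℝ) : b.w t < 2 := by
  have h1 := b.sum t
  have h2 := b.pos (t + 1 / 2)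
  linarith

/-- the primitive of the density -/
noncomputable def A (t : ℝ) : ℝ := ∫ s in (0 : ℝ)..t, b.w s

lemma A_zero : b.A 0 = 0 := by simp [A]

lemma hasDerivAt_A (t : ℝ) : HasDerivAt b.A (b.w t) t :=
  intervalIntegral.integral_hasDerivAt_right (b.w_cont.intervalIntegrable _ _)
    (b.w_cont.stronglyMeasurableAtFilter _ _) b.w_cont.continuousAt

lemma A_cont : Continuous b.A := continuous_iff_continuousAt.2 fun t => (b.hasDerivAt_A t).continuousAt

lemma A_smooth : ContDiff ℝ (⊤ : ℕ∞) b.A := by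
  rw [contDiff_infty_iff_deriv]
  refine ⟨fun t => (b.hasDerivAt_A t).differentiableAt, ?_⟩
  have : deriv b.A = b.w := funext fun t => (b.hasDerivAt_A t).deriv
  rw [this]
  exact b.smooth

lemma A_half (t : ℝ) : b.A (t + 1 / 2) + b.A t = 2 * t + b.A (1 / 2) := by
  have hd : ∀ t, HasDerivAt (fun t => b.A (t + 1 / 2) + b.A t - 2 * t) 0 t := by
    intro t
    have h1 : HasDerivAt (fun t => b.A (t + 1 / 2)) (b.w (t + 1 / 2)) t :=
      HasDerivAt.comp_add_const t (1 / 2) (b.hasDerivAt_A (t + 1 / 2))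
    have h2 : HasDerivAt (fun t => b.A (t + 1 / 2) + b.A t - 2 * t)
        (b.w (t + 1 / 2) + b.w t - 2 * 1) t :=
      (h1.add (b.hasDerivAt_A t)).sub ((hasDerivAt_id' t).const_mul 2)
    have h3 : b.w (t + 1 / 2) + b.w t - 2 * 1 = 0 := by
      have := b.sum t
      linarith
    rw [h3] at h2
    exact h2
  have h3 := is_const_of_deriv_eq_zero (fun t => (hd t).differentiableAt) (fun t => (hd t).deriv) t 0
  simp only [A_zero, zero_add, mul_zero, add_zero, sub_zero] at h3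
  linarith

lemma A_add_one (t : ℝ) : b.A (t + 1) = b.A t + 1 := by
  have h1 := b.A_half t
  have h2 := b.A_half (t + 1 / 2)
  have h3 : t + 1 / 2 + 1 / 2 = t + 1 := by ring
  rw [h3] at h2
  linarith

lemma A_strictMono : StrictMono b.A :=
  strictMono_of_deriv_pos fun t => by rw [(b.hasDerivAt_A t).deriv]; exact b.pos t

lemma A_surj : Function.Surjective b.A := surjective_of_deg_one b.A_cont b.A_add_one

/-- `A` as a homeomorphism -/
noncomputable def Ah : ℝ ≃ₜ ℝ := (StrictMono.orderIsoOfSurjective b.A b.A_strictMono b.A_surj).toHomeomorph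

@[simp] lemma Ah_apply (t : ℝ) : b.Ah t = b.A t := rfl

/-- the inverse of `A` -/
noncomputable def α (x : ℝ) : ℝ := b.Ah.symm x

@[simp] lemma A_α (x : ℝ) : b.A (b.α x) = x := b.Ah.apply_symm_apply x

@[simp] lemma α_A (t : ℝ) : b.α (b.A t) = t := b.Ah.symm_apply_apply t

lemma α_smooth : ContDiff ℝ (⊤ : ℕ∞) b.α :=
  b.Ah.contDiff_symm_deriv (f' := b.w) (fun x => (b.pos x).ne') b.hasDerivAt_A b.A_smooth

lemma α_cont : Continuous b.α := b.α_smooth.continuous

lemma α_add_one (x : ℝ) : b.α (x + 1) = b.α x + 1 := by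
  apply b.A_strictMono.injective
  rw [b.A_add_one, A_α, A_α]

lemma hasDerivAt_α (x : ℝ) : HasDerivAt b.α (b.w (b.α x))⁻¹ x :=
  HasDerivAt.of_local_left_inverse b.α_cont.continuousAt (b.hasDerivAt_A _) (b.pos _).ne'
    (Eventually.of_forall b.A_α)

/-- the base map (lifted) -/
noncomputable def φ (x : ℝ) : ℝ := 2 * b.α x

lemma φ_smooth : ContDiff ℝ (⊤ : ℕ∞) b.φ := contDiff_const.mul b.α_smooth

lemma φ_cont : Continuous b.φ := b.φ_smooth.continuous

lemma φ_add_one (x : ℝ) : b.φ (x + 1) = b.φ x + 2 := by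
  simp only [φ, α_add_one]; ring

lemma hasDerivAt_φ (x : ℝ) : HasDerivAt b.φ (2 / b.w (b.α x)) x := by
  have h1 : HasDerivAt b.φ (2 * (b.w (b.α x))⁻¹) x := (b.hasDerivAt_α x).const_mul 2
  rwa [← div_eq_mul_inv] at h1

lemma φ_A (t : ℝ) : b.φ (b.A t) = 2 * t := by simp [φ]

/-- the transfer operator -/
noncomputable def P (v : ℝ → ℝ) (x : ℝ) : ℝ :=
  (b.w (x / 2) * v (b.A (x / 2)) + b.w (x / 2 + 1 / 2) * v (b.A (x / 2 + 1 / 2))) / 2

lemma w_bm : BM b.w := ⟨b.w_cont.measurable, 2, fun x => by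
  rw [abs_of_pos (b.pos x)]; exact (b.w_lt x).le⟩

lemma P_bm {v : ℝ → ℝ} (hv : BM v) : BM (b.P v) := by
  have h1 : BM (fun x => b.w x * v (b.A x)) := b.w_bm.mul (hv.comp b.A_cont.measurable)
  have h2 : BM (fun x => b.w (x / 2) * v (b.A (x / 2))) :=
    h1.comp (g := fun x => x / 2) (by fun_prop)
  have h3 : BM (fun x => b.w (x / 2 + 1 / 2) * v (b.A (x / 2 + 1 / 2))) :=
    h1.comp (g := fun x => x / 2 + 1 / 2) (by fun_prop)
  have h4 := (BM.const (1 / 2)).mul (h2.add h3)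
  have h5 : b.P v = fun x => 1 / 2 * (b.w (x / 2) * v (b.A (x / 2))
      + b.w (x / 2 + 1 / 2) * v (b.A (x / 2 + 1 / 2))) := by
    funext x
    simp only [P]; ring
  rw [h5]
  exact h4

lemma P_cont {v : ℝ → ℝ} (hv : Continuous v) : Continuous (b.P v) := by
  have h1 := b.w_cont
  have h2 := b.A_cont
  unfold P
  fun_prop

/-- the transfer operator preserves the integral -/
lemma integral_P {v : ℝ → ℝ} (hv : BM v) :
    ∫ x in (0 : ℝ)..1, b.P v x = ∫ x in (0 : ℝ)..1, v x := by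
  have h0 : BM (fun t => b.w t * v (b.A t)) := b.w_bm.mul (hv.comp b.A_cont.measurable)
  have h1 : ∫ x in (0 : ℝ)..1, v x = ∫ t in (0 : ℝ)..1, b.w t * v (b.A t) := by
    have h := cov b.A_strictMono b.A_surj b.hasDerivAt_A (fun t => (b.pos t).le)
      (zero_le_one (α := ℝ)) v
    have hA1 : b.A 1 = 1 := by
      have := b.A_add_one 0
      simpa [A_zero] using this
    rw [A_zero, hA1] at h
    exact h
  have h2 : ∫ t in (0 : ℝ)..1, b.w t * v (b.A t)
      = (∫ t in (0 : ℝ)..(1 / 2), b.w t * v (b.A t)) + ∫ t in (1 / 2 : ℝ)..1, b.w t * v (b.A t) :=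
    (intervalIntegral.integral_add_adjacent_intervals (h0.intervalIntegrable _ _)
      (h0.intervalIntegrable _ _)).symm
  have h3 : ∫ x in (0 : ℝ)..1, b.w (x / 2) * v (b.A (x / 2))
      = 2 * ∫ t in (0 : ℝ)..(1 / 2), b.w t * v (b.A t) := by
    have := intervalIntegral.integral_comp_div (a := 0) (b := 1)
      (fun t => b.w t * v (b.A t)) (two_ne_zero (α := ℝ))
    rw [this]; simp
  have h4 : ∫ x in (0 : ℝ)..1, b.w (x / 2 + 1 / 2) * v (b.A (x / 2 + 1 / 2))
      = 2 * ∫ t in (1 / 2 : ℝ)..1, b.w t * v (b.A t) := by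
    have := intervalIntegral.integral_comp_div_add (a := 0) (b := 1)
      (fun t => b.w t * v (b.A t)) (two_ne_zero (α := ℝ)) (1 / 2)
    rw [this]; norm_num
  have h5 : BM (fun x => b.w (x / 2) * v (b.A (x / 2))) :=
    h0.comp (g := fun x => x / 2) (by fun_prop)
  have h6 : BM (fun x => b.w (x / 2 + 1 / 2) * v (b.A (x / 2 + 1 / 2))) :=
    h0.comp (g := fun x => x / 2 + 1 / 2) (by fun_prop)
  unfold P
  rw [intervalIntegral.integral_div, intervalIntegral.integral_add (h5.intervalIntegrable _ _)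
    (h6.intervalIntegrable _ _), h3, h4, h1, h2]
  ring

lemma P_mono {u v : ℝ → ℝ} (h : ∀ x, u x ≤ v x) (x : ℝ) : b.P u x ≤ b.P v x := by
  unfold P
  have h1 := mul_le_mul_of_nonneg_left (h (b.A (x / 2))) (b.pos (x / 2)).le
  have h2 := mul_le_mul_of_nonneg_left (h (b.A (x / 2 + 1 / 2))) (b.pos (x / 2 + 1 / 2)).le
  linarith

lemma P_add_const (v : ℝ → ℝ) (c x : ℝ) : b.P (fun x => v x + c) x = b.P v x + c := by
  unfold P
  have h := b.sum (x / 2)
  linear_combination (c / 2) * h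

lemma P_const_add (v : ℝ → ℝ) (c x : ℝ) : b.P (fun x => c + v x) x = c + b.P v x := by
  unfold P
  have h := b.sum (x / 2)
  linear_combination (c / 2) * h

lemma P_const (c x : ℝ) : b.P (fun _ => c) x = c := by
  unfold P
  have h := b.sum (x / 2)
  linear_combination (c / 2) * h

lemma P_per {v : ℝ → ℝ} (hv : ∀ x, v (x + 1) = v x) (x : ℝ) : b.P v (x + 1) = b.P v x := by
  unfold P
  have h1 : (x + 1) / 2 = x / 2 + 1 / 2 := by ring
  have h2 : x / 2 + 1 / 2 + 1 / 2 = x / 2 + 1 := by ring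
  rw [h1, h2, b.w_per, b.A_add_one, hv]
  ring

/-- `P (h ∘ φ · g) = h · P g` -/
lemma P_mul_comp {h : ℝ → ℝ} (hh : ∀ x, h (x + 1) = h x) (g : ℝ → ℝ) (x : ℝ) :
    b.P (fun x => h (b.φ x) * g x) x = h x * b.P g x := by
  unfold P
  simp only [φ_A]
  have h1 : 2 * (x / 2) = x := by ring
  have h2 : 2 * (x / 2 + 1 / 2) = x + 1 := by ring
  rw [h1, h2, hh]
  ring

lemma iterate_P_bm {v : ℝ → ℝ} (hv : BM v) (n : ℕ) : BM (b.P^[n] v) := by
  induction n with
  | zero => exact hv
  | succ n ih => rw [Function.iterate_succ_apply']; exact b.P_bm ih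

lemma iterate_P_per {v : ℝ → ℝ} (hv : ∀ x, v (x + 1) = v x) (n : ℕ) (x : ℝ) :
    b.P^[n] v (x + 1) = b.P^[n] v x := by
  induction n generalizing x with
  | zero => exact hv x
  | succ n ih => rw [Function.iterate_succ_apply']; exact b.P_per ih x

lemma integral_iterate_P {v : ℝ → ℝ} (hv : BM v) (n : ℕ) :
    ∫ x in (0 : ℝ)..1, b.P^[n] v x = ∫ x in (0 : ℝ)..1, v x := by
  induction n with
  | zero => rfl
  | succ n ih => rw [Function.iterate_succ_apply', b.integral_P (b.iterate_P_bm hv n), ih]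

lemma iterate_φ_add (n : ℕ) (x : ℝ) : ∃ k : ℤ, b.φ^[n] (x + 1) = b.φ^[n] x + k := by
  induction n generalizing x with
  | zero => exact ⟨1, by simp⟩
  | succ n ih =>
    rw [Function.iterate_succ_apply, Function.iterate_succ_apply, φ_add_one]
    obtain ⟨k1, hk1⟩ := ih (b.φ x)
    obtain ⟨k2, hk2⟩ := ih (b.φ x + 1)
    refine ⟨k1 + k2, ?_⟩
    have : b.φ x + 2 = b.φ x + 1 + 1 := by ring
    rw [this, hk2, hk1]
    push_cast; ring

lemma per_int {h : ℝ → ℝ} (hh : ∀ x, h (x + 1) = h x) (x : ℝ) (k : ℤ) : h (x + k) = h x := by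
  have := (show Function.Periodic h 1 from hh).int_mul k x
  simpa using this

lemma iterate_P_mul_comp {h : ℝ → ℝ} (hh : ∀ x, h (x + 1) = h x) (g : ℝ → ℝ) (n : ℕ) (x : ℝ) :
    b.P^[n] (fun x => h (b.φ^[n] x) * g x) x = h x * b.P^[n] g x := by
  induction n generalizing g x with
  | zero => rfl
  | succ n ih =>
    rw [Function.iterate_succ_apply, Function.iterate_succ_apply]
    have h1 : b.P (fun x => h (b.φ^[n + 1] x) * g x) = fun x => h (b.φ^[n] x) * b.P g x := by
      funext y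
      have := b.P_mul_comp (h := fun x => h (b.φ^[n] x)) (fun x => by
        obtain ⟨k, hk⟩ := b.iterate_φ_add n x
        rw [hk, per_int hh]) g y
      simpa only [Function.iterate_succ_apply] using this
    rw [h1]
    exact ih (b.P g) x

end Base

end Pool.Agent.Work.MP_0e2194_an
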