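import Pool.Agent.Work.MP_0e2194_an.CircleBase

/-!
# Exactness of the base maps via cones
-/

open MeasureTheory Filter Topology

namespace Pool.Agent.Work.MP_0e2194_an

/-- positive functions with log-Lipschitz constant `C` -/
def Cone (C : ℝ) (g : ℝ → ℝ) : Prop :=
  (∀ x, 0 < g x) ∧ ∀ x x', g x ≤ Real.exp (C * |x - x'|) * g x'

lemma Cone.mono {C D : ℝ} (h : C ≤ D) {g : ℝ → ℝ} (hg : Cone C g) : Cone D g := by
  refine ⟨hg.1, fun x x' => (hg.2 x x').trans ?_⟩
  have h1 : Real.exp (C * |x - x'|) ≤ Real.exp (D * |x - x'|) :=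
    Real.exp_le_exp.2 (mul_le_mul_of_nonneg_right h (abs_nonneg _))
  exact mul_le_mul_of_nonneg_right h1 (hg.1 x').le

/-- subtracting a small constant -/
lemma Cone.sub_const {C r δ m : ℝ} (hC : 0 ≤ C) (hr0 : 0 ≤ r) (hr1 : r < 1)  (hδ : δ ≤ (1 - r) * m) (hδm : δ < m) {g : ℝ → ℝ}
    (hg : Cone (r * C) g) (hgm : ∀ x, m ≤ g x) : Cone C (fun x => g x - δ) := by
  refine ⟨fun x => by linarith [hgm x], fun x x' => ?_⟩
  set d := |x - x'| with hd
  have hd0 : 0 ≤ d := abs_nonneg _
  have h1 := hg.2 x x'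
  rw [← hd] at h1
  set T := Real.exp (C * d) with hT
  have hT1 : 1 ≤ T := Real.one_le_exp (mul_nonneg hC hd0)
  have hpow : Real.exp (r * C * d) ≤ 1 + r * (T - 1) := by
    -- convexity of exp
    have hconv := convexOn_exp.2 (Set.mem_univ (0 : ℝ)) (Set.mem_univ (C * d))
      (by linarith : 0 ≤ 1 - r) hr0 (by ring)
    simp only [smul_eq_mul, mul_zero, zero_add, Real.exp_zero, mul_one] at hconv
    have h2 : r * C * d = r * (C * d) := by ring
    rw [h2]
    linarith
  have hg0 : 0 < g x' := hg.1 x'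
  have h3 : g x ≤ (1 + r * (T - 1)) * g x' := h1.trans (mul_le_mul_of_nonneg_right hpow hg0.le)
  have h4 : (1 - r) * m * (T - 1) ≤ (1 - r) * g x' * (T - 1) := by
    apply mul_le_mul_of_nonneg_right _ (by linarith)
    exact mul_le_mul_of_nonneg_left (hgm x') (by linarith)
  have h5 : δ * (T - 1) ≤ (1 - r) * m * (T - 1) := mul_le_mul_of_nonneg_right hδ (by linarith)
  nlinarith

/-- Harnack inequality for periodic functions -/
lemma Cone.harnack {C : ℝ} (hC : 0 ≤ C) {g : ℝ → ℝ} (hg : Cone C g) (hc : Continuous g)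
    (hp : ∀ x, g (x + 1) = g x) (x : ℝ) :
    g x ≤ Real.exp C * ∫ y in (0 : ℝ)..1, g y ∧ (∫ y in (0 : ℝ)..1, g y) ≤ Real.exp C * g x := by
  have key : ∀ x x', g x ≤ Real.exp C * g x' := by
    intro x x'
    have h1 : g x = g (Int.fract x) := by
      conv_lhs => rw [← Int.fract_add_floor x]
      exact Base.per_int hp _ _
    have h2 : g x' = g (Int.fract x') := by
      conv_lhs => rw [← Int.fract_add_floor x']
      exact Base.per_int hp _ _
    rw [h1, h2]
    refine (hg.2 _ _).trans (mul_le_mul_of_nonneg_right (Real.exp_le_exp.2 ?_) (hg.1 _).le)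
    have h3 : |Int.fract x - Int.fract x'| ≤ 1 := by
      rw [abs_le]
      have := Int.fract_nonneg x
      have := Int.fract_nonneg x'
      have := Int.fract_lt_one x
      have := Int.fract_lt_one x'
      constructor <;> linarith
    nlinarith
  constructor
  · have h1 : ∫ _y in (0 : ℝ)..1, g x ≤ ∫ y in (0 : ℝ)..1, Real.exp C * g y :=
      intervalIntegral.integral_mono_on zero_le_one (by simp)
        ((continuous_const.mul hc).intervalIntegrable _ _) fun y _ => key x y
    rw [intervalIntegral.integral_const_mul] at h1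
    simpa using h1
  · have h1 : ∫ y in (0 : ℝ)..1, g y ≤ ∫ _y in (0 : ℝ)..1, Real.exp C * g x :=
      intervalIntegral.integral_mono_on zero_le_one (hc.intervalIntegrable _ _)
        (by simp) fun y _ => key y x
    simpa using h1

namespace Base

variable (b : Base)

lemma exists_w_lower : ∃ m, 0 < m ∧ m ≤ 1 ∧ (∀ t, m ≤ b.w t) ∧ ∀ t, b.w t ≤ 2 - m := by
  obtain ⟨m, hm, hm'⟩ := periodic_lower b.w_cont b.w_per b.pos
  refine ⟨m, hm, ?_, hm', fun t => ?_⟩
  · have := b.sum 0
    have h1 := hm' 0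
    have h2 := hm' (0 + 1 / 2)
    linarith
  · have := b.sum t
    have h1 := hm' (t + 1 / 2)
    linarith

/-- the log-Lipschitz constant of the density -/
lemma exists_logLip : ∃ L, 0 ≤ L ∧ ∀ t t', b.w t ≤ Real.exp (2 * L * |t - t'|) * b.w t' := by
  obtain ⟨m, hm, -, hm', -⟩ := b.exists_w_lower
  have hd : Differentiable ℝ b.w := b.smooth.differentiable (by simp)
  have hdc : Continuous (deriv b.w) := b.smooth.continuous_deriv (by simp)
  have hdp : ∀ x, deriv b.w (x + 1) = deriv b.w x := by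
    intro x
    have h1 : (fun x => b.w (x + 1)) = b.w := funext b.w_per
    have h2 : deriv (fun x => b.w (x + 1)) x = deriv b.w (x + 1) := by
      rw [deriv_comp_add_const]
    rw [← h2, h1]
  obtain ⟨C, hC, hC'⟩ := periodic_bdd hdc hdp
  have hlip : ∀ t t', |b.w t - b.w t'| ≤ C * |t - t'| := by
    intro t t'
    have := Convex.norm_image_sub_le_of_norm_deriv_le (𝕜 := ℝ) (f := b.w) (s := Set.univ) (C := C)
      (fun x _ => hd x) (fun x _ => hC' x) convex_univ (Set.mem_univ t') (Set.mem_univ t)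
    simpa [Real.norm_eq_abs] using this
  refine ⟨C / (2 * m), by positivity, fun t t' => ?_⟩
  have h1 : b.w t ≤ b.w t' + C * |t - t'| := by
    have := le_abs_self (b.w t - b.w t')
    linarith [hlip t t']
  have h2 : C * |t - t'| ≤ (C / m * |t - t'|) * b.w t' := by
    have h3 : C * |t - t'| = (C / m * |t - t'|) * m := by field_simp
    rw [h3]
    exact mul_le_mul_of_nonneg_left (hm' t') (by positivity)
  have h3 : 2 * (C / (2 * m)) * |t - t'| = C / m * |t - t'| := by field_simp
  rw [h3]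
  have h4 := Real.add_one_le_exp (C / m * |t - t'|)
  have h5 := mul_le_mul_of_nonneg_right h4 (b.pos t').le
  nlinarith

lemma A_lip {M : ℝ} (hM : ∀ t, b.w t ≤ M) (t t' : ℝ) : |b.A t - b.A t'| ≤ M * |t - t'| := by
  have := Convex.norm_image_sub_le_of_norm_deriv_le (𝕜 := ℝ) (f := b.A) (s := Set.univ) (C := M)
    (fun x _ => (b.hasDerivAt_A x).differentiableAt)
    (fun x _ => by
      rw [(b.hasDerivAt_A x).deriv, Real.norm_eq_abs, abs_of_pos (b.pos x)]; exact hM x)
    convex_univ (Set.mem_univ t') (Set.mem_univ t)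
  simpa [Real.norm_eq_abs] using this

lemma cone_P {L θ C : ℝ} (hC : 0 ≤ C)
    (hL : ∀ t t', b.w t ≤ Real.exp (2 * L * |t - t'|) * b.w t')
    (hθ : ∀ t t', |b.A t - b.A t'| ≤ 2 * θ * |t - t'|) {g : ℝ → ℝ} (hg : Cone C g) :
    Cone (L + θ * C) (b.P g) := by
  have key : ∀ t t', |t - t'| * 2 = |t * 2 - t' * 2| → b.w t * g (b.A t) ≤
      Real.exp ((L + θ * C) * (|t - t'| * 2)) * (b.w t' * g (b.A t')) := by
    intro t t' _
    have h1 := hL t t'
    have h2 := hg.2 (b.A t) (b.A t')
    have h3 : Real.exp (C * |b.A t - b.A t'|) ≤ Real.exp (C * (2 * θ * |t - t'|)) :=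
      Real.exp_le_exp.2 (mul_le_mul_of_nonneg_left (hθ t t') hC)
    have h4 : g (b.A t) ≤ Real.exp (C * (2 * θ * |t - t'|)) * g (b.A t') :=
      h2.trans (mul_le_mul_of_nonneg_right h3 (hg.1 _).le)
    calc b.w t * g (b.A t)
        ≤ (Real.exp (2 * L * |t - t'|) * b.w t') *
          (Real.exp (C * (2 * θ * |t - t'|)) * g (b.A t')) :=
          mul_le_mul h1 h4 (hg.1 _).le (by have := b.pos t'; positivity)
      _ = (Real.exp (2 * L * |t - t'|) * Real.exp (C * (2 * θ * |t - t'|)))
          * (b.w t' * g (b.A t')) := by ring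
      _ = _ := by rw [← Real.exp_add]; congr 2; ring
  refine ⟨fun x => ?_, fun x x' => ?_⟩
  · unfold P
    have h1 := mul_pos (b.pos (x / 2)) (hg.1 (b.A (x / 2)))
    have h2 := mul_pos (b.pos (x / 2 + 1 / 2)) (hg.1 (b.A (x / 2 + 1 / 2)))
    linarith
  · unfold P
    have e1 : |x / 2 - x' / 2| * 2 = |x - x'| := by
      rw [← sub_div, abs_div]; norm_num
    have e2 : |x / 2 + 1 / 2 - (x' / 2 + 1 / 2)| * 2 = |x - x'| := by
      have : x / 2 + 1 / 2 - (x' / 2 + 1 / 2) = x / 2 - x' / 2 := by ring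
      rw [this, e1]
    have h1 := key (x / 2) (x' / 2) (by rw [e1]; congr 1; ring)
    have h2 := key (x / 2 + 1 / 2) (x' / 2 + 1 / 2) (by rw [e2]; congr 1; ring)
    rw [e1] at h1
    rw [e2] at h2
    nlinarith

/-- exponential convergence of the transfer operator on cones -/
lemma exact_cone {C₀ : ℝ} (g : ℝ → ℝ) (hg : Cone C₀ g) (hc : Continuous g)
    (hp : ∀ x, g (x + 1) = g x) :
    ∃ κ D : ℝ, 0 ≤ κ ∧ κ < 1 ∧
      ∀ n x, |b.P^[n] g x - ∫ y in (0 : ℝ)..1, g y| ≤ D * κ ^ n := by
  obtain ⟨m, hm, hm1, hml, hmu⟩ := b.exists_w_lower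
  obtain ⟨L, hL0, hL⟩ := b.exists_logLip
  set θ : ℝ := (2 - m) / 2 with hθ
  have hθ0 : 0 < θ := by rw [hθ]; linarith
  have hθ1 : θ < 1 := by rw [hθ]; linarith
  have hlip : ∀ t t', |b.A t - b.A t'| ≤ 2 * θ * |t - t'| := by
    intro t t'
    have := b.A_lip hmu t t'
    rw [hθ]
    linarith
  set C : ℝ := max C₀ (2 * L / (1 - θ) + 1) with hCdef
  have hC0 : 0 < C := lt_max_of_lt_right (by have : 0 ≤ 2 * L / (1 - θ) := by
                                                apply div_nonneg <;> linarith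
                                             linarith)
  set r : ℝ := (1 + θ) / 2 with hr
  have hr0 : 0 < r := by rw [hr]; linarith
  have hr1 : r < 1 := by rw [hr]; linarith
  have hrC : L + θ * C ≤ r * C := by
    have h1 : 2 * L / (1 - θ) + 1 ≤ C := le_max_right _ _
    have h2 : 2 * L ≤ (1 - θ) * C := by
      have h3 : 2 * L / (1 - θ) ≤ C := by linarith
      rw [div_le_iff₀ (by linarith)] at h3
      linarith
    rw [hr]
    linarith
  set I : ℝ := ∫ y in (0 : ℝ)..1, g y with hI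
  have hI0 : 0 < I := by
    have h1 := ((hg.mono (le_max_left _ _ : C₀ ≤ C)).harnack hC0.le hc hp 0).1
    have h2 := hg.1 0
    have h3 : 0 < Real.exp C * I := h2.trans_le h1
    exact (mul_pos_iff_of_pos_left (Real.exp_pos _)).1 h3
  set δ : ℝ := (1 - r) * Real.exp (-C) with hδ
  have hδ0 : 0 < δ := mul_pos (by linarith) (Real.exp_pos _)
  have hδ1 : δ < 1 := by
    have h1 : Real.exp (-C) ≤ 1 := Real.exp_le_one_iff.2 (by linarith)
    nlinarith [Real.exp_pos (-C)]
  have key : ∀ n : ℕ, ∃ h : ℝ → ℝ, Cone C h ∧ Continuous h ∧ (∀ x, h (x + 1) = h x) ∧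
      (∫ y in (0 : ℝ)..1, h y = (1 - δ) ^ n * I) ∧
      ∀ x, b.P^[n] g x = (1 - (1 - δ) ^ n) * I + h x := by
    intro n
    induction n with
    | zero => exact ⟨g, hg.mono (le_max_left _ _), hc, hp, by simp [hI], fun x => by simp⟩
    | succ n ih =>
      obtain ⟨h, h1, h2, h3, h4, h5⟩ := ih
      have hJ : 0 < (1 - δ) ^ n * I := mul_pos (pow_pos (by linarith) _) hI0
      have hbm : BM h := by
        obtain ⟨D, -, hD⟩ := periodic_bdd h2 h3
        exact ⟨h2.measurable, D, hD⟩
      have hlow : ∀ x, Real.exp (-C) * ((1 - δ) ^ n * I) ≤ h x := by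
        intro x
        have := (h1.harnack hC0.le h2 h3 x).2
        rw [h4] at this
        rw [Real.exp_neg, inv_mul_le_iff₀ (Real.exp_pos _)]
        exact this
      have hlowP : ∀ x, Real.exp (-C) * ((1 - δ) ^ n * I) ≤ b.P h x := by
        intro x
        have := b.P_mono hlow x
        rwa [b.P_const] at this
      have hmpos : 0 < Real.exp (-C) * ((1 - δ) ^ n * I) := mul_pos (Real.exp_pos _) hJ
      refine ⟨fun x => b.P h x - δ * ((1 - δ) ^ n * I), ?_, ?_, ?_, ?_, ?_⟩
      · refine Cone.sub_const (m := Real.exp (-C) * ((1 - δ) ^ n * I)) hC0.le hr0.le hr1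
          ?_ ?_ ((b.cone_P hC0.le hL hlip h1).mono hrC) hlowP
        · rw [hδ]; linarith
        · have : δ * ((1 - δ) ^ n * I) = (1 - r) * (Real.exp (-C) * ((1 - δ) ^ n * I)) := by
            rw [hδ]; ring
          rw [this]
          nlinarith
      · exact (b.P_cont h2).sub continuous_const
      · intro x
        simp only [b.P_per h3 x]
      · rw [intervalIntegral.integral_sub ((b.P_bm hbm).intervalIntegrable _ _)
          (by simp), b.integral_P hbm, h4]
        simp
        ring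
      · intro x
        have hfun : b.P^[n] g = fun x => (1 - (1 - δ) ^ n) * I + h x := funext h5
        rw [Function.iterate_succ_apply', hfun, b.P_const_add]
        ring
  refine ⟨1 - δ, (1 + Real.exp C) * I, by linarith, by linarith, fun n x => ?_⟩
  obtain ⟨h, h1, h2, h3, h4, h5⟩ := key n
  have h6 := (h1.harnack hC0.le h2 h3 x).1
  rw [h4] at h6
  have h7 := h1.1 x
  have hpn : 0 < (1 - δ) ^ n := pow_pos (by linarith) _
  rw [h5 x, abs_le]
  constructor
  · nlinarith [Real.exp_pos C, mul_pos hpn hI0, mul_pos (Real.exp_pos C) (mul_pos hpn hI0)]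
  · nlinarith [Real.exp_pos C, mul_pos hpn hI0, mul_pos (Real.exp_pos C) (mul_pos hpn hI0)]

/-- exactness: uniform convergence for Lipschitz observables -/
lemma exact_lip {ℓ : ℝ} (g : ℝ → ℝ) (hl : ∀ x x', |g x - g x'| ≤ ℓ * |x - x'|)
    (hp : ∀ x, g (x + 1) = g x) :
    ∃ κ D : ℝ, 0 ≤ κ ∧ κ < 1 ∧
      ∀ n x, |b.P^[n] g x - ∫ y in (0 : ℝ)..1, g y| ≤ D * κ ^ n := by
  have hℓ : 0 ≤ ℓ := by
    have := (abs_nonneg _).trans (hl 1 0)
    simpa using this
  have hc : Continuous g := by
    have : LipschitzWith ℓ.toNNReal g := LipschitzWith.of_dist_le_mul fun x y => by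
      rw [Real.coe_toNNReal _ hℓ]; exact hl x y
    exact this.continuous
  obtain ⟨M, hM, hM'⟩ := periodic_bdd hc hp
  have hcone : Cone ℓ (fun x => g x + (M + 1)) := by
    refine ⟨fun x => by linarith [neg_abs_le (g x), hM' x], fun x x' => ?_⟩
    have h1 : 1 ≤ g x' + (M + 1) := by linarith [neg_abs_le (g x'), hM' x']
    have h2 := (le_abs_self _).trans (hl x x')
    have h3 := Real.add_one_le_exp (ℓ * |x - x'|)
    have h4 : 0 ≤ ℓ * |x - x'| := mul_nonneg hℓ (abs_nonneg _)
    nlinarith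
  obtain ⟨κ, D, h0, h1, h2⟩ := b.exact_cone (fun x => g x + (M + 1)) hcone
    (hc.add continuous_const) (fun x => by rw [hp])
  refine ⟨κ, D, h0, h1, fun n x => ?_⟩
  have h3 : ∀ n x, b.P^[n] (fun x => g x + (M + 1)) x = b.P^[n] g x + (M + 1) := by
    intro n
    induction n with
    | zero => intro x; rfl
    | succ n ih =>
      intro x
      have : b.P^[n] (fun x => g x + (M + 1)) = fun x => b.P^[n] g x + (M + 1) := funext ih
      rw [Function.iterate_succ_apply', this, b.P_add_const, Function.iterate_succ_apply']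
  have h4 : ∫ y in (0 : ℝ)..1, (g y + (M + 1)) = (∫ y in (0 : ℝ)..1, g y) + (M + 1) := by
    rw [intervalIntegral.integral_add (hc.intervalIntegrable _ _) (by simp)]
    simp
  have h5 := h2 n x
  rw [h3, h4] at h5
  have h6 : b.P^[n] g x + (M + 1) - ((∫ y in (0 : ℝ)..1, g y) + (M + 1))
      = b.P^[n] g x - ∫ y in (0 : ℝ)..1, g y := by ring
  rwa [h6] at h5

end Base

end Pool.Agent.Work.MP_0e2194_an
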