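import Pool.Agent.Work.MP_0e2194_an.Skew

/-!
# Choice of parameters
-/

open MeasureTheory Filter Topology Real

namespace Pool.Agent.Work.MP_0e2194_an

/-- horizontal profile -/
noncomputable def KM (M t : ℝ) : ℝ := 2 / π * arctan (M * sin (2 * π * t))

lemma KM_smooth (M : ℝ) : ContDiff ℝ (⊤ : ℕ∞) (KM M) := by
  unfold KM
  exact contDiff_const.mul (contDiff_arctan.comp
    (contDiff_const.mul (contDiff_sin.comp (contDiff_const.mul contDiff_id))))

lemma KM_half (M t : ℝ) : KM M (t + 1 / 2) = - KM M t := by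
  unfold KM
  have h1 : 2 * π * (t + 1 / 2) = 2 * π * t + π := by ring
  rw [h1, sin_add_pi, mul_neg, arctan_neg, mul_neg]

lemma KM_lt (M t : ℝ) : |KM M t| < 1 := by
  unfold KM
  rw [abs_mul, abs_of_pos (by positivity : 0 < 2 / π)]
  have h1 : |arctan (M * sin (2 * π * t))| < π / 2 :=
    abs_lt.2 ⟨neg_pi_div_two_lt_arctan _, arctan_lt_pi_div_two _⟩
  calc 2 / π * |arctan (M * sin (2 * π * t))| < 2 / π * (π / 2) :=
        mul_lt_mul_of_pos_left h1 (by positivity)
    _ = 1 := by field_simp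

lemma KM_cont (M : ℝ) : Continuous (KM M) := (KM_smooth M).continuous

lemma KM_pos {M : ℝ} (hM : 0 < M) {x : ℝ} (hx : x ∈ Set.Ioo (0 : ℝ) 1) : 0 < KM M (x / 2) := by
  unfold KM
  have h1 : 0 < sin (2 * π * (x / 2)) := by
    apply sin_pos_of_pos_of_lt_pi
    · have := hx.1; positivity
    · have := hx.2; nlinarith [pi_pos]
  have h2 : 0 < arctan (M * sin (2 * π * (x / 2))) := arctan_pos.2 (by positivity)
  positivity

lemma KM_ne {M : ℝ} (hM : 0 < M) : ∀ᵐ t : ℝ, KM M (t / 2) ≠ 0 := by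
  have hc : (Set.range ((↑) : ℤ → ℝ)).Countable := Set.countable_range _
  have h0 : ∀ᵐ t : ℝ, t ∉ Set.range ((↑) : ℤ → ℝ) :=
    measure_eq_zero_iff_ae_notMem.1 (hc.measure_zero volume)
  filter_upwards [h0] with t ht h
  apply ht
  unfold KM at h
  have h1 : arctan (M * sin (2 * π * (t / 2))) = 0 := by
    rcases mul_eq_zero.1 h with h | h
    · exact absurd h (by positivity)
    · exact h
  rw [arctan_eq_zero_iff] at h1
  have h2 : sin (2 * π * (t / 2)) = 0 := by
    rcases mul_eq_zero.1 h1 with h | h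
    · exact absurd h hM.ne'
    · exact h
  rw [sin_eq_zero_iff] at h2
  obtain ⟨n, hn⟩ := h2
  refine ⟨n, ?_⟩
  have h3 : (n : ℝ) * π = t * π := by rw [hn]; ring
  exact mul_right_cancel₀ pi_pos.ne' h3

lemma binEntropy_nonneg' {p : ℝ} (h0 : 0 ≤ p) (h1 : p ≤ 1) : 0 ≤ binEntropy p := binEntropy_nonneg h0 h1

lemma abs_binEntropy_le {p : ℝ} (h0 : 0 ≤ p) (h1 : p ≤ 1) : |binEntropy p| ≤ log 2 := by
  rw [abs_of_nonneg (binEntropy_nonneg h0 h1)]
  exact binEntropy_le_log_two

/-- minimal exponent of the profile -/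
noncomputable def lmin (M : ℝ) : ℝ := ∫ x in (0 : ℝ)..1, binEntropy ((1 + KM M (x / 2)) / 2)

lemma unit_of_abs {k : ℝ} (h : |k| ≤ 1) : 0 ≤ (1 + k) / 2 ∧ (1 + k) / 2 ≤ 1 := by
  obtain ⟨h1, h2⟩ := abs_le.1 h
  constructor <;> linarith

lemma tendsto_lmin : Tendsto (fun n : ℕ => lmin (n + 1 : ℝ)) atTop (𝓝 0) := by
  have h := intervalIntegral.tendsto_integral_filter_of_dominated_convergence
    (μ := volume) (a := 0) (b := 1) (l := atTop)
    (F := fun (n : ℕ) x => binEntropy ((1 + KM (n + 1 : ℝ) (x / 2)) / 2))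
    (f := fun _ => (0 : ℝ)) (fun _ => log 2)
    (Eventually.of_forall fun n => by
      have h1 := KM_cont (n + 1 : ℝ)
      exact (binEntropy_continuous.comp (by fun_prop)).aestronglyMeasurable)
    (Eventually.of_forall fun n => Eventually.of_forall fun x _ => by
      obtain ⟨h1, h2⟩ := unit_of_abs (KM_lt (n + 1 : ℝ) (x / 2)).le
      exact abs_binEntropy_le h1 h2)
    (by simp)
    (by
      have hne : ∀ᵐ x : ℝ, x ≠ 1 := by simp [ae_iff]
      filter_upwards [hne] with x hx1 hx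
      rw [Set.uIoc_of_le zero_le_one] at hx
      have hx2 : x ∈ Set.Ioo (0 : ℝ) 1 := ⟨hx.1, lt_of_le_of_ne hx.2 hx1⟩
      have hs : 0 < sin (2 * π * (x / 2)) := by
        apply sin_pos_of_pos_of_lt_pi
        · have := hx2.1; positivity
        · have := hx2.2; nlinarith [pi_pos]
      have h1 : Tendsto (fun n : ℕ => ((n : ℝ) + 1) * sin (2 * π * (x / 2))) atTop atTop := by
        apply Tendsto.atTop_mul_const hs
        exact tendsto_atTop_add_const_right _ _ tendsto_natCast_atTop_atTop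
      have h2 : Tendsto (fun n : ℕ => KM (n + 1 : ℝ) (x / 2)) atTop (𝓝 1) := by
        unfold KM
        have h3 := ((tendsto_arctan_atTop.comp h1).mono_right nhdsWithin_le_nhds).const_mul (2 / π)
        have h4 : 2 / π * (π / 2) = 1 := by field_simp
        rwa [h4] at h3
      have h3 : Tendsto (fun n : ℕ => (1 + KM (n + 1 : ℝ) (x / 2)) / 2) atTop (𝓝 1) := by
        have := (h2.const_add 1).div_const 2
        have h4 : (1 + 1 : ℝ) / 2 = 1 := by norm_num
        rwa [h4] at this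
      have h4 := (binEntropy_continuous.tendsto 1).comp h3
      rw [binEntropy_one] at h4
      exact h4)
  simpa [lmin] using h

lemma exists_lmin_lt {ε : ℝ} (hε : 0 < ε) : ∃ M, 0 < M ∧ lmin M < ε := by
  obtain ⟨n, hn⟩ := (tendsto_lmin.eventually_lt_const hε).exists
  exact ⟨n + 1, by positivity, hn⟩

/-- the parameter `c` of the base map -/
lemma exists_c {M b : ℝ} (h1 : lmin M < b) (h2 : b < log 2) :
    ∃ c, 0 < c ∧ c < 1 ∧ ∫ x in (0 : ℝ)..1, binEntropy ((1 + c * KM M (x / 2)) / 2) = b := by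
  set E : ℝ → ℝ := fun c => ∫ x in (0 : ℝ)..1, binEntropy ((1 + c * KM M (x / 2)) / 2) with hE
  have hc : Continuous E := by
    have h3 := KM_cont M
    refine intervalIntegral.continuous_parametric_intervalIntegral_of_continuous' ?_ 0 1
    exact binEntropy_continuous.comp (by fun_prop)
  have hE0 : E 0 = log 2 := by
    simp only [hE, zero_mul, add_zero]
    rw [one_div, binEntropy_two_inv]
    simp
  have hE1 : E 1 = lmin M := by
    simp only [hE, one_mul, lmin]
  obtain ⟨c, ⟨hc0, hc1⟩, hcb⟩ := intermediate_value_Icc' zero_le_one hc.continuousOn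
    (show b ∈ Set.Icc (E 1) (E 0) by rw [hE0, hE1]; exact ⟨h1.le, h2.le⟩)
  refine ⟨c, lt_of_le_of_ne hc0 ?_, lt_of_le_of_ne hc1 ?_, hcb⟩
  · rintro rfl
    rw [hE0] at hcb; linarith
  · rintro rfl
    rw [hE1] at hcb; linarith

/-- base map with profile `KM M` -/
noncomputable def mkBase (M c : ℝ) (hc0 : 0 < c) (hc1 : c < 1) : Base where
  w t := 1 + c * KM M t
  smooth := contDiff_const.add (contDiff_const.mul (KM_smooth M))
  pos t := by
    have h := KM_lt M t
    have h1 := neg_abs_le (KM M t)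
    have h2 := abs_nonneg (KM M t)
    nlinarith
  sum t := by rw [KM_half]; ring

theorem exists_base {b : ℝ} (h0 : 0 < b) (h1 : b < log 2) :
    ∃ B : Base, ∫ x in (0 : ℝ)..1, binEntropy (B.w (x / 2) / 2) = b := by
  obtain ⟨M, -, hM⟩ := exists_lmin_lt h0
  obtain ⟨c, hc0, hc1, hc⟩ := exists_c hM h1
  exact ⟨mkBase M c hc0 hc1, hc⟩

end Pool.Agent.Work.MP_0e2194_an
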