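import Pool.Agent.Work.MP_0e2194_an.Torus

/-!
# Two dimensional torus: integration formula and ergodicity of products
-/

open MeasureTheory Filter Topology

namespace Pool.Agent.Work.MP_0e2194_an

/-- the two dimensional torus -/
abbrev T2 := Fin 2 → UnitAddCircle

/-- points of the torus from two circle coordinates -/
def pt (x y : UnitAddCircle) : T2 := ![x, y]

@[simp] lemma pt_zero (x y : UnitAddCircle) : pt x y 0 = x := rfl
@[simp] lemma pt_one (x y : UnitAddCircle) : pt x y 1 = y := rfl

lemma pt_eta (z : T2) : pt (z 0) (z 1) = z := by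
  funext i
  fin_cases i <;> rfl

lemma measurable_pt : Measurable (fun p : UnitAddCircle × UnitAddCircle => pt p.1 p.2) :=
  (MeasurableEquiv.finTwoArrow (α := UnitAddCircle)).symm.measurable

lemma mp_pt : MeasurePreserving (fun p : UnitAddCircle × UnitAddCircle => pt p.1 p.2)
    (volume.prod volume) volume :=
  (volume_preserving_finTwoArrow UnitAddCircle).symm _

lemma integral_T2 {h : T2 → ℝ} (hm : Measurable h) (hb : ∃ C, ∀ z, |h z| ≤ C) :
    ∫ z, h z = ∫ x in (0 : ℝ)..1, ∫ y in (0 : ℝ)..1, h (pt (x : UnitAddCircle) (y : UnitAddCircle)) := by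
  obtain ⟨C, hC⟩ := hb
  rw [← mp_pt.map_eq, integral_map mp_pt.measurable.aemeasurable hm.aestronglyMeasurable]
  rw [integral_prod]
  · have h1 := UnitAddCircle.intervalIntegral_preimage 0 (fun x => ∫ y : UnitAddCircle, h (pt x y))
    rw [zero_add] at h1
    rw [← h1]
    refine intervalIntegral.integral_congr fun x _ => ?_
    have h2 := UnitAddCircle.intervalIntegral_preimage 0 (fun y => h (pt (x : UnitAddCircle) y))
    rw [zero_add] at h2
    exact h2.symm
  · exact Integrable.of_bound (hm.comp measurable_pt).aestronglyMeasurable C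
      (Eventually.of_forall fun x => by simpa using hC _)

/-- triangular torus map from two lifts -/
noncomputable def triF (φ : ℝ → ℝ) (g : ℝ → ℝ → ℝ) (z : Fin 2 → ℝ) : Fin 2 → ℝ :=
  ![φ (z 0), g (z 0) (z 1)]

/-- product of circle maps -/
def prodMap (T S : UnitAddCircle → UnitAddCircle) (z : T2) : T2 := pt (T (z 0)) (S (z 1))

lemma prodMap_iterate (T S : UnitAddCircle → UnitAddCircle) (n : ℕ) :
    (prodMap T S)^[n] = prodMap (T^[n]) (S^[n]) := by
  induction n with
  | zero => funext z; exact (pt_eta z).symm
  | succ n ih =>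
    rw [Function.iterate_succ, ih]
    funext z
    simp [prodMap, Function.comp]

lemma prodMap_measurePreserving {T S : UnitAddCircle → UnitAddCircle}
    (hT : MeasurePreserving T volume volume) (hS : MeasurePreserving S volume volume) :
    MeasurePreserving (prodMap T S) volume volume := by
  have h1 := (mp_pt.comp (hT.prod hS)).comp (volume_preserving_finTwoArrow UnitAddCircle)
  exact h1

lemma measurableSet_slice {A : Set T2} (hA : MeasurableSet A) (y : UnitAddCircle) :
    MeasurableSet {x | pt x y ∈ A} := by
  have : Measurable (fun x : UnitAddCircle => pt x y) :=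
    measurable_pt.comp (measurable_id.prodMk measurable_const)
  exact this hA

lemma measure_T2_eq {A : Set T2} (hA : MeasurableSet A) :
    volume A = ∫⁻ y : UnitAddCircle, volume {x | pt x y ∈ A} := by
  rw [← mp_pt.measure_preimage hA.nullMeasurableSet, Measure.prod_apply_symm (measurable_pt hA)]
  rfl

theorem ergodic_prod {T S : UnitAddCircle → UnitAddCircle} (hT : MeasurePreserving T volume volume)
    (hTm : UMix T) (hS : Ergodic S volume) : Ergodic (prodMap T S) volume := by
  refine ⟨prodMap_measurePreserving hT hS.toMeasurePreserving, ⟨?_⟩⟩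
  intro A hA hinv
  set E : UnitAddCircle → Set UnitAddCircle := fun y => {x | pt x y ∈ A} with hE
  have hEm : ∀ y, MeasurableSet (E y) := measurableSet_slice hA
  have hstep : ∀ y, T ⁻¹' (E (S y)) = E y := by
    intro y
    ext x
    show pt (T x) (S y) ∈ A ↔ pt x y ∈ A
    have h1 : pt x y ∈ prodMap T S ⁻¹' A ↔ pt x y ∈ A := by rw [hinv]
    exact h1
  have hstepn : ∀ (n : ℕ) y, (T^[n]) ⁻¹' (E (S^[n] y)) = E y := by
    intro n
    induction n with
    | zero => intro y; rfl
    | succ n ih =>
      intro y
      rw [Function.iterate_succ, Set.preimage_comp, Function.iterate_succ_apply, ih, hstep]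
  have hc : ∀ (n : ℕ) y, volume.real (E (S^[n] y)) = volume.real (E y) := by
    intro n y
    conv_rhs => rw [← hstepn n y]
    exact ((hT.iterate n).measureReal_preimage (hEm _).nullMeasurableSet).symm
  have htriv : ∀ y, volume (E y) = 0 ∨ volume (E y)ᶜ = 0 := by
    intro y
    refine null_or_conull_of_uncorrelated (hEm y) fun g hg => ?_
    by_contra hne
    have hpos : 0 < |(∫ x in E y, g x) - volume.real (E y) * ∫ x, g x| :=
      abs_pos.2 (sub_ne_zero.2 hne)
    obtain ⟨N, hN⟩ := hTm g hg _ (half_pos hpos)
    have := hN N le_rfl (E (S^[N] y)) (hEm _)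
    rw [hstepn, hc] at this
    linarith
  set Z : Set UnitAddCircle := {y | volume (E y) = 0} with hZ
  have hmeas : Measurable fun y => volume (E y) := measurable_measure_prodMk_right (measurable_pt hA)
  have hZm : MeasurableSet Z := hmeas (measurableSet_singleton 0)
  have hZinv : S ⁻¹' Z = Z := by
    ext y
    show volume (E (S y)) = 0 ↔ volume (E y) = 0
    rw [← hstep y, hT.measure_preimage (hEm _).nullMeasurableSet]
  rw [eventuallyConst_set']
  rcases hS.measure_self_or_compl_eq_zero hZm hZinv with h0 | h0
  · right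
    rw [ae_eq_univ, measure_T2_eq hA.compl, lintegral_eq_zero_iff]
    · have : ∀ᵐ y, y ∉ Z := measure_eq_zero_iff_ae_notMem.1 h0
      filter_upwards [this] with y hy
      have h1 : {x | pt x y ∈ Aᶜ} = (E y)ᶜ := rfl
      rw [h1]
      rcases htriv y with h2 | h2
      · exact absurd h2 hy
      · exact h2
    · exact measurable_measure_prodMk_right (measurable_pt hA.compl)
  · left
    rw [ae_eq_empty, measure_T2_eq hA, lintegral_eq_zero_iff hmeas]
    have : ∀ᵐ y, y ∉ Zᶜ := measure_eq_zero_iff_ae_notMem.1 h0
    filter_upwards [this] with y hy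
    have h1 : y ∈ Z := by simpa using hy
    exact h1

end Pool.Agent.Work.MP_0e2194_an
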