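import Pool.Agent.Work.MP_0e2194_an.Product

/-!
# Skew products with contracting fibers: the transfer operators
-/

open MeasureTheory Filter Topology

namespace Pool.Agent.Work.MP_0e2194_an

/-- data for the skew product -/
structure Skew where
  /-- horizontal profile -/
  K : ℝ → ℝ
  K_smooth : ContDiff ℝ (⊤ : ℕ∞) K
  K_half : ∀ t, K (t + 1 / 2) = - K t
  K_lt : ∀ t, |K t| < 1
  K_ne : ∀ᵐ t : ℝ, K (t / 2) ≠ 0
  /-- mean of the vertical profile -/
  c : ℝ
  c_lt : |c| < 1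
  /-- vertical profile -/
  σ : ℝ → ℝ
  σ_smooth : ContDiff ℝ (⊤ : ℕ∞) σ
  σ_per : ∀ y, σ (y + 1) = σ y
  σ_le : ∀ y, |σ y| ≤ 1
  /-- primitive of `σ - c` -/
  β : ℝ → ℝ
  β_deriv : ∀ y, HasDerivAt β (σ y - c) y
  β_zero : β 0 = 0
  β_per : ∀ y, β (y + 1) = β y
  β_pos : ∀ y ∈ Set.Ioo (0 : ℝ) 1, 0 < β y

/-- change of variables on arbitrary intervals -/
lemma cov' {e : ℝ → ℝ} {e' : ℝ → ℝ} (he : StrictMono e) (hs : Function.Surjective e)
    (hd : ∀ t, HasDerivAt e (e' t) t) (hpos : ∀ t, 0 ≤ e' t) (a b : ℝ) (v : ℝ → ℝ) :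
    ∫ y in (e a)..(e b), v y = ∫ t in a..b, e' t * v (e t) := by
  rcases le_total a b with h | h
  · exact cov he hs hd hpos h v
  · rw [intervalIntegral.integral_symm, cov he hs hd hpos h v, ← intervalIntegral.integral_symm]

namespace Skew

variable (s : Skew)

lemma K_one (t : ℝ) : s.K (t + 1) = s.K t := by
  have h1 : t + 1 = t + 1 / 2 + 1 / 2 := by ring
  rw [h1, s.K_half, s.K_half, neg_neg]

lemma cK_lt (t : ℝ) : |s.c * s.K t| < 1 := by
  rw [abs_mul]
  have h1 := s.c_lt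
  have h2 := s.K_lt t
  have h3 := abs_nonneg (s.c)
  have h4 := abs_nonneg (s.K t)
  nlinarith

/-- the base map of the skew product -/
noncomputable def base : Base where
  w t := 1 + s.c * s.K t
  smooth := contDiff_const.add (contDiff_const.mul s.K_smooth)
  pos t := by linarith [neg_abs_le (s.c * s.K t), s.cK_lt t]
  sum t := by rw [s.K_half]; ring

lemma w_eq (t : ℝ) : s.base.w t = 1 + s.c * s.K t := rfl

/-- two dimensional density -/
noncomputable def W (t y : ℝ) : ℝ := 1 + s.K t * s.σ y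

lemma W_pos (t y : ℝ) : 0 < s.W t y := by
  have h1 := s.K_lt t
  have h2 := s.σ_le y
  have h3 : |s.K t * s.σ y| < 1 := by
    rw [abs_mul]
    nlinarith [abs_nonneg (s.K t), abs_nonneg (s.σ y)]
  unfold W
  linarith [neg_abs_le (s.K t * s.σ y)]

lemma W_sum (t y : ℝ) : s.W t y + s.W (t + 1 / 2) y = 2 := by
  unfold W; rw [s.K_half]; ring

lemma W_cont : Continuous (fun p : ℝ × ℝ => s.W p.1 p.2) := by
  have h1 := s.K_smooth.continuous
  have h2 := s.σ_smooth.continuous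
  unfold W
  fun_prop

/-- fiber inverse branch -/
noncomputable def B (t y : ℝ) : ℝ := y + s.K t * s.β y / s.base.w t

lemma β_cont : Continuous s.β := continuous_iff_continuousAt.2 fun y => (s.β_deriv y).continuousAt

lemma B_cont : Continuous (fun p : ℝ × ℝ => s.B p.1 p.2) := by
  have h1 := s.K_smooth.continuous
  have h2 := s.β_cont
  have h3 := s.base.w_cont
  unfold B
  refine continuous_snd.add (Continuous.div (by fun_prop) (by fun_prop) fun p => (s.base.pos _).ne')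

lemma hasDerivAt_B (t y : ℝ) : HasDerivAt (s.B t) (s.W t y / s.base.w t) y := by
  have h1 : HasDerivAt (s.B t) (1 + s.K t * (s.σ y - s.c) / s.base.w t) y :=
    (hasDerivAt_id' y).add (((s.β_deriv y).const_mul (s.K t)).div_const _)
  have h2 : 1 + s.K t * (s.σ y - s.c) / s.base.w t = s.W t y / s.base.w t := by
    have := (s.base.pos t).ne'
    field_simp
    rw [w_eq, W]; ring
  rwa [h2] at h1

lemma B_deriv_pos (t y : ℝ) : 0 < s.W t y / s.base.w t := div_pos (s.W_pos t y) (s.base.pos t)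

lemma B_strictMono (t : ℝ) : StrictMono (s.B t) :=
  strictMono_of_deriv_pos fun y => by rw [(s.hasDerivAt_B t y).deriv]; exact s.B_deriv_pos t y

lemma B_zero (t : ℝ) : s.B t 0 = 0 := by simp [B, s.β_zero]

lemma B_add_one (t y : ℝ) : s.B t (y + 1) = s.B t y + 1 := by
  simp only [B, s.β_per]; ring

lemma B_one (t : ℝ) : s.B t 1 = 1 := by
  have := s.B_add_one t 0
  simpa [B_zero] using this

lemma B_per (t y : ℝ) : s.B (t + 1) y = s.B t y := by
  simp only [B, s.K_one, s.base.w_per]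

lemma B_cont' (t : ℝ) : Continuous (s.B t) :=
  s.B_cont.comp (continuous_const.prodMk continuous_id)

lemma B_surj (t : ℝ) : Function.Surjective (s.B t) :=
  surjective_of_deg_one (s.B_cont' t) (s.B_add_one t)

lemma B_mem (t : ℝ) {y : ℝ} (hy : y ∈ Set.Icc (0 : ℝ) 1) : s.B t y ∈ Set.Icc (0 : ℝ) 1 := by
  constructor
  · rw [← s.B_zero t]; exact (s.B_strictMono t).monotone hy.1
  · rw [← s.B_one t]; exact (s.B_strictMono t).monotone hy.2

/-- fiber maps: inverse of the branches -/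
noncomputable def Bh (t : ℝ) : ℝ ≃ₜ ℝ :=
  (StrictMono.orderIsoOfSurjective (s.B t) (s.B_strictMono t) (s.B_surj t)).toHomeomorph

@[simp] lemma Bh_apply (t y : ℝ) : s.Bh t y = s.B t y := rfl

/-- the fiber map -/
noncomputable def γ (x y : ℝ) : ℝ := (s.Bh (s.base.α x)).symm y

@[simp] lemma B_γ (x y : ℝ) : s.B (s.base.α x) (s.γ x y) = y :=
  (s.Bh (s.base.α x)).apply_symm_apply y

lemma γ_B (t y : ℝ) : s.γ (s.base.A t) (s.B t y) = y := by
  unfold γ
  rw [Base.α_A]
  exact (s.Bh t).symm_apply_apply y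

lemma γ_add_one_left (x y : ℝ) : s.γ (x + 1) y = s.γ x y := by
  apply (s.B_strictMono (s.base.α (x + 1))).injective
  rw [B_γ, Base.α_add_one, B_per, B_γ]

lemma γ_add_one_right (x y : ℝ) : s.γ x (y + 1) = s.γ x y + 1 := by
  apply (s.B_strictMono (s.base.α x)).injective
  rw [B_γ, B_add_one, B_γ]

/-- the Perron-Frobenius operator of the skew product -/
noncomputable def PP (v : ℝ → ℝ → ℝ) (x y : ℝ) : ℝ :=
  (s.W (x / 2) y * v (s.base.A (x / 2)) (s.B (x / 2) y)
    + s.W (x / 2 + 1 / 2) y * v (s.base.A (x / 2 + 1 / 2)) (s.B (x / 2 + 1 / 2) y)) / 2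

/-- the operator acting on primitives -/
noncomputable def Q (V : ℝ → ℝ → ℝ) (x y : ℝ) : ℝ :=
  (s.base.w (x / 2) * V (s.base.A (x / 2)) (s.B (x / 2) y)
    + s.base.w (x / 2 + 1 / 2) * V (s.base.A (x / 2 + 1 / 2)) (s.B (x / 2 + 1 / 2) y)) / 2

/-- primitive in the second variable -/
noncomputable def J (v : ℝ → ℝ → ℝ) (x y : ℝ) : ℝ := ∫ t in (0 : ℝ)..y, v x t

/-- bounded measurable functions of two variables -/
structure _root_.Pool.Agent.Work.MP_0e2194_an.BM2 (v : ℝ → ℝ → ℝ) : Prop where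
  meas : Measurable (Function.uncurry v)
  bdd : ∃ C, ∀ x y, |v x y| ≤ C

lemma _root_.Pool.Agent.Work.MP_0e2194_an.BM2.section {v : ℝ → ℝ → ℝ} (hv : BM2 v) (x : ℝ) :
    BM (v x) := by
  obtain ⟨C, hC⟩ := hv.bdd
  exact ⟨hv.meas.comp (measurable_const.prodMk measurable_id), C, fun y => hC x y⟩

lemma PP_bm {v : ℝ → ℝ → ℝ} (hv : BM2 v) : BM2 (s.PP v) := by
  obtain ⟨C, hC⟩ := hv.bdd
  have hA := s.base.A_cont.measurable
  have hB := s.B_cont.measurable
  have hW := s.W_cont.measurable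
  refine ⟨?_, C, fun x y => ?_⟩
  · have h1 : Measurable (fun p : ℝ × ℝ => s.W (p.1 / 2) p.2) :=
      hW.comp (g := fun p : ℝ × ℝ => s.W p.1 p.2) (f := fun p : ℝ × ℝ => (p.1 / 2, p.2)) (by fun_prop)
    have h2 : Measurable (fun p : ℝ × ℝ => s.W (p.1 / 2 + 1 / 2) p.2) :=
      hW.comp (g := fun p : ℝ × ℝ => s.W p.1 p.2) (f := fun p : ℝ × ℝ => (p.1 / 2 + 1 / 2, p.2))
        (by fun_prop)
    have h3 : Measurable (fun p : ℝ × ℝ => s.B (p.1 / 2) p.2) :=
      hB.comp (g := fun p : ℝ × ℝ => s.B p.1 p.2) (f := fun p : ℝ × ℝ => (p.1 / 2, p.2)) (by fun_prop)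
    have h4 : Measurable (fun p : ℝ × ℝ => s.B (p.1 / 2 + 1 / 2) p.2) :=
      hB.comp (g := fun p : ℝ × ℝ => s.B p.1 p.2) (f := fun p : ℝ × ℝ => (p.1 / 2 + 1 / 2, p.2))
        (by fun_prop)
    have h5 : Measurable (fun p : ℝ × ℝ => v (s.base.A (p.1 / 2)) (s.B (p.1 / 2) p.2)) :=
      hv.meas.comp ((hA.comp (by fun_prop : Measurable fun p : ℝ × ℝ => p.1 / 2)).prodMk h3)
    have h6 : Measurable (fun p : ℝ × ℝ => v (s.base.A (p.1 / 2 + 1 / 2)) (s.B (p.1 / 2 + 1 / 2) p.2)) :=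
      hv.meas.comp ((hA.comp (by fun_prop : Measurable fun p : ℝ × ℝ => p.1 / 2 + 1 / 2)).prodMk h4)
    exact ((h1.mul h5).add (h2.mul h6)).div_const 2
  · unfold PP
    rw [abs_div, abs_two, div_le_iff₀ two_pos]
    have h1 := s.W_sum (x / 2) y
    have h2 := s.W_pos (x / 2) y
    have h3 := s.W_pos (x / 2 + 1 / 2) y
    refine (abs_add_le _ _).trans ?_
    rw [abs_mul, abs_mul, abs_of_pos h2, abs_of_pos h3]
    have h4 := mul_le_mul_of_nonneg_left (hC (s.base.A (x / 2)) (s.B (x / 2) y)) h2.le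
    have h5 := mul_le_mul_of_nonneg_left (hC (s.base.A (x / 2 + 1 / 2)) (s.B (x / 2 + 1 / 2) y)) h3.le
    have h6 : C * 2 = s.W (x / 2) y * C + s.W (x / 2 + 1 / 2) y * C := by
      rw [← add_mul, h1]; ring
    rw [h6]
    exact add_le_add h4 h5

lemma J_PP {v : ℝ → ℝ → ℝ} (hv : BM2 v) : J (s.PP v) = s.Q (J v) := by
  funext x y
  have key : ∀ t x', ∫ r in (0 : ℝ)..y, s.W t r * v x' (s.B t r)
      = s.base.w t * ∫ r in (0 : ℝ)..(s.B t y), v x' r := by
    intro t x'
    have h1 := cov' (s.B_strictMono t) (s.B_surj t) (s.hasDerivAt_B t)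
      (fun r => (s.B_deriv_pos t r).le) 0 y (v x')
    rw [s.B_zero] at h1
    rw [h1, ← intervalIntegral.integral_const_mul]
    refine intervalIntegral.integral_congr fun r _ => ?_
    have := (s.base.pos t).ne'
    field_simp
  have hi : ∀ t x', IntervalIntegrable (fun r => s.W t r * v x' (s.B t r)) volume 0 y := by
    intro t x'
    refine (BM.mul ⟨?_, 2, fun r => ?_⟩ ((hv.section x').comp (s.B_cont' t).measurable)).intervalIntegrable _ _
    · exact (s.W_cont.comp (continuous_const.prodMk continuous_id)).measurable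
    · rw [abs_of_pos (s.W_pos t r)]
      have := s.W_sum t r
      have := s.W_pos (t + 1 / 2) r
      linarith
  unfold J PP Q
  rw [intervalIntegral.integral_div, intervalIntegral.integral_add (hi _ _) (hi _ _), key, key]

/-- `PP (v ∘ F) = v` -/
lemma PP_comp {v : ℝ → ℝ → ℝ} (hv : ∀ x y, v (x + 1) y = v x y) :
    s.PP (fun x y => v (s.base.φ x) (s.γ x y)) = v := by
  funext x y
  unfold PP
  simp only [Base.φ_A, γ_B]
  have h1 : 2 * (x / 2) = x := by ring
  have h2 : 2 * (x / 2 + 1 / 2) = x + 1 := by ring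
  rw [h1, h2, hv]
  have h3 := s.W_sum (x / 2) y
  linear_combination (v x y / 2) * h3

lemma Q_one (V : ℝ → ℝ → ℝ) (x : ℝ) : s.Q V x 1 = s.base.P (fun x => V x 1) x := by
  unfold Q Base.P
  rw [s.B_one, s.B_one]

lemma J_one_bm {v : ℝ → ℝ → ℝ} (hv : BM2 v) (y : ℝ) : BM (fun x => J v x y) := by
  obtain ⟨C, hC⟩ := hv.bdd
  refine ⟨?_, C * |y|, fun x => ?_⟩
  · have h1 : StronglyMeasurable (Function.uncurry v) := hv.meas.stronglyMeasurable
    unfold J
    simp only [intervalIntegral]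
    exact (h1.integral_prod_right.sub h1.integral_prod_right).measurable
  · have := intervalIntegral.norm_integral_le_of_norm_le_const (a := 0) (b := y) (C := C)
      (f := v x) (fun t _ => hC x t)
    simpa [J] using this

/-- the operator `PP` preserves the integral over the unit square -/
lemma integral_PP {v : ℝ → ℝ → ℝ} (hv : BM2 v) :
    ∫ x in (0 : ℝ)..1, ∫ y in (0 : ℝ)..1, s.PP v x y = ∫ x in (0 : ℝ)..1, ∫ y in (0 : ℝ)..1, v x y := by
  have h1 : ∀ x, ∫ y in (0 : ℝ)..1, s.PP v x y = s.base.P (fun x => J v x 1) x := by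
    intro x
    rw [← s.Q_one, ← s.J_PP hv]
    rfl
  simp_rw [h1]
  rw [s.base.integral_P (J_one_bm hv 1)]
  rfl

end Skew

end Pool.Agent.Work.MP_0e2194_an
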