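import Pool.Agent.Work.MP_0e2194_an.Skew

/-!
# Decay of the martingale variance for the skew product
-/

open MeasureTheory Filter Topology

namespace Pool.Agent.Work.MP_0e2194_an

namespace Skew

variable (s : Skew)

lemma Q_mono {V₁ V₂ : ℝ → ℝ → ℝ} (h : ∀ x, ∀ y ∈ Set.Icc (0 : ℝ) 1, V₁ x y ≤ V₂ x y) :
    ∀ x, ∀ y ∈ Set.Icc (0 : ℝ) 1, s.Q V₁ x y ≤ s.Q V₂ x y := by
  intro x y hy
  unfold Q
  have h1 := mul_le_mul_of_nonneg_left (h (s.base.A (x / 2)) _ (s.B_mem (x / 2) hy))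
    (s.base.pos (x / 2)).le
  have h2 := mul_le_mul_of_nonneg_left (h (s.base.A (x / 2 + 1 / 2)) _ (s.B_mem (x / 2 + 1 / 2) hy))
    (s.base.pos (x / 2 + 1 / 2)).le
  linarith

lemma Qn_mono (n : ℕ) {V₁ V₂ : ℝ → ℝ → ℝ} (h : ∀ x, ∀ y ∈ Set.Icc (0 : ℝ) 1, V₁ x y ≤ V₂ x y) :
    ∀ x, ∀ y ∈ Set.Icc (0 : ℝ) 1, s.Q^[n] V₁ x y ≤ s.Q^[n] V₂ x y := by
  induction n with
  | zero => exact h
  | succ n ih =>
    rw [Function.iterate_succ_apply', Function.iterate_succ_apply']
    exact s.Q_mono ih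

lemma Q_affine (a b : ℝ) (V : ℝ → ℝ → ℝ) (χ : ℝ → ℝ) :
    s.Q (fun x y => a + b * V x y + χ x) = fun x y => a + b * s.Q V x y + s.base.P χ x := by
  funext x y
  unfold Q Base.P
  have h := s.base.sum (x / 2)
  linear_combination (a / 2) * h

lemma Qn_affine (n : ℕ) (a b : ℝ) (V : ℝ → ℝ → ℝ) (χ : ℝ → ℝ) :
    s.Q^[n] (fun x y => a + b * V x y + χ x)
      = fun x y => a + b * s.Q^[n] V x y + s.base.P^[n] χ x := by
  induction n with
  | zero => rfl
  | succ n ih =>
    rw [Function.iterate_succ_apply', ih, Q_affine, Function.iterate_succ_apply',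
      Function.iterate_succ_apply']

lemma Q_sub (V₁ V₂ : ℝ → ℝ → ℝ) :
    s.Q (fun x y => V₁ x y - V₂ x y) = fun x y => s.Q V₁ x y - s.Q V₂ x y := by
  funext x y
  unfold Q
  ring

lemma Qn_sub (n : ℕ) (V₁ V₂ : ℝ → ℝ → ℝ) :
    s.Q^[n] (fun x y => V₁ x y - V₂ x y) = fun x y => s.Q^[n] V₁ x y - s.Q^[n] V₂ x y := by
  induction n with
  | zero => rfl
  | succ n ih =>
    rw [Function.iterate_succ_apply', ih, Q_sub, Function.iterate_succ_apply',
      Function.iterate_succ_apply']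

lemma Q_lin (c : ℝ) : s.Q (fun _ y => c * y) = fun _ y => c * y := by
  funext x y
  unfold Q B
  have h0 := (s.base.pos (x / 2)).ne'
  have h1 := (s.base.pos (x / 2 + 1 / 2)).ne'
  rw [s.K_half]
  have h := s.base.sum (x / 2)
  generalize s.base.w (x / 2) = w0 at h h0 ⊢
  generalize s.base.w (x / 2 + 1 / 2) = w1 at h h1 ⊢
  generalize s.K (x / 2) = k
  field_simp
  linear_combination (c * y) * h

lemma Qn_lin (n : ℕ) (c : ℝ) : s.Q^[n] (fun _ y => c * y) = fun _ y => c * y := by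
  induction n with
  | zero => rfl
  | succ n ih => rw [Function.iterate_succ_apply', ih, Q_lin]

lemma Q_cont {V : ℝ → ℝ → ℝ} (hV : Continuous (fun p : ℝ × ℝ => V p.1 p.2)) :
    Continuous (fun p : ℝ × ℝ => s.Q V p.1 p.2) := by
  have hA := s.base.A_cont
  have hw := s.base.w_cont
  have hB := s.B_cont
  have h1 : Continuous (fun p : ℝ × ℝ => s.B (p.1 / 2) p.2) :=
    hB.comp (g := fun p : ℝ × ℝ => s.B p.1 p.2) (f := fun p : ℝ × ℝ => (p.1 / 2, p.2)) (by fun_prop)
  have h2 : Continuous (fun p : ℝ × ℝ => s.B (p.1 / 2 + 1 / 2) p.2) :=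
    hB.comp (g := fun p : ℝ × ℝ => s.B p.1 p.2) (f := fun p : ℝ × ℝ => (p.1 / 2 + 1 / 2, p.2))
      (by fun_prop)
  have h3 : Continuous (fun p : ℝ × ℝ => V (s.base.A (p.1 / 2)) (s.B (p.1 / 2) p.2)) :=
    hV.comp (g := fun p : ℝ × ℝ => V p.1 p.2)
      (f := fun p : ℝ × ℝ => (s.base.A (p.1 / 2), s.B (p.1 / 2) p.2))
      ((hA.comp (by fun_prop : Continuous fun p : ℝ × ℝ => p.1 / 2)).prodMk h1)
  have h4 : Continuous (fun p : ℝ × ℝ => V (s.base.A (p.1 / 2 + 1 / 2)) (s.B (p.1 / 2 + 1 / 2) p.2)) :=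
    hV.comp (g := fun p : ℝ × ℝ => V p.1 p.2)
      (f := fun p : ℝ × ℝ => (s.base.A (p.1 / 2 + 1 / 2), s.B (p.1 / 2 + 1 / 2) p.2))
      ((hA.comp (by fun_prop : Continuous fun p : ℝ × ℝ => p.1 / 2 + 1 / 2)).prodMk h2)
  unfold Q
  have h5 : Continuous (fun p : ℝ × ℝ => s.base.w (p.1 / 2)) := hw.comp (by fun_prop)
  have h6 : Continuous (fun p : ℝ × ℝ => s.base.w (p.1 / 2 + 1 / 2)) := hw.comp (by fun_prop)
  exact ((h5.mul h3).add (h6.mul h4)).div_const 2

lemma Qn_cont (n : ℕ) {V : ℝ → ℝ → ℝ} (hV : Continuous (fun p : ℝ × ℝ => V p.1 p.2)) :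
    Continuous (fun p : ℝ × ℝ => s.Q^[n] V p.1 p.2) := by
  induction n with
  | zero => exact hV
  | succ n ih => rw [Function.iterate_succ_apply']; exact s.Q_cont ih

lemma Qn_cont' (n : ℕ) {V : ℝ → ℝ → ℝ} (hV : Continuous (fun p : ℝ × ℝ => V p.1 p.2)) (y : ℝ) :
    Continuous (fun x => s.Q^[n] V x y) :=
  (s.Qn_cont n hV).comp (g := fun p : ℝ × ℝ => s.Q^[n] V p.1 p.2)
    (f := fun x : ℝ => (x, y)) (by fun_prop)

/-- the variance function -/
def D (_x y : ℝ) : ℝ := y * (1 - y)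

/-- the variance decrement -/
noncomputable def vv (x y : ℝ) : ℝ := s.K (x / 2) ^ 2 * s.β y ^ 2 / (1 - (s.c * s.K (x / 2)) ^ 2)

lemma cK_sq (t : ℝ) : 0 < 1 - (s.c * s.K t) ^ 2 := by
  have h1 := s.cK_lt t
  have h2 : (s.c * s.K t) ^ 2 = |s.c * s.K t| ^ 2 := (sq_abs _).symm
  rw [h2]
  nlinarith [abs_nonneg (s.c * s.K t)]

lemma vv_lower (x y : ℝ) : s.K (x / 2) ^ 2 * s.β y ^ 2 ≤ s.vv x y := by
  unfold vv
  rw [le_div_iff₀ (s.cK_sq _)]
  have h1 : 0 ≤ s.K (x / 2) ^ 2 * s.β y ^ 2 := by positivity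
  nlinarith [sq_nonneg (s.c * s.K (x / 2))]

lemma vv_nonneg (x y : ℝ) : 0 ≤ s.vv x y := le_trans (by positivity) (s.vv_lower x y)

lemma vv_cont : Continuous (fun p : ℝ × ℝ => s.vv p.1 p.2) := by
  have h1 := s.K_smooth.continuous
  have h2 := s.β_cont
  unfold vv
  exact Continuous.div (by fun_prop) (by fun_prop) fun p => (s.cK_sq _).ne'

lemma D_cont : Continuous (fun p : ℝ × ℝ => D p.1 p.2) := by
  unfold D; fun_prop

lemma Q_D : s.Q D = fun x y => D x y - s.vv x y := by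
  funext x y
  have h0 := (s.base.pos (x / 2)).ne'
  have h1 := (s.base.pos (x / 2 + 1 / 2)).ne'
  have h2 := (s.cK_sq (x / 2)).ne'
  unfold Q D vv B
  rw [w_eq] at h0
  rw [w_eq, s.K_half] at h1
  rw [w_eq, w_eq, s.K_half]
  set k := s.K (x / 2)
  have h3 : 1 + s.c * -k = 1 - s.c * k := by ring
  rw [h3] at h1 ⊢
  have h4 : 1 - (s.c * k) ^ 2 = (1 + s.c * k) * (1 - s.c * k) := by ring
  rw [h4]
  field_simp
  ring

/-- the fiber variance decays -/
theorem decay {y : ℝ} (hy : y ∈ Set.Icc (0 : ℝ) 1) :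
    Tendsto (fun n : ℕ => ∫ x in (0 : ℝ)..1, s.Q^[n] D x y) atTop (𝓝 0) := by
  set d : ℕ → ℝ := fun n => ∫ x in (0 : ℝ)..1, s.Q^[n] D x y with hd
  set a : ℕ → ℝ := fun n => ∫ x in (0 : ℝ)..1, s.Q^[n] s.vv x y with ha
  have hrec : ∀ n, d (n + 1) = d n - a n := by
    intro n
    simp only [hd, ha]
    rw [← intervalIntegral.integral_sub ((s.Qn_cont' n D_cont y).intervalIntegrable _ _)
      ((s.Qn_cont' n s.vv_cont y).intervalIntegrable _ _)]
    rw [Function.iterate_succ_apply, Q_D, Qn_sub]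
  have hzero : ∀ n : ℕ, s.Q^[n] (fun _ _ => (0 : ℝ)) = fun _ _ => 0 := by
    intro n
    have := s.Qn_lin n 0
    simpa using this
  have hdn : ∀ n, 0 ≤ d n := by
    intro n
    refine intervalIntegral.integral_nonneg zero_le_one fun x _ => ?_
    have := s.Qn_mono n (V₁ := fun _ _ => 0) (V₂ := D) (fun x y hy => by
      unfold D; exact mul_nonneg hy.1 (by linarith [hy.2])) x y hy
    rwa [hzero] at this
  have han : ∀ n, 0 ≤ a n := by
    intro n
    refine intervalIntegral.integral_nonneg zero_le_one fun x _ => ?_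
    have := s.Qn_mono n (V₁ := fun _ _ => 0) (V₂ := s.vv) (fun x y _ => s.vv_nonneg x y) x y hy
    rwa [hzero] at this
  have hanti : Antitone d := antitone_nat_of_succ_le fun n => by
    rw [hrec]; linarith [han n]
  have hconv : Tendsto d atTop (𝓝 (⨅ n, d n)) :=
    tendsto_atTop_ciInf hanti ⟨0, by rintro _ ⟨n, rfl⟩; exact hdn n⟩
  have hconv' : Tendsto (fun n => d (n + 1)) atTop (𝓝 (⨅ n, d n)) :=
    (tendsto_add_atTop_iff_nat 1).2 hconv
  have ha0 : Tendsto a atTop (𝓝 0) := by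
    have h1 := hconv.sub hconv'
    rw [sub_self] at h1
    refine h1.congr fun n => ?_
    rw [hrec]; ring
  -- compactness
  obtain ⟨M, hM, hM'⟩ := periodic_bdd s.β_cont s.β_per
  -- the auxiliary functions
  set χ : ℕ → ℝ → ℝ := fun k x => max 0 (1 - ((k : ℝ) + 1) * s.K (x / 2) ^ 2) with hχ
  have hKc := s.K_smooth.continuous
  have hχc : ∀ k, Continuous (χ k) := by
    intro k
    simp only [hχ]
    fun_prop
  have hχ0 : ∀ k x, 0 ≤ χ k x := fun k x => le_max_left _ _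
  have hχ1 : ∀ k x, χ k x ≤ 1 := fun k x => max_le zero_le_one (by
    have : 0 ≤ ((k : ℝ) + 1) * s.K (x / 2) ^ 2 := by positivity
    linarith)
  have hχbm : ∀ k, BM (χ k) := fun k => ⟨(hχc k).measurable, 1, fun x => by
    rw [abs_of_nonneg (hχ0 k x)]; exact hχ1 k x⟩
  have hχlim : Tendsto (fun k => ∫ x in (0 : ℝ)..1, χ k x) atTop (𝓝 0) := by
    have h1 := intervalIntegral.tendsto_integral_filter_of_dominated_convergence
      (μ := volume) (a := 0) (b := 1) (l := atTop) (F := χ) (f := fun _ => (0 : ℝ)) (fun _ => (1 : ℝ))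
      (Eventually.of_forall fun k => (hχc k).aestronglyMeasurable)
      (Eventually.of_forall fun k => Eventually.of_forall fun x _ => by
        rw [Real.norm_eq_abs, abs_of_nonneg (hχ0 k x)]; exact hχ1 k x)
      (by simp)
      (by
        filter_upwards [s.K_ne] with x hx _
        have hpos : 0 < s.K (x / 2) ^ 2 := by positivity
        obtain ⟨k0, hk0⟩ := exists_nat_gt (1 / s.K (x / 2) ^ 2)
        refine tendsto_const_nhds.congr' ?_
        filter_upwards [eventually_ge_atTop k0] with k hk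
        symm
        apply max_eq_left
        have h2 : (k0 : ℝ) ≤ k := by exact_mod_cast hk
        rw [div_lt_iff₀ hpos] at hk0
        nlinarith)
    simpa using h1
  rw [Metric.tendsto_atTop]
  intro ε hε
  set η : ℝ := ε / 4 with hη
  have hη0 : 0 < η := by rw [hη]; linarith
  obtain ⟨C, hC0, hC⟩ : ∃ C, 0 < C ∧ ∀ y ∈ Set.Icc (0 : ℝ) 1, y * (1 - y) ≤ η + C * s.β y ^ 2 := by
    have hcomp : IsCompact (Set.Icc (0 : ℝ) 1 ∩ {y | η ≤ y * (1 - y)}) :=
      isCompact_Icc.inter_right (isClosed_le continuous_const (by fun_prop))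
    obtain ⟨μ, hμ, hμ'⟩ := hcomp.exists_forall_le' (f := fun y => s.β y ^ 2)
      (s.β_cont.pow 2).continuousOn (a := 0) (by
        rintro y ⟨hy1, hy2⟩
        have hy2' : η ≤ y * (1 - y) := hy2
        have h1 : 0 < y := by
          rcases hy1.1.lt_or_eq with h | h
          · exact h
          · rw [← h] at hy2'; simp at hy2'; linarith
        have h2 : y < 1 := by
          rcases hy1.2.lt_or_eq with h | h
          · exact h
          · rw [h] at hy2'; simp at hy2'; linarith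
        have := s.β_pos y ⟨h1, h2⟩
        positivity)
    refine ⟨1 / μ, by positivity, fun y hy => ?_⟩
    by_cases h : η ≤ y * (1 - y)
    · have h1 := hμ' y ⟨hy, h⟩
      have h2 : 1 ≤ 1 / μ * s.β y ^ 2 := by
        rw [div_mul_eq_mul_div, one_mul, le_div_iff₀ hμ]; linarith
      have h3 : y * (1 - y) ≤ 1 := by nlinarith [hy.1, hy.2]
      linarith
    · have h2 : 0 ≤ 1 / μ * s.β y ^ 2 := by positivity
      linarith [not_le.1 h]
  obtain ⟨k, hk⟩ : ∃ k, ∫ x in (0 : ℝ)..1, χ k x < ε / (4 * (C * M ^ 2)) :=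
    (hχlim.eventually_lt_const (by positivity)).exists
  obtain ⟨N, hN⟩ := eventually_atTop.1
    (ha0.eventually_lt_const (show (0 : ℝ) < ε / (4 * (C * ((k : ℝ) + 1))) by positivity))
  refine ⟨N, fun n hn => ?_⟩
  have hpt : ∀ x, ∀ y ∈ Set.Icc (0 : ℝ) 1,
      D x y ≤ η + (C * ((k : ℝ) + 1)) * s.vv x y + (C * M ^ 2) * χ k x := by
    intro x y hy
    have h1 := hC y hy
    have h2 : s.β y ^ 2 ≤ ((k : ℝ) + 1) * s.vv x y + M ^ 2 * χ k x := by
      have h3 := s.vv_lower x y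
      have h4 : s.β y ^ 2 ≤ M ^ 2 := by
        have := hM' y
        rw [← sq_abs]
        exact pow_le_pow_left₀ (abs_nonneg _) this 2
      have h5 : 1 - ((k : ℝ) + 1) * s.K (x / 2) ^ 2 ≤ χ k x := le_max_right _ _
      have h6 := hχ0 k x
      have hb0 : 0 ≤ s.β y ^ 2 := by positivity
      have h7 : s.β y ^ 2 * (1 - ((k : ℝ) + 1) * s.K (x / 2) ^ 2) ≤ s.β y ^ 2 * χ k x :=
        mul_le_mul_of_nonneg_left h5 hb0
      have h8 : s.β y ^ 2 * χ k x ≤ M ^ 2 * χ k x := mul_le_mul_of_nonneg_right h4 h6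
      have h9 : ((k : ℝ) + 1) * (s.K (x / 2) ^ 2 * s.β y ^ 2) ≤ ((k : ℝ) + 1) * s.vv x y :=
        mul_le_mul_of_nonneg_left h3 (by positivity)
      nlinarith
    have h3 : C * s.β y ^ 2 ≤ C * (((k : ℝ) + 1) * s.vv x y + M ^ 2 * χ k x) :=
      mul_le_mul_of_nonneg_left h2 hC0.le
    unfold D
    linarith
  have hQ := s.Qn_mono n hpt
  rw [Qn_affine] at hQ
  have hPχ : ∀ x, s.base.P^[n] (fun x => (C * M ^ 2) * χ k x) x
      = (C * M ^ 2) * s.base.P^[n] (χ k) x := by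
    have : ∀ n, s.base.P^[n] (fun x => (C * M ^ 2) * χ k x)
      = fun x => (C * M ^ 2) * s.base.P^[n] (χ k) x := by
      intro n
      induction n with
      | zero => rfl
      | succ n ih =>
        rw [Function.iterate_succ_apply', ih, Function.iterate_succ_apply']
        funext x
        unfold Base.P
        ring
    intro x
    rw [this]
  have hint : d n ≤ η + (C * ((k : ℝ) + 1)) * a n + (C * M ^ 2) * ∫ x in (0 : ℝ)..1, χ k x := by
    have h1 : d n ≤ ∫ x in (0 : ℝ)..1, (η + (C * ((k : ℝ) + 1)) * s.Q^[n] s.vv x y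
        + (C * M ^ 2) * s.base.P^[n] (χ k) x) := by
      refine intervalIntegral.integral_mono_on zero_le_one
        ((s.Qn_cont' n D_cont y).intervalIntegrable _ _) ?_ fun x _ => ?_
      · refine IntervalIntegrable.add (IntervalIntegrable.add (by simp) ?_) ?_
        · exact ((s.Qn_cont' n s.vv_cont y).intervalIntegrable _ _).const_mul _
        · exact ((s.base.iterate_P_bm (hχbm k) n).intervalIntegrable _ _).const_mul _
      · have := hQ x y hy
        beta_reduce at this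
        rwa [hPχ] at this
    rw [intervalIntegral.integral_add, intervalIntegral.integral_add,
      intervalIntegral.integral_const_mul, intervalIntegral.integral_const_mul,
      s.base.integral_iterate_P (hχbm k)] at h1
    · simpa using h1
    · simp
    · exact ((s.Qn_cont' n s.vv_cont y).intervalIntegrable _ _).const_mul _
    · exact IntervalIntegrable.add (by simp)
        (((s.Qn_cont' n s.vv_cont y).intervalIntegrable _ _).const_mul _)
    · exact ((s.base.iterate_P_bm (hχbm k) n).intervalIntegrable _ _).const_mul _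
  have h2 : (C * ((k : ℝ) + 1)) * a n ≤ ε / 4 := by
    have h3 := (hN n hn).le
    have h4 := mul_le_mul_of_nonneg_left h3 (show 0 ≤ C * ((k : ℝ) + 1) by positivity)
    have h5 : C * ((k : ℝ) + 1) * (ε / (4 * (C * ((k : ℝ) + 1)))) = ε / 4 := by
      field_simp
    linarith
  have h3 : (C * M ^ 2) * ∫ x in (0 : ℝ)..1, χ k x ≤ ε / 4 := by
    have h4 := mul_le_mul_of_nonneg_left hk.le (show 0 ≤ C * M ^ 2 by positivity)
    have h5 : C * M ^ 2 * (ε / (4 * (C * M ^ 2))) = ε / 4 := by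
      field_simp
    linarith
  rw [Real.dist_eq, sub_zero, abs_of_nonneg (hdn n)]
  have : d n ≤ ε / 4 + ε / 4 + ε / 4 := by linarith
  exact lt_of_le_of_lt this (by linarith)

end Skew

end Pool.Agent.Work.MP_0e2194_an
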