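import Pool.Agent.Work.MP_0e2194_an.Final

/-!
# Vectorwise exponents (the Oseledets form of the statement)
-/

open MeasureTheory Filter Topology Real

namespace Pool.Agent.Work.MP_0e2194_an

/-- growth of every vector under a triangular derivative cocycle -/
theorem growth_vec {F : (Fin 2 → ℝ) → (Fin 2 → ℝ)} (hF : Differentiable ℝ F)
    {p r q : (Fin 2 → ℝ) → ℝ} (hp : ∀ z, 0 < p z) (hq : ∀ z, 0 < q z) {R : ℝ} (hR : ∀ z, |r z| ≤ R)
    (h0 : ∀ z v, fderiv ℝ F z v 0 = p z * v 0)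
    (h1 : ∀ z v, fderiv ℝ F z v 1 = r z * v 0 + q z * v 1) {a b : ℝ} (hab : a ≤ b)
    {z : Fin 2 → ℝ}
    (hb : Tendsto (fun n : ℕ => birkhoffSum F (fun z => Real.log (p z)) n z / n) atTop (𝓝 b))
    (ha : Tendsto (fun n : ℕ => birkhoffSum F (fun z => Real.log (q z)) n z / n) atTop (𝓝 a)) :
    (∀ v : Fin 2 → ℝ, v 0 ≠ 0 →
      Tendsto (fun n : ℕ => 1 / (n : ℝ) * Real.log ‖fderiv ℝ (F^[n]) z v‖) atTop (𝓝 b)) ∧
    (∀ v : Fin 2 → ℝ, v 0 = 0 → v ≠ 0 →
      Tendsto (fun n : ℕ => 1 / (n : ℝ) * Real.log ‖fderiv ℝ (F^[n]) z v‖) atTop (𝓝 a)) := by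
  have hnorm := (growth hF hp hq hR h0 h1 hab hb ha).1
  set P : ℕ → ℝ := fun n => ∏ k ∈ Finset.range n, p (F^[k] z) with hPdef
  set V : ℕ → ℝ := fun n => ∏ k ∈ Finset.range n, q (F^[k] z) with hVdef
  set c : ℕ → ℝ := offd F p r q z with hcdef
  have hPpos : ∀ n, 0 < P n := fun n => Finset.prod_pos fun k _ => hp _
  have hVpos : ∀ n, 0 < V n := fun n => Finset.prod_pos fun k _ => hq _
  have hPlog : ∀ n, Real.log (P n) = birkhoffSum F (fun z => Real.log (p z)) n z := by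
    intro n
    simp only [hPdef, birkhoffSum]
    exact Real.log_prod fun k _ => (hp _).ne'
  have hVlog : ∀ n, Real.log (V n) = birkhoffSum F (fun z => Real.log (q z)) n z := by
    intro n
    simp only [hVdef, birkhoffSum]
    exact Real.log_prod fun k _ => (hq _).ne'
  have hD : ∀ n, (∀ v, fderiv ℝ (F^[n]) z v 0 = P n * v 0) ∧
      ∀ v, fderiv ℝ (F^[n]) z v 1 = c n * v 0 + V n * v 1 := by
    intro n
    induction n with
    | zero =>
      have : fderiv ℝ (F^[0]) z = ContinuousLinearMap.id ℝ _ := by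
        rw [Function.iterate_zero]; exact fderiv_id
      rw [this]
      exact ⟨fun v => by simp [hPdef], fun v => by simp [hVdef, hcdef, offd]⟩
    | succ n ih =>
      have hFn : Differentiable ℝ (F^[n]) := hF.iterate n
      have hchain : fderiv ℝ (F^[n + 1]) z = (fderiv ℝ F (F^[n] z)).comp (fderiv ℝ (F^[n]) z) := by
        rw [Function.iterate_succ']
        exact fderiv_comp z (hF _) (hFn z)
      rw [hchain]
      refine ⟨fun v => ?_, fun v => ?_⟩
      · rw [ContinuousLinearMap.comp_apply, h0, ih.1]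
        simp only [hPdef, Finset.prod_range_succ]; ring
      · rw [ContinuousLinearMap.comp_apply, h1, ih.1, ih.2]
        simp only [hVdef, hPdef, hcdef, offd, Finset.prod_range_succ]; ring
  have hconst : ∀ K : ℝ, Tendsto (fun n : ℕ => 1 / (n : ℝ) * K) atTop (𝓝 0) := by
    intro K
    have := (tendsto_one_div_atTop_nhds_zero_nat (𝕜 := ℝ)).mul_const K
    rwa [zero_mul] at this
  refine ⟨fun v hv => ?_, fun v hv hv0 => ?_⟩
  · have hv' : 0 < |v 0| := abs_pos.2 hv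
    have hvn : 0 < ‖v‖ := hv'.trans_le (norm_le_pi_norm v 0)
    have hlow : ∀ n, P n * |v 0| ≤ ‖fderiv ℝ (F^[n]) z v‖ := by
      intro n
      have h4 := norm_le_pi_norm (fderiv ℝ (F^[n]) z v) 0
      rw [(hD n).1, Real.norm_eq_abs, abs_mul, abs_of_pos (hPpos n)] at h4
      exact h4
    have hpos : ∀ n, 0 < ‖fderiv ℝ (F^[n]) z v‖ := fun n => (mul_pos (hPpos n) hv').trans_le (hlow n)
    have hup : ∀ n, ‖fderiv ℝ (F^[n]) z v‖ ≤ ‖fderiv ℝ (F^[n]) z‖ * ‖v‖ := fun n =>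
      (fderiv ℝ (F^[n]) z).le_opNorm v
    have hnpos : ∀ n, 0 < ‖fderiv ℝ (F^[n]) z‖ := by
      intro n
      by_contra hneg
      have h5 : ‖fderiv ℝ (F^[n]) z‖ = 0 := le_antisymm (not_lt.1 hneg) (norm_nonneg _)
      have h6 := hup n
      rw [h5, zero_mul] at h6
      exact absurd (hpos n) (not_lt.2 h6)
    have t1 : Tendsto (fun n : ℕ => 1 / (n : ℝ) * Real.log (P n * |v 0|)) atTop (𝓝 b) := by
      have h5 := hb.add (hconst (Real.log |v 0|))
      rw [add_zero] at h5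
      refine h5.congr fun n => ?_
      rw [Real.log_mul (hPpos n).ne' hv'.ne', hPlog]
      ring
    have t2 : Tendsto (fun n : ℕ => 1 / (n : ℝ) * Real.log (‖fderiv ℝ (F^[n]) z‖ * ‖v‖)) atTop
        (𝓝 b) := by
      have h5 := hnorm.add (hconst (Real.log ‖v‖))
      rw [add_zero] at h5
      refine h5.congr fun n => ?_
      rw [Real.log_mul (hnpos n).ne' hvn.ne']
      ring
    refine tendsto_of_tendsto_of_tendsto_of_le_of_le t1 t2 (fun n => ?_) (fun n => ?_)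
    · exact mul_le_mul_of_nonneg_left
        (Real.log_le_log (mul_pos (hPpos n) hv') (hlow n)) (by positivity)
    · exact mul_le_mul_of_nonneg_left (Real.log_le_log (hpos n) (hup n)) (by positivity)
  · have hv1 : v 1 ≠ 0 := by
      intro h
      apply hv0
      funext i
      fin_cases i
      · exact hv
      · exact h
    have hv1' : 0 < |v 1| := abs_pos.2 hv1
    have he : ∀ n, ‖fderiv ℝ (F^[n]) z v‖ = V n * |v 1| := by
      intro n
      apply le_antisymm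
      · rw [pi_norm_le_iff_of_nonneg (by have := hVpos n; positivity)]
        intro i
        fin_cases i
        · show ‖fderiv ℝ (F^[n]) z v 0‖ ≤ _
          rw [(hD n).1, hv, mul_zero, norm_zero]
          have := hVpos n
          positivity
        · show ‖fderiv ℝ (F^[n]) z v 1‖ ≤ _
          rw [(hD n).2, hv, mul_zero, zero_add, Real.norm_eq_abs, abs_mul, abs_of_pos (hVpos n)]
      · have h4 := norm_le_pi_norm (fderiv ℝ (F^[n]) z v) 1
        rw [(hD n).2, hv, mul_zero, zero_add, Real.norm_eq_abs, abs_mul, abs_of_pos (hVpos n)] at h4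
        exact h4
    have h5 := ha.add (hconst (Real.log |v 1|))
    rw [add_zero] at h5
    refine h5.congr fun n => ?_
    rw [he, Real.log_mul (hVpos n).ne' hv1'.ne', hVlog]
    ring

namespace TriSys

variable {a b : ℝ} (S : TriSys a b)

theorem ae_growth_vec (hab : a ≤ b) : ∀ᵐ x : Fin 2 → ℝ,
    (∀ v : Fin 2 → ℝ, v 0 ≠ 0 →
      Tendsto (fun n : ℕ => 1 / (n : ℝ) * Real.log ‖fderiv ℝ (S.F^[n]) x v‖) atTop (𝓝 b)) ∧
    (∀ v : Fin 2 → ℝ, v 0 = 0 → v ≠ 0 →
      Tendsto (fun n : ℕ => 1 / (n : ℝ) * Real.log ‖fderiv ℝ (S.F^[n]) x v‖) atTop (𝓝 a)) := by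
  obtain ⟨C1, hC1⟩ := S.op_bdd
  obtain ⟨C2, hC2⟩ := S.oq_bdd
  have h1 := birkhoff S.ergodic_f S.op_meas hC1
  have h2 := birkhoff S.ergodic_f S.oq_meas hC2
  rw [S.int_op] at h1
  rw [S.int_oq] at h2
  obtain ⟨R, hR⟩ := periodic_bdd2 (f := fun z => S.G' z (1, 0)) (S.G'_cont.clm_apply continuous_const)
    (fun x y => by simp only [S.G'_per1]) (fun x y => by simp only [S.G'_per2])
  filter_upwards [ae_lift (h1.and h2)] with x hx
  rw [← proj_eq] at hx
  obtain ⟨hx1, hx2⟩ := hx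
  have hd : Differentiable ℝ S.F := S.F_smooth.differentiable (by simp)
  have hfd : ∀ z, (∀ v, fderiv ℝ S.F z v 0 = S.p (z 0) * v 0) ∧
      ∀ v, fderiv ℝ S.F z v 1 = S.G' (z 0, z 1) (1, 0) * v 0 + S.q (z 0) (z 1) * v 1 := by
    intro z
    obtain ⟨D, hD, hD0, hD1⟩ := S.F_hasFDerivAt z
    rw [hD.fderiv]
    exact ⟨hD0, hD1⟩
  refine growth_vec hd (p := fun z => S.p (z 0)) (q := fun z => S.q (z 0) (z 1))
    (r := fun z => S.G' (z 0, z 1) (1, 0)) (fun z => S.p_pos _) (fun z => S.q_pos _ _)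
    (R := R) (fun z => hR _) (fun z => (hfd z).1) (fun z => (hfd z).2) hab ?_ ?_
  · refine hx1.congr fun n => ?_
    congr 1
    unfold birkhoffSum
    refine Finset.sum_congr rfl fun k _ => ?_
    rw [f_iterate_proj, proj_eq, op_pt]
  · refine hx2.congr fun n => ?_
    congr 1
    unfold birkhoffSum
    refine Finset.sum_congr rfl fun k _ => ?_
    rw [f_iterate_proj, proj_eq, oq_pt]

/-- the Jacobian is positive everywhere -/
lemma det_pos (z : Fin 2 → ℝ) : 0 < (fderiv ℝ S.F z).det := by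
  obtain ⟨D, hD, hD0, hD1⟩ := S.F_hasFDerivAt z
  rw [hD.fderiv, det_tri hD0 hD1]
  exact mul_pos (S.p_pos _) (S.q_pos _ _)

lemma det_iterate_pos (m : ℕ) (z : Fin 2 → ℝ) : 0 < (fderiv ℝ (S.F^[m]) z).det := by
  have hd : Differentiable ℝ S.F := S.F_smooth.differentiable (by simp)
  induction m with
  | zero =>
    have : fderiv ℝ (S.F^[0]) z = ContinuousLinearMap.id ℝ _ := by
      rw [Function.iterate_zero]; exact fderiv_id
    rw [this]
    have h : (ContinuousLinearMap.id ℝ (Fin 2 → ℝ)).det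
        = LinearMap.det (LinearMap.id : (Fin 2 → ℝ) →ₗ[ℝ] (Fin 2 → ℝ)) := rfl
    rw [h, LinearMap.det_id]
    exact one_pos
  | succ m ih =>
    have hFn : Differentiable ℝ (S.F^[m]) := hd.iterate m
    have hchain : fderiv ℝ (S.F^[m + 1]) z
        = (fderiv ℝ S.F (S.F^[m] z)).comp (fderiv ℝ (S.F^[m]) z) := by
      rw [Function.iterate_succ']
      exact fderiv_comp z (hd _) (hFn z)
    rw [hchain]
    have h : ∀ D E : (Fin 2 → ℝ) →L[ℝ] (Fin 2 → ℝ), (D.comp E).det = D.det * E.det := by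
      intro D E
      show LinearMap.det ((D.comp E : (Fin 2 → ℝ) →L[ℝ] (Fin 2 → ℝ)) : (Fin 2 → ℝ) →ₗ[ℝ] (Fin 2 → ℝ))
        = LinearMap.det (D : (Fin 2 → ℝ) →ₗ[ℝ] (Fin 2 → ℝ)) * LinearMap.det (E : (Fin 2 → ℝ) →ₗ[ℝ] (Fin 2 → ℝ))
      rw [← LinearMap.det_comp]
      rfl
    rw [h]
    exact mul_pos (S.det_pos _) ih

/-- the vectorwise statement for powers of a system -/
theorem main_vec {a b : ℝ} (S : TriSys a b) (hab : a ≤ b) {m : ℕ} (hm : 1 ≤ m) :
    ∃ (f : (Fin 2 → UnitAddCircle) → (Fin 2 → UnitAddCircle)) (F : (Fin 2 → ℝ) → (Fin 2 → ℝ)),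
      ContDiff ℝ (⊤ : ℕ∞) F ∧
      (∀ x : Fin 2 → ℝ,
        f (fun i => ((x i : ℝ) : UnitAddCircle)) = fun i => ((F x i : ℝ) : UnitAddCircle)) ∧
      (∀ x : Fin 2 → ℝ, 0 < (fderiv ℝ F x).det) ∧
      MeasurePreserving f volume volume ∧
      (∀ k : ℕ, 1 ≤ k → Ergodic (f^[k]) volume) ∧
      ∀ᵐ x ∂(volume : Measure (Fin 2 → ℝ)),
        (∀ v : Fin 2 → ℝ, v 0 ≠ 0 →
          Tendsto (fun n : ℕ => 1 / (n : ℝ) * Real.log ‖fderiv ℝ (F^[n]) x v‖) atTop (𝓝 (m * b))) ∧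
        (∀ v : Fin 2 → ℝ, v 0 = 0 → v ≠ 0 →
          Tendsto (fun n : ℕ => 1 / (n : ℝ) * Real.log ‖fderiv ℝ (F^[n]) x v‖) atTop (𝓝 (m * a))) := by
  have hm0 : (0 : ℝ) < m := by exact_mod_cast hm
  refine ⟨S.f^[m], S.F^[m], S.F_iterate_smooth m, fun x => S.f_iterate_proj m x,
    S.det_iterate_pos m, (S.erg m hm).toMeasurePreserving, fun k hk => ?_, ?_⟩
  · rw [← Function.iterate_mul]
    exact S.erg (m * k) (Nat.mul_pos hm hk)
  filter_upwards [S.ae_growth_vec hab] with x hx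
  have hsub : Tendsto (fun n : ℕ => m * n) atTop atTop := tendsto_id.const_mul_atTop' (by omega)
  have key : ∀ (u : ℕ → ℝ) (l : ℝ), Tendsto (fun n : ℕ => 1 / (n : ℝ) * u n) atTop (𝓝 l) →
      Tendsto (fun n : ℕ => 1 / (n : ℝ) * u (m * n)) atTop (𝓝 (m * l)) := by
    intro u l hu
    have h1 := (hu.comp hsub).const_mul (m : ℝ)
    refine h1.congr' ?_
    filter_upwards [eventually_gt_atTop 0] with n hn
    have hn0 : (0 : ℝ) < n := by exact_mod_cast hn
    simp only [Function.comp]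
    push_cast
    field_simp
  constructor
  · intro v hv
    have h1 := key _ _ (hx.1 v hv)
    refine h1.congr fun n => ?_
    rw [Function.iterate_mul]
  · intro v hv hv0
    have h1 := key _ _ (hx.2 v hv hv0)
    refine h1.congr fun n => ?_
    rw [Function.iterate_mul]

end TriSys

theorem final_vec {a b : ℝ} (hab : a ≤ b) (hpos : 0 < a + b) :
    ∃ (f : (Fin 2 → UnitAddCircle) → (Fin 2 → UnitAddCircle)) (F : (Fin 2 → ℝ) → (Fin 2 → ℝ)),
      ContDiff ℝ (⊤ : ℕ∞) F ∧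
      (∀ x : Fin 2 → ℝ,
        f (fun i => ((x i : ℝ) : UnitAddCircle)) = fun i => ((F x i : ℝ) : UnitAddCircle)) ∧
      (∀ x : Fin 2 → ℝ, 0 < (fderiv ℝ F x).det) ∧
      MeasurePreserving f volume volume ∧
      (∀ k : ℕ, 1 ≤ k → Ergodic (f^[k]) volume) ∧
      ∀ᵐ x ∂(volume : Measure (Fin 2 → ℝ)),
        (∀ v : Fin 2 → ℝ, v 0 ≠ 0 →
          Tendsto (fun n : ℕ => 1 / (n : ℝ) * Real.log ‖fderiv ℝ (F^[n]) x v‖) atTop (𝓝 b)) ∧
        (∀ v : Fin 2 → ℝ, v 0 = 0 → v ≠ 0 →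
          Tendsto (fun n : ℕ => 1 / (n : ℝ) * Real.log ‖fderiv ℝ (F^[n]) x v‖) atTop (𝓝 a)) := by
  have hl2 : 0 < log 2 := log_pos one_lt_two
  obtain ⟨m, hm⟩ := exists_nat_gt (b / log 2)
  have hb0 : 0 < b := by linarith
  have hm0 : (0 : ℝ) < m := lt_trans (by positivity) hm
  have hm1 : 1 ≤ m := by exact_mod_cast (show 0 < m by exact_mod_cast hm0)
  have hbm : b / m < log 2 := by
    rw [div_lt_iff₀ hm0]
    rw [div_lt_iff₀ hl2] at hm
    linarith
  obtain ⟨S⟩ := exists_system (a := a / m) (b := b / m) (div_le_div_of_nonneg_right hab hm0.le)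
    (by rw [← add_div]; positivity) hbm
  have h := TriSys.main_vec S (div_le_div_of_nonneg_right hab hm0.le) hm1
  have e1 : (m : ℝ) * (a / m) = a := by field_simp
  have e2 : (m : ℝ) * (b / m) = b := by field_simp
  rw [e1, e2] at h
  exact h

end Pool.Agent.Work.MP_0e2194_an
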