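import Pool.Agent.Work.MP_0e2194_an.Exact

/-!
# Circle and torus maps given by lifts
-/

open MeasureTheory Filter Topology

namespace Pool.Agent.Work.MP_0e2194_an

/-- a measurable section of the projection to the circle -/
noncomputable def rep (z : UnitAddCircle) : ℝ := (AddCircle.measurableEquivIco 1 0 z : ℝ)

lemma measurable_rep : Measurable rep :=
  measurable_subtype_coe.comp (AddCircle.measurableEquivIco 1 0).measurable

lemma coe_rep (z : UnitAddCircle) : ((rep z : ℝ) : UnitAddCircle) = z := AddCircle.coe_equivIco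

lemma coe_eq_iff (x y : ℝ) : (x : UnitAddCircle) = (y : UnitAddCircle) ↔ ∃ k : ℤ, x = y + k := by
  constructor
  · intro h
    have h1 : ((x - y : ℝ) : UnitAddCircle) = 0 := by
      rw [AddCircle.coe_sub, h, sub_self]
    rw [AddCircle.coe_eq_zero_iff] at h1
    obtain ⟨n, hn⟩ := h1
    refine ⟨n, ?_⟩
    simp at hn
    linarith
  · rintro ⟨k, rfl⟩
    rw [AddCircle.coe_add]
    have : ((k : ℝ) : UnitAddCircle) = 0 := by
      rw [AddCircle.coe_eq_zero_iff]
      exact ⟨k, by simp⟩
    rw [this, add_zero]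

lemma rep_coe (x : ℝ) : ∃ k : ℤ, rep (x : UnitAddCircle) = x + k :=
  (coe_eq_iff _ _).1 (coe_rep _)

lemma measurable_coe : Measurable (fun x : ℝ => (x : UnitAddCircle)) := AddCircle.measurable_mk'

/-- the circle map with lift `F` -/
noncomputable def circ (F : ℝ → ℝ) (z : UnitAddCircle) : UnitAddCircle := ((F (rep z) : ℝ) : UnitAddCircle)

lemma measurable_circ {F : ℝ → ℝ} (hF : Measurable F) : Measurable (circ F) :=
  measurable_coe.comp (hF.comp measurable_rep)

lemma lift_int {F : ℝ → ℝ} (hF : ∀ x, ∃ k : ℤ, F (x + 1) = F x + k) (x : ℝ) (n : ℤ) :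
    ∃ k : ℤ, F (x + n) = F x + k := by
  induction n using Int.induction_on generalizing x with
  | zero => exact ⟨0, by simp⟩
  | succ n ih =>
    obtain ⟨k, hk⟩ := ih x
    obtain ⟨l, hl⟩ := hF (x + n)
    refine ⟨k + l, ?_⟩
    push_cast at hk hl ⊢
    rw [← add_assoc, hl, hk]; ring
  | pred n ih =>
    obtain ⟨k, hk⟩ := ih x
    obtain ⟨l, hl⟩ := hF (x + ((-(n : ℤ) - 1 : ℤ) : ℝ))
    have h2 : x + ((-(n : ℤ) - 1 : ℤ) : ℝ) + 1 = x + ((-(n : ℤ) : ℤ) : ℝ) := by
      push_cast; ring
    rw [h2, hk] at hl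
    refine ⟨k - l, ?_⟩
    push_cast at hl ⊢
    linarith

lemma circ_coe {F : ℝ → ℝ} (hF : ∀ x, ∃ k : ℤ, F (x + 1) = F x + k) (x : ℝ) :
    circ F (x : UnitAddCircle) = ((F x : ℝ) : UnitAddCircle) := by
  obtain ⟨k, hk⟩ := rep_coe x
  obtain ⟨l, hl⟩ := lift_int hF x k
  unfold circ
  rw [hk, hl, coe_eq_iff]
  exact ⟨l, rfl⟩

lemma circ_iterate_coe {F : ℝ → ℝ} (hF : ∀ x, ∃ k : ℤ, F (x + 1) = F x + k) (n : ℕ) (x : ℝ) :
    (circ F)^[n] (x : UnitAddCircle) = ((F^[n] x : ℝ) : UnitAddCircle) := by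
  induction n generalizing x with
  | zero => rfl
  | succ n ih => rw [Function.iterate_succ_apply, circ_coe hF, ih, Function.iterate_succ_apply]

/-- uniform mixing (a form of exactness) -/
def UMix (T : UnitAddCircle → UnitAddCircle) : Prop :=
  ∀ g : UnitAddCircle → ℝ, (∃ K, LipschitzWith K g) → ∀ ε : ℝ, 0 < ε → ∃ N : ℕ, ∀ n ≥ N,
    ∀ E : Set UnitAddCircle, MeasurableSet E →
      |(∫ x in (T^[n]) ⁻¹' E, g x) - volume.real E * ∫ x, g x| ≤ ε

lemma UMix.iterate {T : UnitAddCircle → UnitAddCircle} (hT : UMix T) {m : ℕ} (hm : 1 ≤ m) :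
    UMix (T^[m]) := by
  intro g hg ε hε
  obtain ⟨N, hN⟩ := hT g hg ε hε
  refine ⟨N, fun n hn E hE => ?_⟩
  rw [← Function.iterate_mul]
  exact hN (m * n) (by nlinarith) E hE

/-- a set whose indicator does not correlate with Lipschitz functions is trivial -/
lemma null_or_conull_of_uncorrelated {E : Set UnitAddCircle} (hE : MeasurableSet E)
    (h : ∀ g : UnitAddCircle → ℝ, (∃ K, LipschitzWith K g) →
      ∫ x in E, g x = volume.real E * ∫ x, g x) :
    volume E = 0 ∨ volume Eᶜ = 0 := by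
  by_contra hcon
  rw [not_or] at hcon
  obtain ⟨h1, h2⟩ := hcon
  obtain ⟨F, hFE, hF, hFpos⟩ : ∃ F ⊆ Eᶜ, IsClosed F ∧ 0 < volume F :=
    hE.compl.exists_lt_isClosed_of_ne_top (measure_ne_top _ _) (pos_iff_ne_zero.2 h2)
  have hpos : ∀ n : ℕ, (0 : ℝ) < 1 / ((n : ℝ) + 1) := fun n => by positivity
  have hlim : Tendsto (fun n : ℕ => 1 / ((n : ℝ) + 1)) atTop (𝓝 0) :=
    tendsto_one_div_add_atTop_nhds_zero_nat
  have t1 := tendsto_integral_thickenedIndicator_of_isClosed (volume.restrict E) hF hpos hlim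
  have t2 : ∀ n : ℕ, volume.real E * volume.real F
      ≤ ∫ x in E, (thickenedIndicator (hpos n) F x : ℝ) := by
    intro n
    have hl : ∃ K, LipschitzWith K (fun x => (thickenedIndicator (hpos n) F x : ℝ)) := by
      have h3 := lipschitzWith_thickenedIndicator (hpos n) F
      exact ⟨_, (LipschitzWith.of_dist_le_mul fun x y => h3.dist_le_mul x y)⟩
    rw [h _ hl]
    apply mul_le_mul_of_nonneg_left _ measureReal_nonneg
    have h4 : volume.real F = ∫ x in F, (1 : ℝ) := by simp
    rw [h4]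
    have h5 : ∫ x in F, (1 : ℝ) ≤ ∫ x in F, (thickenedIndicator (hpos n) F x : ℝ) := by
      refine setIntegral_mono_on (by simp) (integrable_thickenedIndicator F (hpos n)).integrableOn
        hF.measurableSet fun x hx => ?_
      have := one_le_thickenedIndicator_apply _ (hpos n) hx
      exact_mod_cast this
    refine h5.trans (setIntegral_le_integral (integrable_thickenedIndicator F (hpos n)) ?_)
    exact Eventually.of_forall fun x => NNReal.coe_nonneg _
  have t3 : volume.real E * volume.real F ≤ (volume.restrict E).real F :=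
    ge_of_tendsto' t1 t2
  have t4 : (volume.restrict E).real F = 0 := by
    rw [measureReal_restrict_apply hF.measurableSet]
    have : F ∩ E = ∅ := by
      ext x
      constructor
      · rintro ⟨hx1, hx2⟩; exact hFE hx1 hx2
      · intro hx; exact hx.elim
    rw [this]; simp
  have t5 : 0 < volume.real E := ENNReal.toReal_pos h1 (measure_ne_top _ _)
  have t6 : 0 < volume.real F := ENNReal.toReal_pos hFpos.ne' (measure_ne_top _ _)
  have := mul_pos t5 t6
  linarith

lemma UMix.ergodic {T : UnitAddCircle → UnitAddCircle} (hT : UMix T)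
    (hmp : MeasurePreserving T volume volume) : Ergodic T volume := by
  refine ⟨hmp, ⟨?_⟩⟩
  intro E hE hinv
  have hinvn : ∀ n : ℕ, (T^[n]) ⁻¹' E = E := by
    intro n
    induction n with
    | zero => rfl
    | succ n ih => rw [Function.iterate_succ, Set.preimage_comp, ih, hinv]
  have h := null_or_conull_of_uncorrelated hE (fun g hg => by
    by_contra hne
    have hpos : 0 < |(∫ x in E, g x) - volume.real E * ∫ x, g x| := abs_pos.2 (sub_ne_zero.2 hne)
    obtain ⟨N, hN⟩ := hT g hg _ (half_pos hpos)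
    have := hN N le_rfl E hE
    rw [hinvn] at this
    linarith)
  rw [eventuallyConst_set']
  rcases h with h | h
  · exact Or.inl (ae_eq_empty.2 h)
  · exact Or.inr (ae_eq_univ.2 h)

namespace Base

variable (b : Base)

/-- the circle map -/
noncomputable def T : UnitAddCircle → UnitAddCircle := circ b.φ

lemma φ_lift (x : ℝ) : ∃ k : ℤ, b.φ (x + 1) = b.φ x + k := ⟨2, by rw [φ_add_one]; norm_num⟩

lemma T_coe (x : ℝ) : b.T (x : UnitAddCircle) = ((b.φ x : ℝ) : UnitAddCircle) :=
  circ_coe b.φ_lift x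

lemma T_iterate_coe (n : ℕ) (x : ℝ) :
    b.T^[n] (x : UnitAddCircle) = ((b.φ^[n] x : ℝ) : UnitAddCircle) :=
  circ_iterate_coe b.φ_lift n x

lemma T_measurable : Measurable b.T := measurable_circ b.φ_cont.measurable

lemma coe_add_one (x : ℝ) : ((x + 1 : ℝ) : UnitAddCircle) = (x : UnitAddCircle) :=
  (coe_eq_iff _ _).2 ⟨1, by simp⟩

/-- duality on the circle -/
lemma integral_T_iterate (n : ℕ) (E : Set UnitAddCircle) (hE : MeasurableSet E) (g : UnitAddCircle → ℝ)
    (hg : Measurable g) (hb : ∃ C, ∀ x, |g x| ≤ C) :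
    ∫ x in (b.T^[n]) ⁻¹' E, g x =
      ∫ x in (0 : ℝ)..1, E.indicator (fun _ => (1 : ℝ)) (x : UnitAddCircle)
        * b.P^[n] (fun x : ℝ => g (x : UnitAddCircle)) x := by
  have hTn : Measurable (b.T^[n]) := b.T_measurable.iterate n
  rw [← integral_indicator (hTn hE), ← UnitAddCircle.intervalIntegral_preimage 0, zero_add]
  have h1 : ∀ x : ℝ, ((b.T^[n]) ⁻¹' E).indicator g (x : UnitAddCircle)
      = E.indicator (fun _ => (1 : ℝ)) ((b.φ^[n] x : ℝ) : UnitAddCircle) * g (x : UnitAddCircle) := by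
    intro x
    rw [← T_iterate_coe]
    by_cases hx : b.T^[n] (x : UnitAddCircle) ∈ E
    · rw [Set.indicator_of_mem (show (x : UnitAddCircle) ∈ (b.T^[n]) ⁻¹' E from hx),
        Set.indicator_of_mem hx, one_mul]
    · rw [Set.indicator_of_notMem (show (x : UnitAddCircle) ∉ (b.T^[n]) ⁻¹' E from hx),
        Set.indicator_of_notMem hx, zero_mul]
  have hu : Measurable (E.indicator (fun _ => (1 : ℝ))) := measurable_const.indicator hE
  have hbm : BM (fun x : ℝ => E.indicator (fun _ => (1 : ℝ)) ((b.φ^[n] x : ℝ) : UnitAddCircle)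
      * g (x : UnitAddCircle)) := by
    refine BM.mul ⟨?_, 1, ?_⟩ ⟨?_, ?_⟩
    · exact hu.comp (measurable_coe.comp (b.φ_cont.measurable.iterate n))
    · intro x
      by_cases hx : ((b.φ^[n] x : ℝ) : UnitAddCircle) ∈ E
      · simp [hx]
      · simp [hx]
    · exact hg.comp measurable_coe
    · obtain ⟨C, hC⟩ := hb
      exact ⟨C, fun x => hC _⟩
  simp_rw [h1]
  rw [← b.integral_iterate_P hbm n]
  refine intervalIntegral.integral_congr fun x _ => ?_
  exact b.iterate_P_mul_comp (h := fun x : ℝ => E.indicator (fun _ => (1 : ℝ)) (x : UnitAddCircle))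
    (fun x => by rw [coe_add_one]) _ n x

lemma T_measurePreserving : MeasurePreserving b.T volume volume := by
  refine ⟨b.T_measurable, ?_⟩
  ext E hE
  rw [Measure.map_apply b.T_measurable hE]
  have h1 := b.integral_T_iterate 1 E hE (fun _ => 1) measurable_const ⟨1, fun x => by simp⟩
  have h0 := b.integral_T_iterate 0 E hE (fun _ => 1) measurable_const ⟨1, fun x => by simp⟩
  simp only [Function.iterate_one, Function.iterate_zero, id_eq, Set.preimage_id_eq] at h1 h0
  have h2 : b.P (fun _ => (1 : ℝ)) = fun _ => 1 := funext fun x => b.P_const 1 x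
  rw [h2, ← h0] at h1
  simp only [integral_const, smul_eq_mul, mul_one] at h1
  simp only [measureReal_restrict_apply_univ] at h1
  exact (measureReal_eq_measureReal_iff).1 h1

lemma T_umix : UMix b.T := by
  rintro g ⟨K, hK⟩ ε hε
  have hl : ∀ x x' : ℝ, |g (x : UnitAddCircle) - g (x' : UnitAddCircle)| ≤ K * |x - x'| := by
    intro x x'
    have h1 := hK.dist_le_mul (x : UnitAddCircle) (x' : UnitAddCircle)
    rw [Real.dist_eq] at h1
    refine h1.trans (mul_le_mul_of_nonneg_left ?_ K.coe_nonneg)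
    rw [dist_eq_norm, ← AddCircle.coe_sub, UnitAddCircle.norm_eq]
    simpa using round_le (x - x') 0
  obtain ⟨κ, D, h0, h1, h2⟩ := b.exact_lip (fun x : ℝ => g (x : UnitAddCircle)) hl
    (fun x => by rw [coe_add_one])
  have hlim : Tendsto (fun n : ℕ => D * κ ^ n) atTop (𝓝 0) := by
    simpa using (tendsto_pow_atTop_nhds_zero_of_lt_one h0 h1).const_mul D
  obtain ⟨N, hN⟩ := eventually_atTop.1 (hlim.eventually_lt_const hε)
  refine ⟨N, fun n hn E hE => ?_⟩
  have hgm : Measurable g := hK.continuous.measurable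
  have hgb : ∃ C, ∀ x, |g x| ≤ C := by
    obtain ⟨C, hC⟩ := (isCompact_range hK.continuous).isBounded.exists_norm_le
    exact ⟨C, fun x => hC _ ⟨x, rfl⟩⟩
  rw [b.integral_T_iterate n E hE g hgm hgb]
  have hI : ∫ x, g x = ∫ y in (0 : ℝ)..1, g (y : UnitAddCircle) := by
    rw [← UnitAddCircle.intervalIntegral_preimage 0, zero_add]
  have hEr : volume.real E = ∫ x in (0 : ℝ)..1, E.indicator (fun _ => (1 : ℝ)) (x : UnitAddCircle) := by
    have := UnitAddCircle.intervalIntegral_preimage 0 (E.indicator (fun _ => (1 : ℝ)))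
    rw [zero_add] at this
    rw [this, integral_indicator hE]
    simp
  rw [hEr, hI, ← intervalIntegral.integral_mul_const]
  have hu : Measurable (fun x : ℝ => E.indicator (fun _ => (1 : ℝ)) (x : UnitAddCircle)) :=
    (measurable_const.indicator hE).comp measurable_coe
  have hu1 : ∀ x : ℝ, |E.indicator (fun _ => (1 : ℝ)) (x : UnitAddCircle)| ≤ 1 := by
    intro x
    by_cases hx : (x : UnitAddCircle) ∈ E
    · simp [hx]
    · simp [hx]
  have hbu : BM (fun x : ℝ => E.indicator (fun _ => (1 : ℝ)) (x : UnitAddCircle)) := ⟨hu, 1, hu1⟩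
  have hbg : BM (fun x : ℝ => g (x : UnitAddCircle)) := by
    obtain ⟨C, hC⟩ := hgb
    exact ⟨hgm.comp measurable_coe, C, fun x => hC _⟩
  rw [← intervalIntegral.integral_sub
    ((hbu.mul (b.iterate_P_bm hbg n)).intervalIntegrable _ _)
    ((hbu.mul (BM.const _)).intervalIntegrable _ _)]
  have h3 := intervalIntegral.norm_integral_le_of_norm_le_const (a := 0) (b := 1) (C := ε)
    (f := fun x : ℝ => E.indicator (fun _ => (1 : ℝ)) (x : UnitAddCircle)
        * b.P^[n] (fun x : ℝ => g (x : UnitAddCircle)) x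
        - E.indicator (fun _ => (1 : ℝ)) (x : UnitAddCircle) * ∫ y in (0 : ℝ)..1, g (y : UnitAddCircle))
    (fun x _ => by
      rw [← mul_sub, Real.norm_eq_abs, abs_mul]
      have h4 := h2 n x
      have h5 := hu1 x
      have h6 := (hN n hn).le
      calc _ ≤ 1 * (D * κ ^ n) := mul_le_mul h5 h4 (abs_nonneg _) zero_le_one
        _ ≤ ε := by linarith)
  simpa using h3

lemma T_iterate_umix {m : ℕ} (hm : 1 ≤ m) : UMix (b.T^[m]) := b.T_umix.iterate hm

lemma T_iterate_ergodic {m : ℕ} (hm : 1 ≤ m) : Ergodic (b.T^[m]) volume :=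
  (b.T_iterate_umix hm).ergodic (b.T_measurePreserving.iterate m)

end Base

end Pool.Agent.Work.MP_0e2194_an
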